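import Mathlib

set_option autoImplicit false

namespace Pool.Agent.Lib.MP_2d08ba_nt

section

variable {X : Type} [Fintype X] [Nonempty X] (l r : X → ℝ) (T : ℝ)

/-- the periodic arc of `x` contains `θ` -/
def pierced (x : X) (θ : ℝ) : Prop := ∃ k : ℤ, l x < θ + k * T ∧ θ + k * T < r x

variable {l r T}

theorem step_exists (hT : 0 < T) (θ : ℝ) : ∃ (x : X) (k : ℤ), θ ≤ l x + k * T ∧
    ∀ (x' : X) (k' : ℤ), θ ≤ l x' + k' * T → r x + k * T ≤ r x' + k' * T := by
  obtain ⟨x, hx⟩ := Finite.exists_min (fun x : X => r x + (⌈(θ - l x) / T⌉ : ℝ) * T)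
  refine ⟨x, ⌈(θ - l x) / T⌉, ?_, ?_⟩
  · have h1 := Int.le_ceil ((θ - l x) / T)
    rw [div_le_iff₀ hT] at h1
    linarith
  · intro x' k' hk'
    refine (hx x').trans ?_
    have h1 : (θ - l x') / T ≤ k' := by rw [div_le_iff₀ hT]; linarith
    have h2 : ⌈(θ - l x') / T⌉ ≤ k' := Int.ceil_le.mpr h1
    have h3 : (⌈(θ - l x') / T⌉ : ℝ) ≤ k' := by exact_mod_cast h2
    have := mul_le_mul_of_nonneg_right h3 hT.le
    linarith

/-- Round-up property of circular arc families. -/
theorem arcs (hT : 0 < T) (hlr : ∀ x, l x < r x) {N : ℕ} (hN : 1 ≤ N)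
    (hno : ∀ θ : Fin N → ℝ, ∃ x, ∀ j, ¬ pierced l r T x (θ j)) :
    ∃ w : ℕ, 1 ≤ w ∧ w ≤ Fintype.card X ∧ ∃ x : Fin (w * N + 1) → X, ∀ (θ : ℝ)
      (S : Finset (Fin (w * N + 1))), (∀ i ∈ S, pierced l r T (x i) θ) → S.card ≤ w := by
  classical
  choose A K hA1 hA2 using fun θ : ℝ => step_exists (l := l) (r := r) hT θ
  obtain ⟨t, ht⟩ : ∃ t : ℕ → ℝ, ∀ i, t (i + 1) = r (A (t i)) + K (t i) * T :=
    ⟨fun i => Nat.rec 0 (fun _ θ => r (A θ) + K θ * T) i, fun i => rfl⟩
  have htl : ∀ i, t i ≤ l (A (t i)) + K (t i) * T := fun i => hA1 (t i)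
  have htlt : ∀ i, t i < t (i + 1) := by
    intro i
    rw [ht]
    have := htl i
    have := hlr (A (t i))
    linarith
  have hmono : StrictMono t := strictMono_nat_of_lt_succ htlt
  have hge : ∀ i (x : X) (k : ℤ), t i ≤ l x + k * T → t (i + 1) ≤ r x + k * T := by
    intro i x k h
    rw [ht]
    exact hA2 (t i) x k h
  -- K1
  have hK1 : ∀ i, t (i + N) < t i + T := by
    intro i
    by_contra hcon
    push Not at hcon
    -- for each x find j and k
    have hx : ∀ x : X, ∃ (j : Fin N) (k : ℤ), l x + k * T < t (i + j + 1) ∧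
        t (i + j + 1) ≤ r x + k * T := by
      intro x
      set k : ℤ := ⌈(t i - l x) / T⌉ with hk
      have h1 : t i ≤ l x + k * T := by
        have h1 := Int.le_ceil ((t i - l x) / T)
        rw [div_le_iff₀ hT] at h1
        linarith
      have h2 : l x + k * T < t i + T := by
        have h1 := Int.ceil_lt_add_one ((t i - l x) / T)
        have h3 : (k : ℝ) * T < ((t i - l x) / T + 1) * T := mul_lt_mul_of_pos_right h1 hT
        have h4 : ((t i - l x) / T + 1) * T = t i - l x + T := by field_simp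
        linarith
      -- first index beyond
      have hex : ∃ n, l x + k * T < t (i + n) := ⟨N, by linarith⟩
      classical
      have hfind := Nat.find_spec hex
      set n := Nat.find hex with hn
      have hn0 : n ≠ 0 := by
        intro h0
        rw [h0] at hfind
        simp only [add_zero] at hfind
        linarith
      have hnN : n ≤ N := Nat.find_min' hex (by linarith)
      obtain ⟨j, hj⟩ := Nat.exists_eq_succ_of_ne_zero hn0
      have hjmin : ¬ (l x + k * T < t (i + j)) := Nat.find_min hex (by omega)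
      refine ⟨⟨j, by omega⟩, k, ?_, ?_⟩
      · rw [hj] at hfind
        exact hfind
      · exact hge (i + j) x k (not_lt.mp hjmin)
    choose jx kx hx1 hx2 using hx
    obtain ⟨x0, hx0⟩ := Finite.exists_min (fun x : X => t (i + jx x + 1) - (l x + kx x * T))
    set ε : ℝ := (t (i + jx x0 + 1) - (l x0 + kx x0 * T)) / 2 with hε
    have hε0 : 0 < ε := by
      rw [hε]
      have := hx1 x0
      linarith
    obtain ⟨x, hxx⟩ := hno (fun j => t (i + j + 1) - ε)
    apply hxx (jx x)
    refine ⟨-kx x, ?_, ?_⟩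
    · have h1 := hx0 x
      push_cast
      have h2 : ε + ε = t (i + jx x0 + 1) - (l x0 + kx x0 * T) := by rw [hε]; ring
      linarith
    · have h1 := hx2 x
      push_cast
      linarith
  -- K2
  have hpig : ∃ s s' : Fin (Fintype.card X + 1), s ≠ s' ∧
      A (t (s * N)) = A (t (s' * N)) := by
    apply Fintype.exists_ne_map_eq_of_card_lt (f := fun s : Fin (Fintype.card X + 1) =>
      A (t (s * N)))
    simp
  obtain ⟨s0, s0', hne0, hss0⟩ := hpig
  obtain ⟨s, s', hlt, hs', hAs⟩ : ∃ s s' : ℕ, s < s' ∧ s' ≤ Fintype.card X ∧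
      A (t (s * N)) = A (t (s' * N)) := by
    rcases lt_or_gt_of_ne (fun h => hne0 (Fin.ext h) : (s0 : ℕ) ≠ s0') with h | h
    · exact ⟨s0, s0', h, Nat.lt_succ_iff.mp s0'.2, hss0⟩
    · exact ⟨s0', s0, h, Nat.lt_succ_iff.mp s0.2, hss0.symm⟩
  -- decreasing
  have hdec : ∀ d a : ℕ, 1 ≤ d → t (a + d * N) < t a + d * T := by
    intro d a hd
    induction d with
    | zero => omega
    | succ d ih =>
      rcases Nat.eq_zero_or_pos d with h0 | h0
      · subst h0
        have := hK1 a
        simpa using this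
      · have h1 := ih h0
        have h2 := hK1 (a + d * N)
        have e1 : a + (d + 1) * N = a + d * N + N := by ring
        rw [e1]
        push_cast
        linarith
  set w := s' - s - 1 with hw
  have hs'eq : s' = s + (w + 1) := by omega
  have hkey : t (1 + s * N + (w + 1) * N) ≤ t (1 + s * N) + w * T := by
    have h1 := hdec (w + 1) (1 + s * N) (by omega)
    have e1 : 1 + s * N + (w + 1) * N = s' * N + 1 := by rw [hs'eq]; ring
    have e2 : 1 + s * N = s * N + 1 := by ring
    rw [e1, e2, ht, ht, ← hAs] at h1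
    rw [e1, e2, ht, ht, ← hAs]
    have h2 : (K (t (s' * N)) : ℝ) * T < K (t (s * N)) * T + ((w + 1 : ℕ) : ℝ) * T := by linarith
    have h3 : (K (t (s' * N)) : ℝ) < K (t (s * N)) + ((w + 1 : ℕ) : ℝ) := by
      have : (K (t (s' * N)) : ℝ) * T < (K (t (s * N)) + ((w + 1 : ℕ) : ℝ)) * T := by linarith
      exact lt_of_mul_lt_mul_right this hT.le
    have h4 : K (t (s' * N)) < K (t (s * N)) + ((w + 1 : ℕ) : ℤ) := by exact_mod_cast h3
    have h5 : K (t (s' * N)) ≤ K (t (s * N)) + (w : ℤ) := by push_cast at h4; omega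
    have h6 : (K (t (s' * N)) : ℝ) ≤ K (t (s * N)) + w := by exact_mod_cast h5
    have h7 := mul_le_mul_of_nonneg_right h6 hT.le
    linarith
  have hw1 : 1 ≤ w := by
    by_contra hcon
    have hw0 : w = 0 := by omega
    rw [hw0] at hkey
    have h1 : t (1 + s * N) < t (1 + s * N + (0 + 1) * N) := hmono (by omega)
    simp only [Nat.cast_zero, zero_mul, add_zero] at hkey
    linarith
  refine ⟨w, hw1, by omega, fun i => A (t (1 + s * N + i)), ?_⟩
  intro θ S hS
  -- integers n_i
  have hn : ∀ i : S, ∃ n : ℤ, t (1 + s * N + i.1) < θ + n * T ∧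
      θ + n * T < t (1 + s * N + i.1 + 1) := by
    intro i
    obtain ⟨k, hk1, hk2⟩ := hS i.1 i.2
    refine ⟨k + K (t (1 + s * N + i.1)), ?_, ?_⟩
    · have h1 := htl (1 + s * N + i.1)
      push_cast
      linarith
    · rw [ht]
      push_cast
      linarith
  choose n hn1 hn2 using hn
  have hinj : Function.Injective n := by
    intro i i' hii
    by_contra hne
    have hne' : (i.1 : ℕ) ≠ i'.1 := fun h => hne (Subtype.ext (Fin.ext h))
    have key : ∀ i i' : S, (i.1 : ℕ) < i'.1 → n i ≠ n i' := by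
      intro i i' hlt' heq
      have h1 := hn2 i
      have h2 := hn1 i'
      have h3 : t (1 + s * N + i.1 + 1) ≤ t (1 + s * N + i'.1) :=
        hmono.monotone (show 1 + s * N + i.1 + 1 ≤ 1 + s * N + i'.1 by omega)
      rw [heq] at h1
      linarith
    rcases lt_or_gt_of_ne hne' with h | h
    · exact key i i' h hii
    · exact key i' i h hii.symm
  set c : ℝ := (t (1 + s * N) - θ) / T with hc
  have hcT : c * T = t (1 + s * N) - θ := by rw [hc]; field_simp
  have hrange : ∀ i : S, n i ∈ Finset.Ico (⌊c⌋ + 1) (⌊c⌋ + 1 + w) := by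
    intro i
    rw [Finset.mem_Ico]
    have h1 := hn1 i
    have h2 := hn2 i
    have h3 : t (1 + s * N) ≤ t (1 + s * N + i.1) :=
      hmono.monotone (show 1 + s * N ≤ 1 + s * N + (i.1 : ℕ) by omega)
    have h4' : 1 + s * N + (i.1 : ℕ) + 1 ≤ 1 + s * N + (w + 1) * N := by
      have h5 : (i.1 : ℕ) < w * N + 1 := i.1.2
      have h6 : (w + 1) * N = w * N + N := by ring
      omega
    have h4 : t (1 + s * N + i.1 + 1) ≤ t (1 + s * N + (w + 1) * N) := hmono.monotone h4'
    constructor
    · have h5 : c < n i := by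
        have : c * T < n i * T := by rw [hcT]; linarith
        exact lt_of_mul_lt_mul_right this hT.le
      have h6 : (⌊c⌋ : ℝ) < n i := lt_of_le_of_lt (Int.floor_le c) h5
      have h7 : ⌊c⌋ < n i := by exact_mod_cast h6
      omega
    · have h5 : (n i : ℝ) < c + w := by
        have : (n i : ℝ) * T < (c + w) * T := by rw [add_mul, hcT]; linarith
        exact lt_of_mul_lt_mul_right this hT.le
      have h6 := Int.lt_floor_add_one c
      have h7 : (n i : ℝ) < ⌊c⌋ + 1 + w := by linarith
      exact_mod_cast h7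
  calc S.card = Fintype.card S := (Fintype.card_coe S).symm
    _ = (Finset.univ.image n).card := by
        rw [Finset.card_image_of_injective _ hinj, Finset.card_univ]
    _ ≤ (Finset.Ico (⌊c⌋ + 1) (⌊c⌋ + 1 + w)).card := by
        apply Finset.card_le_card
        intro z hz
        rw [Finset.mem_image] at hz
        obtain ⟨i, _, rfl⟩ := hz
        exact hrange i
    _ = w := by rw [Int.card_Ico]; simp

end

end Pool.Agent.Lib.MP_2d08ba_nt
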