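import Pool.Agent.Lib.MP_2d08ba_nt.Full

set_option autoImplicit false

namespace Pool.Agent.Lib.MP_2d08ba_nt

open Real

/-- If the greedy map of the shell arcs must close within `W` turns, then a polygon that is not
realizable has an obstruction with at most `W` turns. -/
theorem exists_of_close {m : ℕ} {V : Finset (ℤ × ℤ)} (hcard : 3 ≤ V.card)
    (hV : ConvexPos (vertexSet V)) (hno : ¬ Realizable m (poly V)) (Wt : ℕ)
    (hclose : ∀ [Fintype (shell V)] [Nonempty (shell V)] (l r : shell V → ℝ), ArcSys V l r →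
      (∀ θ, (Fm l r two_pi_pos)^[m + 1] θ < θ + 2 * π) →
      (∀ w : ℕ, 1 ≤ w → w ≤ Wt → ∀ y, y + w * (2 * π) <
        (Fm l r two_pi_pos)^[w * (m + 1) + 1] y) → False) :
    ∃ w : ℕ, 1 ≤ w ∧ w ≤ Wt ∧ ∃ X : Finset (ℤ × ℤ), X.card = w * (m + 1) + 1 ∧
      (∀ x ∈ X, x ∈ shell V) ∧ ∀ α β γ : ℝ, (∀ v ∈ V, α * v.1 + β * v.2 < γ) →
        ∀ S ⊆ X, (∀ x ∈ S, γ ≤ α * x.1 + β * x.2) → S.card ≤ w := by
  classical
  set W := vertexSet V with hW
  have hWne : W.Nonempty := by rw [← Finset.card_pos, hW, card_vertexSet]; omega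
  have hfin := shell_finite hcard hV
  have : Fintype (shell V) := hfin.fintype
  have hne : Nonempty (shell V) := by
    by_contra hcon
    rw [not_nonempty_iff] at hcon
    apply hno
    refine realizable_of_functionals (ι := Fin (m + 1)) (by simp) hWne (vertexSet_lattice V)
      (fun _ => (0, 0, 1)) (fun _ _ _ => by unfold aff; simp) ?_
    rintro z ⟨z', rfl⟩ hz
    obtain ⟨x, hx, _⟩ := exists_shell (V := V) (z := z') hz
    exact (hcon.false ⟨x, hx⟩).elim
  have harc0 : ∀ x : shell V, ∃ l r : ℝ, IsArc W (toR x.1) l r := fun x =>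
    exists_isArc hWne x.2.1
  choose l r harc using harc0
  have h2pi : (0 : ℝ) < 2 * π := two_pi_pos
  have hlr : ∀ x, l x < r x := fun x => (harc x).lt
  have hpierce : ∀ θ : Fin (m + 1) → ℝ, ∃ x, ∀ j, ¬ pierced l r (2 * π) x (θ j) := by
    -- no m + 1 directions pierce all arcs
    intro θ
    by_contra hcon
    push Not at hcon
    have hsup : ∀ j : Fin (m + 1), ∃ v ∈ W, ∀ v' ∈ W, dirf (θ j) v' ≤ dirf (θ j) v :=
      fun j => Finset.exists_max_image W (dirf (θ j)) hWne
    choose s hsW hs using hsup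
    choose jx hjx using hcon
    have hgap : ∀ x : shell V, 0 < dirf (θ (jx x)) (toR x.1) - dirf (θ (jx x)) (s (jx x)) := by
      intro x
      have h1 := ((harc x).iff (θ (jx x))).mpr (hjx x) (s (jx x)) (hsW _)
      rw [dirf_sub] at h1
      exact h1
    obtain ⟨x0, hx0⟩ := Finite.exists_min
      (fun x : shell V => dirf (θ (jx x)) (toR x.1) - dirf (θ (jx x)) (s (jx x)))
    set δ : ℝ := (dirf (θ (jx x0)) (toR x0.1) - dirf (θ (jx x0)) (s (jx x0))) / 2 with hδ
    have hδ0 : 0 < δ := by rw [hδ]; have := hgap x0; linarith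
    apply hno
    refine realizable_of_functionals (ι := Fin (m + 1)) (by simp) hWne (vertexSet_lattice V)
      (fun j => (-cos (θ j), -sin (θ j), dirf (θ j) (s j) + δ)) ?_ ?_
    · intro j v hv
      have h1 := hs j v hv
      unfold aff
      unfold dirf at h1 ⊢
      simp only
      linarith
    · rintro z ⟨z', rfl⟩ hz
      obtain ⟨x, hx, hxz⟩ := exists_shell (V := V) (z := z') hz
      refine ⟨jx ⟨x, hx⟩, ?_⟩
      by_contra hcon2
      push Not at hcon2
      have h1 : toR x ∈ {y : ℝ × ℝ | 0 ≤ aff (-cos (θ (jx ⟨x, hx⟩)), -sin (θ (jx ⟨x, hx⟩)),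
          dirf (θ (jx ⟨x, hx⟩)) (s (jx ⟨x, hx⟩)) + δ) y} := by
        refine convexHull_min ?_ (aff_nonneg_convex _) hxz
        intro y hy
        rcases hy with rfl | hy
        · exact hcon2
        · have h1 := hs (jx ⟨x, hx⟩) y hy
          simp only [Set.mem_ofPred_eq]
          unfold aff
          unfold dirf at h1 ⊢
          simp only
          linarith
      have h2 := hx0 ⟨x, hx⟩
      simp only [Set.mem_ofPred_eq] at h1
      unfold aff at h1
      unfold dirf at h1 h2
      simp only at h1 h2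
      have h3 : δ + δ = dirf (θ (jx x0)) (toR x0.1) - dirf (θ (jx x0)) (s (jx x0)) := by
        rw [hδ]; ring
      unfold dirf at h3
      linarith
  have hK := Fm_iter_lt h2pi hlr (N := m + 1) hpierce
  -- a closing number of turns
  have hex : ∃ w : ℕ, 1 ≤ w ∧ w ≤ Wt ∧ ∃ y, (Fm l r two_pi_pos)^[w * (m + 1) + 1] y ≤
      y + w * (2 * π) := by
    by_contra hcon
    push Not at hcon
    exact hclose l r harc hK hcon
  set w := Nat.find hex with hw
  obtain ⟨hw1, hw3, y, hy⟩ := Nat.find_spec hex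
  have hmin : ∀ w', 1 ≤ w' → w' < w → ∀ y', y' + w' * (2 * π) <
      (Fm l r two_pi_pos)^[w' * (m + 1) + 1] y' := by
    intro w' h1 h2 y'
    have h3 := Nat.find_min hex h2
    by_contra hcon
    push Not at hcon
    exact h3 ⟨h1, by omega, y', hcon⟩
  obtain ⟨x, hinj, hx⟩ := family_of_turn h2pi hlr hK hw1 hy hmin
  have hinj' : Function.Injective (fun i => (x i).1) := fun i j h => hinj (Subtype.ext h)
  refine ⟨w, hw1, hw3, Finset.univ.map ⟨fun i => (x i).1, hinj'⟩, ?_, ?_, ?_⟩
  · rw [Finset.card_map, Finset.card_univ, Fintype.card_fin]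
  · intro z hz
    rw [Finset.mem_map] at hz
    obtain ⟨i, _, rfl⟩ := hz
    exact (x i).2
  · intro α β γ hV' S hSX hS
    set z : ℂ := ⟨α, β⟩ with hz
    have hcoord : ∀ y : ℝ × ℝ, α * y.1 + β * y.2 = ‖z‖ * dirf z.arg y := by
      intro y
      unfold dirf
      have e1 : ‖z‖ * cos z.arg = α := Complex.norm_mul_cos_arg z
      have e2 : ‖z‖ * sin z.arg = β := Complex.norm_mul_sin_arg z
      calc α * y.1 + β * y.2 = (‖z‖ * cos z.arg) * y.1 + (‖z‖ * sin z.arg) * y.2 := by
            rw [e1, e2]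
        _ = _ := by ring
    -- indices of S
    set I : Finset (Fin (w * (m + 1) + 1)) := Finset.univ.filter (fun i => (x i).1 ∈ S) with hI
    have hSI : S.card ≤ I.card := by
      have : S ⊆ I.image (fun i => (x i).1) := by
        intro s hs
        have h1 := hSX hs
        rw [Finset.mem_map] at h1
        obtain ⟨i, _, hi⟩ := h1
        simp only [Function.Embedding.coeFn_mk] at hi
        rw [Finset.mem_image]
        exact ⟨i, by rw [hI, Finset.mem_filter]; exact ⟨Finset.mem_univ _, by rw [hi]; exact hs⟩,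
          hi⟩
      exact (Finset.card_le_card this).trans Finset.card_image_le
    refine hSI.trans (hx z.arg I ?_)
    intro i hi
    rw [hI, Finset.mem_filter] at hi
    have h1 := hS _ hi.2
    show ∃ k : ℤ, l (x i) < z.arg + k * (2 * π) ∧ z.arg + k * (2 * π) < r (x i)
    rw [← (harc (x i)).iff z.arg]
    intro v hv
    obtain ⟨v', hv', rfl⟩ := mem_vertexSet.mp hv
    have h2 := hV' v' hv'
    have h3 : 0 < ‖z‖ * dirf z.arg (toR (x i).1 - toR v') := by
      rw [← hcoord]
      simp only [Prod.fst_sub, Prod.snd_sub]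
      unfold toR
      simp only
      linarith
    by_contra hcon
    push Not at hcon
    have := mul_nonpos_of_nonneg_of_nonpos (norm_nonneg z) hcon
    linarith

/-- a point strictly inside the neighbours of an edge, at distance one beyond it, is in the
shell -/
theorem edge_point_shell {V : Finset (ℤ × ℤ)} (hcard : 3 ≤ V.card)
    {z a b c x : ℤ × ℤ} (hz : IsEdgeZ V z a) (hab : IsEdgeZ V a b)
    (hbc : IsEdgeZ V b c) (hx0 : detZ (b - a) (x - a) = -glen (b - a))
    (hx1 : 0 < detZ (a - z) (x - z)) (hx2 : 0 < detZ (c - b) (x - b)) : x ∈ shell V := by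
  have hg1 : 0 < glen (b - a) := glen_pos (fun h0 => hab.2.2.1 (sub_eq_zero.mp h0).symm)
  refine ⟨?_, ?_⟩
  · intro hmem
    have h1 := hull_nonneg (edge_iff.mpr hab) hmem
    rw [det_toR'] at h1
    have h2 : 0 ≤ detZ (b - a) (x - a) := by exact_mod_cast h1
    omega
  · intro a1 b1 h1
    by_cases ha : a1 = a
    · subst ha
      have hb : b1 = b := toR_injective (next_unique (edge_iff.mpr h1) (edge_iff.mpr hab))
      subst hb
      omega
    · have h2 := contig (V := vertexSet V) (by rw [card_vertexSet]; exact hcard)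
        (edge_iff.mpr hz) (edge_iff.mpr hab) (edge_iff.mpr hbc) (x := toR x)
        (by rw [det_toR']; exact_mod_cast (by omega : detZ (b - a) (x - a) < 0))
        (by rw [det_toR']; exact_mod_cast hx1) (by rw [det_toR']; exact_mod_cast hx2)
        _ _ (edge_iff.mpr h1) (fun h => ha (toR_injective h))
      rw [det_toR'] at h2
      have h3 : 0 < detZ (b1 - a1) (x - a1) := by exact_mod_cast h2
      have h4 : 0 < glen (b1 - a1) := glen_pos (fun h0 => h1.2.2.1 (sub_eq_zero.mp h0).symm)
      omega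

/-- The edge `(a, b)` is full: some integer point lies at lattice distance one beyond it and
strictly inside the lines of the two neighbouring edges. -/
def FullEdge (V : Finset (ℤ × ℤ)) (a b : ℤ × ℤ) : Prop :=
  ∃ z c, IsEdgeZ V z a ∧ IsEdgeZ V a b ∧ IsEdgeZ V b c ∧ EdgeHasPoint a b z c

/-- The number of turns: `1` if `P` has two adjacent full edges, `2` if it has a full edge but no
two adjacent ones, `3` if it has no full edge. -/
noncomputable def turns (V : Finset (ℤ × ℤ)) : ℕ := by
  classical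
  exact if ∃ a b c, FullEdge V a b ∧ FullEdge V b c then 1 else
    if ∃ a b, FullEdge V a b then 2 else 3

theorem turns_le (V : Finset (ℤ × ℤ)) : turns V ≤ 3 := by
  unfold turns
  split_ifs <;> norm_num

/-- A polygon that is not realizable has an obstruction with at most `turns` turns. -/
theorem exists_turns {m : ℕ} {V : Finset (ℤ × ℤ)} (hcard : 3 ≤ V.card)
    (hV : ConvexPos (vertexSet V)) (hno : ¬ Realizable m (poly V)) :
    ∃ w : ℕ, 1 ≤ w ∧ w ≤ turns V ∧ ∃ X : Finset (ℤ × ℤ), X.card = w * (m + 1) + 1 ∧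
      (∀ x ∈ X, x ∈ shell V) ∧ ∀ α β γ : ℝ, (∀ v ∈ V, α * v.1 + β * v.2 < γ) →
        ∀ S ⊆ X, (∀ x ∈ S, γ ≤ α * x.1 + β * x.2) → S.card ≤ w := by
  classical
  unfold turns
  split_ifs with h1 h2
  · obtain ⟨a, b, c, ⟨z, c', hz, hab, hbc', hp⟩, ⟨a', d, hab', hbc, hcd, hp'⟩⟩ := h1
    have e1 : a' = a := toR_injective (prev_unique (edge_iff.mpr hab') (edge_iff.mpr hab))
    have e2 : c' = c := toR_injective (next_unique (edge_iff.mpr hbc') (edge_iff.mpr hbc))
    subst e1
    subst e2
    obtain ⟨x, hx0, hx1, hx2⟩ := hp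
    obtain ⟨x', hx0', hx1', hx2'⟩ := hp'
    have hg1 : 0 < glen (b - a') := glen_pos (fun h0 => hab.2.2.1 (sub_eq_zero.mp h0).symm)
    have hg2 : 0 < glen (c' - b) := glen_pos (fun h0 => hbc.2.2.1 (sub_eq_zero.mp h0).symm)
    have hxS : x ∈ shell V := edge_point_shell hcard hz hab hbc hx0 hx1 hx2
    have hxS' : x' ∈ shell V := edge_point_shell hcard hab hbc hcd hx0' hx1' hx2'
    refine exists_of_close hcard hV hno 1 (fun l r harc hK hH => ?_)
    refine closes_one hcard hV harc (N := m + 1) (by omega) hK hH hz hab hbc hcd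
      (x := ⟨x, hxS⟩) (x' := ⟨x', hxS'⟩) ?_ ?_ hx2 ?_ ?_ hx2'
    · rw [detZ_base]; simp only; omega
    · rw [← detZ_base] at hx1; exact hx1
    · simp only; omega
    · rw [← detZ_base] at hx1'; exact hx1'
  · obtain ⟨a, b, z, c, hz, hab, hbc, hp⟩ := h2
    obtain ⟨x, hx0, hx1, hx2⟩ := hp
    have hg1 : 0 < glen (b - a) := glen_pos (fun h0 => hab.2.2.1 (sub_eq_zero.mp h0).symm)
    have hxS : x ∈ shell V := edge_point_shell hcard hz hab hbc hx0 hx1 hx2
    refine exists_of_close hcard hV hno 2 (fun l r harc hK hH => ?_)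
    refine closes_two hcard hV harc (N := m + 1) (by omega) hK hH hz hab hbc
      (x := ⟨x, hxS⟩) ?_ ?_ hx2
    · rw [detZ_base]; simp only; omega
    · rw [← detZ_base] at hx1; exact hx1
  · exact exists_of_close hcard hV hno 3 (fun _ _ harc hK hH =>
      closes hcard hV harc (N := m + 1) ⟨by omega, hK, hH⟩)

/-- The converse: an obstruction shows that the polygon is not realizable. -/
theorem not_realizable_of_family {m : ℕ} (hm : 2 ≤ m) {V : Finset (ℤ × ℤ)} {w : ℕ}
    {X : Finset (ℤ × ℤ)} (hcard : X.card = w * (m + 1) + 1) (hX : ∀ x ∈ X, toR x ∉ poly V)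
    (hH : ∀ α β γ : ℝ, (∀ v ∈ V, α * v.1 + β * v.2 < γ) →
        ∀ S ⊆ X, (∀ x ∈ S, γ ≤ α * x.1 + β * x.2) → S.card ≤ w) :
    ¬ Realizable m (poly V) := by
  intro hreal
  classical
  obtain ⟨f, hpos, hlat⟩ := functionals_of_realizable hm hreal
  have hj : ∀ x : X, ∃ j, aff (f j) (toR x.1) < 0 := fun x => hlat _ ⟨x.1, rfl⟩ (hX x.1 x.2)
  choose j hj using hj
  set c : ℤ × ℤ → Fin (m + 1) := fun x => if h : x ∈ X then j ⟨x, h⟩ else 0 with hc
  have hcount : ∀ k : Fin (m + 1), (X.filter (fun x => c x = k)).card ≤ w := by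
    intro k
    refine hH (-(f k).1) (-(f k).2.1) (f k).2.2 ?_ _ (Finset.filter_subset _ _) ?_
    · intro v hv
      have h1 := hpos k (toR v) (mem_vertexSet.mpr ⟨v, hv, rfl⟩)
      unfold aff toR at h1
      simp only at h1
      linarith
    · intro x hx
      rw [Finset.mem_filter] at hx
      obtain ⟨hxX, hxk⟩ := hx
      have h1 := hj ⟨x, hxX⟩
      have h2 : c x = j ⟨x, hxX⟩ := by simp only [hc, hxX, dif_pos]
      rw [← h2, hxk] at h1
      unfold aff toR at h1
      simp only at h1
      linarith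
  have htot : X.card = ∑ k : Fin (m + 1), (X.filter (fun x => c x = k)).card :=
    Finset.card_eq_sum_card_fiberwise (fun _ _ => Finset.mem_univ _)
  have hle : ∑ k : Fin (m + 1), (X.filter (fun x => c x = k)).card ≤
      ∑ _k : Fin (m + 1), w := Finset.sum_le_sum (fun k _ => hcount k)
  rw [hcard] at htot
  rw [Finset.sum_const, Finset.card_univ, Fintype.card_fin, smul_eq_mul] at hle
  have : (m + 1) * w = w * (m + 1) := Nat.mul_comm _ _
  omega

end Pool.Agent.Lib.MP_2d08ba_nt
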