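import Pool.Agent.Lib.MP_2d08ba_nt.Planar

set_option autoImplicit false

namespace Pool.Agent.Lib.MP_2d08ba_nt

open Filter Topology

/-- affine functional with coefficients `c` -/
def aff (c : ℝ × ℝ × ℝ) (x : ℝ × ℝ) : ℝ := c.1 * x.1 + c.2.1 * x.2 + c.2.2

theorem aff_continuous (c : ℝ × ℝ × ℝ) : Continuous (aff c) := by
  unfold aff; fun_prop

theorem aff_comb (c : ℝ × ℝ × ℝ) (x y : ℝ × ℝ) {s t : ℝ} (h : s + t = 1) :
    aff c (s • x + t • y) = s * aff c x + t * aff c y := by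
  unfold aff
  simp only [Prod.fst_add, Prod.snd_add, Prod.smul_fst, Prod.smul_snd, smul_eq_mul]
  have : s = 1 - t := by linarith
  subst this; ring

theorem aff_pos_hull {c : ℝ × ℝ × ℝ} {S : Set (ℝ × ℝ)} (h : ∀ v ∈ S, 0 < aff c v) :
    ∀ x ∈ convexHull ℝ S, 0 < aff c x := by
  have hconv : Convex ℝ {x : ℝ × ℝ | 0 < aff c x} := by
    intro y hy z hz s t hs ht hst
    simp only [Set.mem_ofPred_eq] at hy hz ⊢
    rw [aff_comb c y z hst]
    rcases hs.lt_or_eq with h1 | h1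
    · have := mul_pos h1 hy
      have := mul_nonneg ht hz.le
      linarith
    · have : t = 1 := by linarith
      rw [← h1, this]; linarith
  exact fun x hx => convexHull_min h hconv hx

theorem aff_nonneg_convex (c : ℝ × ℝ × ℝ) : Convex ℝ {x : ℝ × ℝ | 0 ≤ aff c x} := by
  intro y hy z hz s t hs ht hst
  simp only [Set.mem_ofPred_eq] at hy hz ⊢
  rw [aff_comb c y z hst]
  positivity

/-- the functional of an edge -/
def edgeF (a b : ℝ × ℝ) : ℝ × ℝ × ℝ :=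
  (-(b.2 - a.2), b.1 - a.1, (b.2 - a.2) * a.1 - (b.1 - a.1) * a.2)

theorem aff_edgeF (a b x : ℝ × ℝ) : aff (edgeF a b) x = det (b - a) (x - a) := by
  unfold aff edgeF det; simp only [Prod.fst_sub, Prod.snd_sub]; ring

theorem interior_edge_pos {W : Finset (ℝ × ℝ)} {a b x : ℝ × ℝ} (h : IsEdge W a b)
    (hx : x ∈ interior (convexHull ℝ (W : Set (ℝ × ℝ)))) : 0 < det (b - a) (x - a) := by
  rcases (hull_nonneg h (interior_subset hx)).lt_or_eq with h1 | h1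
  · exact h1
  exfalso
  set d : ℝ × ℝ := (b.2 - a.2, -(b.1 - a.1)) with hd
  have hcont : Tendsto (fun t : ℝ => x + t • d) (𝓝 0) (𝓝 x) := by
    have : Continuous (fun t : ℝ => x + t • d) := by fun_prop
    have h2 := this.tendsto 0
    simpa using h2
  have h2 : ∀ᶠ t in 𝓝 (0 : ℝ), x + t • d ∈ convexHull ℝ (W : Set (ℝ × ℝ)) :=
    hcont.eventually (mem_interior_iff_mem_nhds.mp hx)
  have h3 : ∀ᶠ t in 𝓝[>] (0 : ℝ), x + t • d ∈ convexHull ℝ (W : Set (ℝ × ℝ)) :=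
    h2.filter_mono nhdsWithin_le_nhds
  obtain ⟨t, ht1, ht2⟩ := (h3.and self_mem_nhdsWithin).exists
  have ht0 : (0 : ℝ) < t := ht2
  have h4 := hull_nonneg h ht1
  have h5 : det (b - a) (x + t • d - a) = det (b - a) (x - a) -
      t * ((b.1 - a.1) ^ 2 + (b.2 - a.2) ^ 2) := by
    rw [hd]; unfold det
    simp only [Prod.fst_sub, Prod.snd_sub, Prod.fst_add, Prod.snd_add, Prod.smul_fst,
      Prod.smul_snd, smul_eq_mul]
    ring
  have h6 : 0 < (b.1 - a.1) ^ 2 + (b.2 - a.2) ^ 2 := by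
    by_contra hcon
    push Not at hcon
    have e1 : b.1 - a.1 = 0 := by nlinarith [sq_nonneg (b.1 - a.1), sq_nonneg (b.2 - a.2)]
    have e2 : b.2 - a.2 = 0 := by nlinarith [sq_nonneg (b.1 - a.1), sq_nonneg (b.2 - a.2)]
    apply h.2.2.1
    ext <;> linarith
  have h7 := mul_pos ht0 h6
  linarith

/-- From a polygon to functionals. -/
theorem functionals_of_realizable {V : Finset (ℝ × ℝ)} {m : ℕ} (hm : 2 ≤ m)
    (h : Realizable m (convexHull ℝ (V : Set (ℝ × ℝ)))) :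
    ∃ f : Fin (m + 1) → ℝ × ℝ × ℝ, (∀ j, ∀ v ∈ V, 0 < aff (f j) v) ∧
      ∀ z ∈ latticePts, z ∉ convexHull ℝ (V : Set (ℝ × ℝ)) → ∃ j, aff (f j) z < 0 := by
  classical
  obtain ⟨W, hcard, hW, hsub, hint⟩ := h
  have hnext : ∀ a : W, ∃ b, IsEdge W a b := fun a => exists_next hW (by omega) a.2
  choose nx hnx using hnext
  have hc : Fintype.card W = m + 1 := by rw [Fintype.card_coe, hcard]
  let e : W ≃ Fin (m + 1) := Fintype.equivFinOfCardEq hc
  refine ⟨fun j => edgeF (e.symm j) (nx (e.symm j)), ?_, ?_⟩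
  · intro j v hv
    rw [aff_edgeF]
    exact interior_edge_pos (hnx _) (hsub (subset_convexHull ℝ _ hv))
  · intro z hz hzP
    have h1 : z ∉ convexHull ℝ (W : Set (ℝ × ℝ)) := by
      intro hzW
      apply hzP
      rw [← hint]
      exact subset_convexHull ℝ _ ⟨hzW, hz⟩
    rw [mem_hull_iff hW (by omega)] at h1
    push Not at h1
    obtain ⟨a, b, hab, hneg⟩ := h1
    obtain ⟨a', ha'⟩ : ∃ a' : W, (a' : ℝ × ℝ) = a := ⟨⟨a, hab.1⟩, rfl⟩
    refine ⟨e a', ?_⟩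
    show aff (edgeF ((e.symm (e a') : W) : ℝ × ℝ) (nx (e.symm (e a')))) z < 0
    have h2 : nx a' = b := next_unique (hnx a') (by rw [ha']; exact hab)
    rw [e.symm_apply_apply, aff_edgeF, h2, ha']
    exact hneg

/-- Dirichlet argument: a far away point of the region gives a lattice point of the region. -/
theorem dir_lemma {ι : Type} [Fintype ι] [Nonempty ι] (α β γ : ι → ℝ) (v0 : ℤ × ℤ) {κ : ℝ}
    (hκ0 : 0 < κ) (hκ : ∀ j, κ ≤ α j * v0.1 + β j * v0.2 + γ j) {M : ℕ} (hM : 0 < M) :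
    ∃ C : ℝ, ∀ x1 x2 : ℝ, |x2| ≤ |x1| → C < |x1| → (∀ j, 0 ≤ α j * x1 + β j * x2 + γ j) →
      ∃ q p : ℤ, q ≠ 0 ∧ ∀ j, 0 < α j * (v0.1 + M * q) + β j * (v0.2 + M * p) + γ j := by
  -- bounds
  obtain ⟨A, hA⟩ : ∃ A : ℝ, ∀ j, |β j| ≤ A := by
    refine ⟨∑ j, |β j|, fun j => ?_⟩
    exact Finset.single_le_sum (f := fun j => |β j|) (fun _ _ => abs_nonneg _) (Finset.mem_univ j)
  obtain ⟨G, hG⟩ : ∃ G : ℝ, ∀ j, |γ j| ≤ G := by
    refine ⟨∑ j, |γ j|, fun j => ?_⟩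
    exact Finset.single_le_sum (f := fun j => |γ j|) (fun _ _ => abs_nonneg _) (Finset.mem_univ j)
  have hA0 : 0 ≤ A := (abs_nonneg _).trans (hA (Classical.arbitrary ι))
  have hG0 : 0 ≤ G := (abs_nonneg _).trans (hG (Classical.arbitrary ι))
  have hMr : (0 : ℝ) < M := by exact_mod_cast hM
  obtain ⟨n, hn⟩ := exists_nat_gt (2 * M * A / κ)
  rw [div_lt_iff₀ hκ0] at hn
  refine ⟨2 * M * (n + 1) * G / κ, ?_⟩
  intro x1 x2 hx hC hf
  have hCnn : 0 ≤ 2 * M * ((n : ℝ) + 1) * G / κ := by positivity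
  have hx1 : 0 < |x1| := lt_of_le_of_lt hCnn hC
  have hx10 : x1 ≠ 0 := abs_pos.mp hx1
  obtain ⟨p, q, hq0, hqn, hpq⟩ := Real.exists_int_int_abs_mul_sub_le (x2 / x1) (Nat.succ_pos n)
  -- sign of x1
  obtain ⟨s, hs1, hs2⟩ : ∃ s : ℤ, (s = 1 ∨ s = -1) ∧ (s : ℝ) * x1 = |x1| := by
    rcases abs_cases x1 with ⟨h, _⟩ | ⟨h, _⟩
    · exact ⟨1, Or.inl rfl, by rw [h]; simp⟩
    · exact ⟨-1, Or.inr rfl, by rw [h]; simp⟩
  have hsabs : |(s : ℝ)| = 1 := by rcases hs1 with h | h <;> simp [h]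
  have hss : (s : ℝ) * s = 1 := by rcases hs1 with h | h <;> simp [h]
  refine ⟨s * q, s * p, ?_, ?_⟩
  · have : s ≠ 0 := by rcases hs1 with h | h <;> simp [h]
    exact mul_ne_zero this hq0.ne'
  intro j
  have hqr : (0 : ℝ) < q := by exact_mod_cast hq0
  have hqn' : (q : ℝ) ≤ n + 1 := by exact_mod_cast hqn
  set τ : ℝ := q / |x1| with hτ
  have hτ0 : 0 < τ := by positivity
  -- s q = τ x1
  have e1 : (s : ℝ) * q = τ * x1 := by
    rw [hτ, ← hs2]
    have hs0 : (s : ℝ) ≠ 0 := by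
      intro h; rw [h] at hss; simp at hss
    field_simp
    linarith
  -- s p = τ x2 + δ
  set δ : ℝ := s * (p - q * (x2 / x1)) with hδ
  have hδabs : |δ| ≤ 1 / (n + 1 + 1) := by
    rw [hδ, abs_mul, hsabs, one_mul, abs_sub_comm]
    push_cast at hpq
    exact hpq
  have e2 : (s : ℝ) * p = τ * x2 + δ := by
    have : τ * x2 = s * (q * (x2 / x1)) := by
      rw [← mul_assoc, e1]; field_simp
    rw [this, hδ]; ring
  have h1 := hf j
  have h2 := hκ j
  have h3 : α j * (v0.1 + M * ((s * q : ℤ) : ℝ)) + β j * (v0.2 + M * ((s * p : ℤ) : ℝ)) + γ j =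
      (α j * v0.1 + β j * v0.2 + γ j) + M * τ * (α j * x1 + β j * x2 + γ j) - M * τ * γ j +
        M * (β j * δ) := by
    push_cast
    rw [e1, e2]; ring
  rw [h3]
  have h4 : 0 ≤ M * τ * (α j * x1 + β j * x2 + γ j) := by positivity
  have h5 : M * τ * γ j < κ / 2 := by
    have h6 : γ j ≤ G := (le_abs_self _).trans (hG j)
    have h7 : M * τ * γ j ≤ M * τ * G := by gcongr
    refine lt_of_le_of_lt h7 ?_
    have h8 : M * τ * G = M * q * G / |x1| := by rw [hτ]; ring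
    rw [h8, div_lt_iff₀ hx1]
    have h9 : 2 * M * ((n : ℝ) + 1) * G < κ * |x1| := by
      rw [div_lt_iff₀ hκ0] at hC; linarith
    have h10 : (M : ℝ) * q * G ≤ M * (n + 1) * G := by gcongr
    linarith
  have h6 : -(κ / 2) ≤ M * (β j * δ) := by
    have h7 : |M * (β j * δ)| ≤ M * (A * (1 / (n + 1 + 1))) := by
      rw [abs_mul, abs_mul, abs_of_pos hMr]
      gcongr
      exact hA j
    have h8 : (M : ℝ) * (A * (1 / (n + 1 + 1))) ≤ κ / 2 := by
      rw [← mul_assoc, mul_one_div, div_le_iff₀ (by positivity)]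
      nlinarith
    have h9 := neg_abs_le (M * (β j * δ))
    linarith
  linarith

end Pool.Agent.Lib.MP_2d08ba_nt
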