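import Pool.Agent.Lib.MP_2d08ba_nt.Bridge

set_option autoImplicit false

namespace Pool.Agent.Lib.MP_2d08ba_nt

open Filter Topology

/-- The region cut out by functionals is bounded. -/
theorem region_bounded {ι : Type} [Fintype ι] [Nonempty ι] {V : Finset (ℝ × ℝ)}
    (hne : V.Nonempty) (hVL : ∀ v ∈ V, v ∈ latticePts) (f : ι → ℝ × ℝ × ℝ)
    (hpos : ∀ j, ∀ v ∈ V, 0 < aff (f j) v)
    (hlat : ∀ z ∈ latticePts, z ∉ convexHull ℝ (V : Set (ℝ × ℝ)) → ∃ j, aff (f j) z < 0) :
    Bornology.IsBounded {x : ℝ × ℝ | ∀ j, 0 ≤ aff (f j) x} := by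
  classical
  obtain ⟨v, hv⟩ := hne
  obtain ⟨v0, hv0⟩ := hVL v hv
  -- kappa
  obtain ⟨κ, hκ0, hκ⟩ : ∃ κ : ℝ, 0 < κ ∧ ∀ j, κ ≤ aff (f j) v := by
    obtain ⟨j0, hj0⟩ := Finite.exists_min (fun j => aff (f j) v)
    exact ⟨aff (f j0) v, hpos j0 v hv, hj0⟩
  -- V bounded
  obtain ⟨B, hB⟩ : ∃ B : ℝ, ∀ y ∈ convexHull ℝ (V : Set (ℝ × ℝ)), ‖y‖ ≤ B := by
    have h1 : Bornology.IsBounded (convexHull ℝ (V : Set (ℝ × ℝ))) :=
      (V.finite_toSet.isCompact_convexHull ℝ).isBounded
    exact h1.exists_norm_le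
  have hB0 : 0 ≤ B := (norm_nonneg _).trans (hB v (subset_convexHull ℝ _ hv))
  obtain ⟨M, hM⟩ := exists_nat_gt (2 * B)
  have hMr : (0 : ℝ) < M := by linarith
  have hM0 : 0 < M := by exact_mod_cast hMr
  have hv0n := hB v (subset_convexHull ℝ _ hv)
  have hv01 : (v0.1 : ℝ) = v.1 := by rw [← hv0]
  have hv02 : (v0.2 : ℝ) = v.2 := by rw [← hv0]
  have hκ' : ∀ j, κ ≤ (f j).1 * v0.1 + (f j).2.1 * v0.2 + (f j).2.2 := by
    intro j; rw [hv01, hv02]; exact hκ j
  have hκ'' : ∀ j, κ ≤ (f j).2.1 * v0.2 + (f j).1 * v0.1 + (f j).2.2 := by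
    intro j; have := hκ' j; linarith
  obtain ⟨C1, hC1⟩ := dir_lemma (fun j => (f j).1) (fun j => (f j).2.1) (fun j => (f j).2.2) v0
    hκ0 hκ' hM0
  obtain ⟨C2, hC2⟩ := dir_lemma (fun j => (f j).2.1) (fun j => (f j).1) (fun j => (f j).2.2)
    (v0.2, v0.1) hκ0 hκ'' hM0
  -- far lattice points contradict
  have hfar : ∀ q p : ℤ, (q ≠ 0 ∨ p ≠ 0) →
      (∀ j, 0 < (f j).1 * (v0.1 + M * q) + (f j).2.1 * (v0.2 + M * p) + (f j).2.2) → False := by
    intro q p hqp hj
    set z : ℝ × ℝ := ((v0.1 : ℝ) + M * q, (v0.2 : ℝ) + M * p) with hz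
    have hzL : z ∈ latticePts := by
      refine ⟨(v0.1 + M * q, v0.2 + M * p), ?_⟩
      rw [hz]; push_cast; rfl
    have hzP : z ∈ convexHull ℝ (V : Set (ℝ × ℝ)) := by
      by_contra hcon
      obtain ⟨j, hj'⟩ := hlat z hzL hcon
      have := hj j
      unfold aff at hj'
      simp only [hz] at hj'
      linarith
    have hzn := hB z hzP
    rw [Prod.norm_def] at hzn hv0n
    have ha := (le_max_left _ _).trans hzn
    have hb := (le_max_right _ _).trans hzn
    have hc := (le_max_left _ _).trans hv0n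
    have hd := (le_max_right _ _).trans hv0n
    rw [Real.norm_eq_abs] at ha hb hc hd
    rw [← hv01] at hc
    rw [← hv02] at hd
    simp only [hz] at ha hb
    have key : ∀ (a : ℝ) (r : ℤ), r ≠ 0 → |a| ≤ B → |a + M * r| ≤ B → False := by
      intro a r hr h1 h2
      have h3 : (1 : ℝ) ≤ |(r : ℝ)| := by
        rw [← Int.cast_abs]
        have := Int.one_le_abs hr
        exact_mod_cast this
      have h4 : |(M : ℝ) * r| ≤ |a + M * r| + |a| := by
        have := abs_sub (a + M * r) a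
        have e : a + M * r - a = M * r := by ring
        rwa [e] at this
      rw [abs_mul, abs_of_pos hMr] at h4
      nlinarith
    rcases hqp with h | h
    · exact key _ q h hc ha
    · exact key _ p h hd hb
  rw [isBounded_iff_forall_norm_le]
  refine ⟨max (max C1 C2) 0, ?_⟩
  intro x hx
  have hx' : ∀ j, 0 ≤ aff (f j) x := hx
  by_contra hcon
  push Not at hcon
  rw [Prod.norm_def, Real.norm_eq_abs, Real.norm_eq_abs] at hcon
  rcases le_total |x.2| |x.1| with h | h
  · rw [max_eq_left h] at hcon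
    obtain ⟨q, p, hq, hj⟩ := hC1 x.1 x.2 h
      (lt_of_le_of_lt ((le_max_left _ _).trans (le_max_left _ _)) hcon) (fun j => hx' j)
    exact hfar q p (Or.inl hq) hj
  · rw [max_eq_right h] at hcon
    obtain ⟨q, p, hq, hj⟩ := hC2 x.2 x.1 h
      (lt_of_le_of_lt ((le_max_right _ _).trans (le_max_left _ _)) hcon)
      (fun j => by have := hx' j; unfold aff at this; linarith)
    refine hfar p q (Or.inr hq) (fun j => ?_)
    have := hj j
    linarith

/-- an extreme point lies on at least two of the lines -/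
theorem two_active {ι : Type} [Fintype ι] {f : ι → ℝ × ℝ × ℝ} {e : ℝ × ℝ}
    (he : e ∈ Set.extremePoints ℝ {x : ℝ × ℝ | ∀ j, 0 ≤ aff (f j) x}) :
    ∃ j1 j2, j1 ≠ j2 ∧ aff (f j1) e = 0 ∧ aff (f j2) e = 0 := by
  classical
  by_contra hcon
  push Not at hcon
  -- there is a direction d ≠ 0 annihilated by all active functionals
  obtain ⟨d, hd0, hd⟩ : ∃ d : ℝ × ℝ, d ≠ 0 ∧ ∀ j, aff (f j) e = 0 →
      (f j).1 * d.1 + (f j).2.1 * d.2 = 0 := by
    by_cases hex : ∃ j0, aff (f j0) e = 0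
    · obtain ⟨j0, hj0⟩ := hex
      have hall : ∀ j, aff (f j) e = 0 → j = j0 := by
        intro j hj
        by_contra hne
        exact hcon j j0 hne hj hj0
      by_cases hz : (f j0).1 = 0 ∧ (f j0).2.1 = 0
      · refine ⟨(1, 0), by simp, ?_⟩
        intro j hj
        rw [hall j hj, hz.1, hz.2]; simp
      · refine ⟨((f j0).2.1, -(f j0).1), ?_, ?_⟩
        · intro h
          rw [Prod.mk_eq_zero] at h
          exact hz ⟨by linarith [h.2], h.1⟩
        · intro j hj
          rw [hall j hj]; ring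
    · push Not at hex
      refine ⟨(1, 0), by simp, ?_⟩
      intro j hj
      exact absurd hj (hex j)
  have heK : ∀ j, 0 ≤ aff (f j) e := he.1
  have hval : ∀ j (t : ℝ), aff (f j) (e + t • d) =
      aff (f j) e + t * ((f j).1 * d.1 + (f j).2.1 * d.2) := by
    intro j t
    unfold aff
    simp only [Prod.fst_add, Prod.snd_add, Prod.smul_fst, Prod.smul_snd, smul_eq_mul]
    ring
  have hev : ∀ᶠ t in 𝓝 (0 : ℝ), ∀ j, 0 ≤ aff (f j) (e + t • d) := by
    rw [eventually_all]
    intro j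
    rcases (heK j).lt_or_eq with h | h
    · have hc : Continuous (fun t : ℝ => aff (f j) (e + t • d)) := by
        unfold aff; fun_prop
      have h1 : Tendsto (fun t : ℝ => aff (f j) (e + t • d)) (𝓝 0) (𝓝 (aff (f j) e)) := by
        have := hc.tendsto 0
        simpa using this
      exact (h1.eventually (lt_mem_nhds h)).mono (fun t ht => ht.le)
    · filter_upwards with t
      rw [hval, hd j h.symm, ← h]; simp
  have hev2 : ∀ᶠ t in 𝓝 (0 : ℝ), ∀ j, 0 ≤ aff (f j) (e + (-t) • d) := by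
    have : Tendsto (fun t : ℝ => -t) (𝓝 0) (𝓝 0) := by
      have := (continuous_neg (G := ℝ)).tendsto 0
      simpa using this
    exact this.eventually hev
  have hev3 : ∀ᶠ t in 𝓝[>] (0 : ℝ), (∀ j, 0 ≤ aff (f j) (e + t • d)) ∧
      ∀ j, 0 ≤ aff (f j) (e + (-t) • d) := (hev.and hev2).filter_mono nhdsWithin_le_nhds
  obtain ⟨t, ht1, ht2⟩ := (hev3.and self_mem_nhdsWithin).exists
  have ht0 : (0 : ℝ) < t := ht2
  have hopen : e ∈ openSegment ℝ (e + t • d) (e + (-t) • d) := by
    refine ⟨1 / 2, 1 / 2, by norm_num, by norm_num, by norm_num, ?_⟩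
    ext
    · simp only [Prod.fst_add, Prod.smul_fst, smul_eq_mul]; ring
    · simp only [Prod.snd_add, Prod.smul_snd, smul_eq_mul]; ring
  have h := he.2 ht1.1 ht1.2 hopen
  have h2 : t • d = 0 := by
    have : e + t • d = e := h
    simpa using this
  rcases smul_eq_zero.mp h2 with h3 | h3
  · exact ht0.ne' h3
  · exact hd0 h3

/-- an extreme point cannot lie between two other points of the set -/
theorem not_between {K : Set (ℝ × ℝ)} {x y z : ℝ × ℝ} (hx : x ∈ K) (hz : z ∈ K)
    (hy : y ∈ Set.extremePoints ℝ K) (h : Wbtw ℝ x y z) (hxy : x ≠ y) (hyz : z ≠ y) : False := by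
  have h1 : y ∈ openSegment ℝ x z :=
    mem_openSegment_of_ne_left_right hxy hyz (by rw [← mem_segment_iff_wbtw] at h; exact h)
  exact hxy (hy.2 hx hz h1)

theorem at_most_two {ι : Type} [Fintype ι] {f : ι → ℝ × ℝ × ℝ} {v : ℝ × ℝ} {j : ι}
    (hv : 0 < aff (f j) v) {S : Finset (ℝ × ℝ)}
    (hS : ∀ e ∈ S, e ∈ Set.extremePoints ℝ {x : ℝ × ℝ | ∀ j, 0 ≤ aff (f j) x})
    (hS2 : ∀ e ∈ S, aff (f j) e = 0) : S.card ≤ 2 := by
  classical
  by_contra hcon
  push Not at hcon
  obtain ⟨a, b, c, ha, hb, hc, hab, hac, hbc⟩ := Finset.two_lt_card_iff.mp hcon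
  have hne : ¬ ((f j).1 = 0 ∧ (f j).2.1 = 0) := by
    rintro ⟨h1, h2⟩
    have h3 := hS2 a ha
    unfold aff at h3 hv
    rw [h1, h2] at h3 hv
    linarith
  have hcol : Collinear ℝ {a, b, c} := by
    rw [collinear_iff_of_mem (p₀ := a) (by simp)]
    refine ⟨(-(f j).2.1, (f j).1), ?_⟩
    intro p hp
    have hpz : aff (f j) p = 0 := by
      simp only [Set.mem_insert_iff, Set.mem_singleton_iff] at hp
      rcases hp with rfl | rfl | rfl
      · exact hS2 _ ha
      · exact hS2 _ hb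
      · exact hS2 _ hc
    have haz := hS2 a ha
    have hdiff : (f j).1 * (p.1 - a.1) + (f j).2.1 * (p.2 - a.2) = 0 := by
      unfold aff at hpz haz; linarith
    have hpos : 0 < (f j).1 ^ 2 + (f j).2.1 ^ 2 := by
      by_contra hcon2
      push Not at hcon2
      apply hne
      constructor
      · nlinarith [sq_nonneg (f j).1, sq_nonneg (f j).2.1]
      · nlinarith [sq_nonneg (f j).1, sq_nonneg (f j).2.1]
    refine ⟨(-(f j).2.1 * (p.1 - a.1) + (f j).1 * (p.2 - a.2)) / ((f j).1 ^ 2 + (f j).2.1 ^ 2), ?_⟩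
    rw [vadd_eq_add]
    ext
    · simp only [Prod.fst_add, Prod.smul_fst, smul_eq_mul]
      rw [div_mul_eq_mul_div, ← sub_eq_iff_eq_add, eq_div_iff hpos.ne']
      linear_combination (f j).1 * hdiff
    · simp only [Prod.snd_add, Prod.smul_snd, smul_eq_mul]
      rw [div_mul_eq_mul_div, ← sub_eq_iff_eq_add, eq_div_iff hpos.ne']
      linear_combination (f j).2.1 * hdiff
  rcases hcol.wbtw_or_wbtw_or_wbtw with h | h | h
  · exact not_between (hS a ha).1 (hS c hc).1 (hS b hb) h hab hbc.symm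
  · exact not_between (hS b hb).1 (hS a ha).1 (hS c hc) h hbc hac
  · exact not_between (hS c hc).1 (hS b hb).1 (hS a ha) h hac.symm hab.symm

/-- at most as many extreme points as functionals -/
theorem card_extreme_le {ι : Type} [Fintype ι] {f : ι → ℝ × ℝ × ℝ} {v : ℝ × ℝ}
    (hv : ∀ j, 0 < aff (f j) v) {S : Finset (ℝ × ℝ)}
    (hS : ∀ e ∈ S, e ∈ Set.extremePoints ℝ {x : ℝ × ℝ | ∀ j, 0 ≤ aff (f j) x}) :
    S.card ≤ Fintype.card ι := by
  classical
  have h1 : ∑ e ∈ S, ((Finset.univ : Finset ι).filter (fun j => aff (f j) e = 0)).card =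
      ∑ j : ι, (S.filter (fun e => aff (f j) e = 0)).card :=
    Finset.sum_card_bipartiteAbove_eq_sum_card_bipartiteBelow (fun e j => aff (f j) e = 0)
  have h2 : ∑ e ∈ S, 2 ≤
      ∑ e ∈ S, ((Finset.univ : Finset ι).filter (fun j => aff (f j) e = 0)).card := by
    apply Finset.sum_le_sum
    intro e he
    obtain ⟨j1, j2, hne, hj1, hj2⟩ := two_active (hS e he)
    have : ({j1, j2} : Finset ι) ⊆ (Finset.univ : Finset ι).filter (fun j => aff (f j) e = 0) := by
      intro j hj
      simp only [Finset.mem_insert, Finset.mem_singleton] at hj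
      rw [Finset.mem_filter]
      rcases hj with rfl | rfl
      · exact ⟨Finset.mem_univ _, hj1⟩
      · exact ⟨Finset.mem_univ _, hj2⟩
    calc 2 = ({j1, j2} : Finset ι).card := (Finset.card_pair hne).symm
      _ ≤ _ := Finset.card_le_card this
  have h3 : ∑ j : ι, (S.filter (fun e => aff (f j) e = 0)).card ≤ ∑ j : ι, 2 := by
    apply Finset.sum_le_sum
    intro j _
    apply at_most_two (hv j) (S := S.filter (fun e => aff (f j) e = 0))
    · intro e he
      exact hS e (Finset.mem_filter.mp he).1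
    · intro e he
      exact (Finset.mem_filter.mp he).2
  rw [Finset.sum_const, smul_eq_mul] at h2
  rw [Finset.sum_const, smul_eq_mul, Finset.card_univ] at h3
  omega

/-- The region is the hull of at most `card ι` points in convex position. -/
theorem region_hull {ι : Type} [Fintype ι] {f : ι → ℝ × ℝ × ℝ} {v : ℝ × ℝ}
    (hv : ∀ j, 0 < aff (f j) v)
    (hb : Bornology.IsBounded {x : ℝ × ℝ | ∀ j, 0 ≤ aff (f j) x}) :
    ∃ W : Finset (ℝ × ℝ), ConvexPos W ∧ W.card ≤ Fintype.card ι ∧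
      convexHull ℝ (W : Set (ℝ × ℝ)) = {x : ℝ × ℝ | ∀ j, 0 ≤ aff (f j) x} := by
  classical
  set K := {x : ℝ × ℝ | ∀ j, 0 ≤ aff (f j) x} with hK
  have hKclosed : IsClosed K := by
    have : K = ⋂ j, {x | 0 ≤ aff (f j) x} := by ext x; simp [hK]
    rw [this]
    apply isClosed_iInter
    intro j
    exact isClosed_le continuous_const (aff_continuous _)
  have hKcomp : IsCompact K := Metric.isCompact_of_isClosed_isBounded hKclosed hb
  have hKconv : Convex ℝ K := by
    have : K = ⋂ j, {x | 0 ≤ aff (f j) x} := by ext x; simp [hK]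
    rw [this]
    exact convex_iInter (fun j => aff_nonneg_convex (f j))
  have hfin : (Set.extremePoints ℝ K).Finite := by
    by_contra hinf
    obtain ⟨S, hS1, hS2⟩ := Set.Infinite.exists_subset_card_eq hinf (Fintype.card ι + 1)
    have := card_extreme_le hv (S := S) (fun e he => hS1 he)
    omega
  refine ⟨hfin.toFinset, ?_, ?_, ?_⟩
  · intro e he hcon
    rw [Set.Finite.mem_toFinset] at he
    rw [Set.Finite.coe_toFinset] at hcon
    have h1 := (Convex.mem_extremePoints_iff_mem_sdiff_convexHull_sdiff hKconv).mp he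
    apply h1.2
    apply convexHull_mono _ hcon
    intro y hy
    exact ⟨hy.1.1, hy.2⟩
  · exact card_extreme_le hv (fun e he => by rwa [Set.Finite.mem_toFinset] at he)
  · rw [Set.Finite.coe_toFinset]
    have h1 := closure_convexHull_extremePoints hKcomp hKconv
    rw [(hfin.isClosed_convexHull ℝ).closure_eq] at h1
    exact h1

end Pool.Agent.Lib.MP_2d08ba_nt
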