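import Pool.Agent.Lib.MP_2d08ba_nt.Bridge2

set_option autoImplicit false

namespace Pool.Agent.Lib.MP_2d08ba_nt

open Filter Topology

/-- Adding one vertex to a polygon inside a neighbourhood. -/
theorem add_vertex {W : Finset (ℝ × ℝ)} (hW : ConvexPos W)
    (hint : (interior (convexHull ℝ (W : Set (ℝ × ℝ)))).Nonempty) {U : Set (ℝ × ℝ)}
    (hU : IsOpen U) (hWU : convexHull ℝ (W : Set (ℝ × ℝ)) ⊆ U) :
    ∃ W' : Finset (ℝ × ℝ), W'.card = W.card + 1 ∧ ConvexPos W' ∧ (W : Set (ℝ × ℝ)) ⊆ W' ∧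
      convexHull ℝ (W' : Set (ℝ × ℝ)) ⊆ U := by
  classical
  have hcard : 2 ≤ W.card := by
    by_contra hcon
    push Not at hcon
    interval_cases h : W.card
    · rw [Finset.card_eq_zero] at h
      rw [h] at hint
      simp at hint
    · rw [Finset.card_eq_one] at h
      obtain ⟨a, ha⟩ := h
      rw [ha] at hint
      simp at hint
  have hne : W.Nonempty := by rw [← Finset.card_pos]; omega
  obtain ⟨a, ha⟩ := hne
  obtain ⟨b, hab⟩ := exists_next hW hcard ha
  set c : ℝ × ℝ := (1 / 2 : ℝ) • a + (1 / 2 : ℝ) • b with hc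
  set d : ℝ × ℝ := (b.2 - a.2, -(b.1 - a.1)) with hd
  have hdet : ∀ t : ℝ, det (b - a) (c + t • d - a) = -(t * ((b.1 - a.1) ^ 2 + (b.2 - a.2) ^ 2)) := by
    intro t
    rw [hc, hd]; unfold det
    simp only [Prod.fst_sub, Prod.snd_sub, Prod.fst_add, Prod.snd_add, Prod.smul_fst,
      Prod.smul_snd, smul_eq_mul]
    ring
  have hpos : 0 < (b.1 - a.1) ^ 2 + (b.2 - a.2) ^ 2 := by
    by_contra hcon
    push Not at hcon
    have e1 : b.1 - a.1 = 0 := by nlinarith [sq_nonneg (b.1 - a.1), sq_nonneg (b.2 - a.2)]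
    have e2 : b.2 - a.2 = 0 := by nlinarith [sq_nonneg (b.1 - a.1), sq_nonneg (b.2 - a.2)]
    apply hab.2.2.1
    ext <;> linarith
  have hcK : c ∈ convexHull ℝ (W : Set (ℝ × ℝ)) :=
    (convex_convexHull ℝ _) (subset_convexHull ℝ _ hab.1) (subset_convexHull ℝ _ hab.2.1)
      (by norm_num) (by norm_num) (by norm_num)
  have hlim : Tendsto (fun t : ℝ => c + t • d) (𝓝 0) (𝓝 c) := by
    have h1 : Continuous (fun t : ℝ => c + t • d) := by fun_prop
    have h2 := h1.tendsto 0
    simpa using h2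
  -- thickening
  obtain ⟨δ, hδ0, hδ⟩ := (W.finite_toSet.isCompact_convexHull ℝ).exists_thickening_subset_open
    hU hWU
  have hev1 : ∀ᶠ t in 𝓝 (0 : ℝ), c + t • d ∈ Metric.thickening δ (convexHull ℝ (W : Set (ℝ × ℝ))) :=
    hlim.eventually (Metric.isOpen_thickening.mem_nhds (Metric.self_subset_thickening hδ0 _ hcK))
  -- separating functionals
  have hev2 : ∀ᶠ t in 𝓝 (0 : ℝ), ∀ e ∈ W, ∃ f : (ℝ × ℝ) →L[ℝ] ℝ,
      (∀ v ∈ W, v ≠ e → f v < f e) ∧ f (c + t • d) < f e := by
    rw [eventually_all_finset]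
    intro e he
    obtain ⟨f, hf⟩ := sep_vertex hW he
    have hfc : f c < f e := by
      rw [hc, map_add, map_smul, map_smul, smul_eq_mul, smul_eq_mul]
      by_cases hea : a = e
      · have hbe : b ≠ e := fun h => hab.2.2.1 (hea.trans h.symm)
        have := hf b hab.2.1 hbe
        rw [hea]; linarith
      · have h1 := hf a hab.1 hea
        by_cases hbe : b = e
        · rw [hbe]; linarith
        · have h2 := hf b hab.2.1 hbe
          linarith
    have h1 : Tendsto (fun t : ℝ => f (c + t • d)) (𝓝 0) (𝓝 (f c)) :=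
      (f.continuous.tendsto c).comp hlim
    exact (h1.eventually (gt_mem_nhds hfc)).mono (fun t ht => ⟨f, hf, ht⟩)
  have hev3 := (hev1.and hev2).filter_mono (nhdsWithin_le_nhds (s := Set.Ioi (0 : ℝ)))
  obtain ⟨t, ⟨ht1, ht2⟩, ht3⟩ := (hev3.and self_mem_nhdsWithin).exists
  have ht0 : (0 : ℝ) < t := ht3
  set p := c + t • d with hp
  have hpK : p ∉ convexHull ℝ (W : Set (ℝ × ℝ)) := by
    intro hcon
    have h1 := hull_nonneg hab hcon
    rw [hdet] at h1
    have := mul_pos ht0 hpos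
    linarith
  have hpW : p ∉ W := fun h => hpK (subset_convexHull ℝ _ h)
  refine ⟨insert p W, Finset.card_insert_of_notMem hpW, ?_, ?_, ?_⟩
  · intro e he hcon
    rw [Finset.mem_insert] at he
    rcases he with rfl | he
    · apply hpK
      apply convexHull_mono _ hcon
      intro y hy
      simp only [Finset.coe_insert, Set.mem_sdiff, Set.mem_insert_iff, Set.mem_singleton_iff] at hy
      rcases hy.1 with h | h
      · exact absurd h hy.2
      · exact h
    · obtain ⟨f, hf1, hf2⟩ := ht2 e he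
      have hconv : Convex ℝ {x : ℝ × ℝ | f x < f e} := by
        intro y hy z hz s r hs hr hsr
        simp only [Set.mem_ofPred_eq] at hy hz ⊢
        rw [map_add, map_smul, map_smul, smul_eq_mul, smul_eq_mul]
        have e1 : s * f e + r * f e = f e := by rw [← add_mul, hsr, one_mul]
        rcases hs.lt_or_eq with h1 | h1
        · have h2 := mul_lt_mul_of_pos_left hy h1
          have h3 := mul_le_mul_of_nonneg_left hz.le hr
          linarith
        · have h2 : r = 1 := by linarith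
          rw [← h1, h2]; linarith
      have hsub : ((insert p W : Finset (ℝ × ℝ)) : Set (ℝ × ℝ)) \ {e} ⊆ {x : ℝ × ℝ | f x < f e} := by
        intro y hy
        simp only [Finset.coe_insert, Set.mem_sdiff, Set.mem_insert_iff, Set.mem_singleton_iff,
          Finset.mem_coe] at hy
        rcases hy.1 with h | h
        · rw [h]; exact hf2
        · exact hf1 y h hy.2
      have := convexHull_min hsub hconv hcon
      exact lt_irrefl _ (show f e < f e from this)
  · intro y hy
    simp only [Finset.coe_insert, Set.mem_insert_iff]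
    exact Or.inr hy
  · refine Set.Subset.trans ?_ hδ
    apply convexHull_min
    · intro y hy
      simp only [Finset.coe_insert, Set.mem_insert_iff] at hy
      rcases hy with h | h
      · rw [h]; exact ht1
      · exact Metric.self_subset_thickening hδ0 _ (subset_convexHull ℝ _ h)
    · exact (convex_convexHull ℝ _).thickening δ

/-- Adding several vertices. -/
theorem add_vertices {U : Set (ℝ × ℝ)} (hU : IsOpen U) (k : ℕ) :
    ∀ W : Finset (ℝ × ℝ), ConvexPos W →
    (interior (convexHull ℝ (W : Set (ℝ × ℝ)))).Nonempty → convexHull ℝ (W : Set (ℝ × ℝ)) ⊆ U →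
    ∃ W' : Finset (ℝ × ℝ), W'.card = W.card + k ∧ ConvexPos W' ∧ (W : Set (ℝ × ℝ)) ⊆ W' ∧
      convexHull ℝ (W' : Set (ℝ × ℝ)) ⊆ U := by
  induction k with
  | zero => intro W h1 _ h3; exact ⟨W, rfl, h1, subset_rfl, h3⟩
  | succ k ih =>
    intro W h1 h2 h3
    obtain ⟨W1, hc1, hp1, hs1, hu1⟩ := add_vertex h1 h2 hU h3
    obtain ⟨W2, hc2, hp2, hs2, hu2⟩ := ih W1 hp1
      (h2.mono (interior_mono (convexHull_mono hs1))) hu1
    exact ⟨W2, by omega, hp2, hs1.trans hs2, hu2⟩

theorem lattice_subset_closed (S : Set (ℝ × ℝ)) : IsClosed (latticePts \ S) := by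
  have hemb : Topology.IsClosedEmbedding (fun z : ℤ × ℤ => ((z.1 : ℝ), (z.2 : ℝ))) :=
    Int.isClosedEmbedding_coe_real.prodMap Int.isClosedEmbedding_coe_real
  have h1 : latticePts \ S = (fun z : ℤ × ℤ => ((z.1 : ℝ), (z.2 : ℝ))) ''
      {z | ((z.1 : ℝ), (z.2 : ℝ)) ∉ S} := by
    ext x
    constructor
    · rintro ⟨⟨z, rfl⟩, hx⟩
      exact ⟨z, hx, rfl⟩
    · rintro ⟨z, hz, rfl⟩
      exact ⟨⟨z, rfl⟩, hz⟩
  rw [h1]
  exact hemb.isClosedMap _ (isClosed_discrete _)

/-- From functionals to a polygon. -/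
theorem realizable_of_functionals {ι : Type} [Fintype ι] {V : Finset (ℝ × ℝ)} {m : ℕ}
    (hcard : Fintype.card ι = m + 1)
    (hVne : V.Nonempty) (hVL : ∀ v ∈ V, v ∈ latticePts) (f : ι → ℝ × ℝ × ℝ)
    (hpos : ∀ j, ∀ v ∈ V, 0 < aff (f j) v)
    (hlat : ∀ z ∈ latticePts, z ∉ convexHull ℝ (V : Set (ℝ × ℝ)) → ∃ j, aff (f j) z < 0) :
    Realizable m (convexHull ℝ (V : Set (ℝ × ℝ))) := by
  classical
  have : Nonempty ι := by rw [← Fintype.card_pos_iff]; omega
  obtain ⟨v, hv⟩ := hVne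
  have hb := region_bounded ⟨v, hv⟩ hVL f hpos hlat
  obtain ⟨W, hW1, hW2, hW3⟩ := region_hull (v := v) (fun j => hpos j v hv) hb
  -- P is in the open region
  have hopen : IsOpen {x : ℝ × ℝ | ∀ j, 0 < aff (f j) x} := by
    have : {x : ℝ × ℝ | ∀ j, 0 < aff (f j) x} = ⋂ j, {x | 0 < aff (f j) x} := by ext x; simp
    rw [this]
    exact isOpen_iInter_of_finite (fun j => isOpen_lt continuous_const (aff_continuous _))
  have hPsub : convexHull ℝ (V : Set (ℝ × ℝ)) ⊆ {x : ℝ × ℝ | ∀ j, 0 < aff (f j) x} := by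
    intro x hx j
    exact aff_pos_hull (c := f j) (hpos j) x hx
  have hPint : convexHull ℝ (V : Set (ℝ × ℝ)) ⊆ interior (convexHull ℝ (W : Set (ℝ × ℝ))) := by
    refine hPsub.trans ?_
    rw [hW3]
    apply interior_maximal _ hopen
    intro x hx j
    exact (hx j).le
  have hWne : (interior (convexHull ℝ (W : Set (ℝ × ℝ)))).Nonempty :=
    ⟨v, hPint (subset_convexHull ℝ _ hv)⟩
  have hUopen : IsOpen (latticePts \ convexHull ℝ (V : Set (ℝ × ℝ)))ᶜ :=
    (lattice_subset_closed _).isOpen_compl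
  have hWU : convexHull ℝ (W : Set (ℝ × ℝ)) ⊆ (latticePts \ convexHull ℝ (V : Set (ℝ × ℝ)))ᶜ := by
    intro x hx hcon
    obtain ⟨j, hj⟩ := hlat x hcon.1 hcon.2
    rw [hW3] at hx
    have := hx j
    linarith
  obtain ⟨W', hc', hp', hs', hu'⟩ := add_vertices hUopen (m + 1 - W.card) W hW1 hWne hWU
  refine ⟨W', by omega, hp', hPint.trans (interior_mono (convexHull_mono hs')), ?_⟩
  apply Set.Subset.antisymm
  · apply convexHull_min _ (convex_convexHull ℝ _)
    rintro x ⟨hx1, hx2⟩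
    by_contra hcon
    exact hu' hx1 ⟨hx2, hcon⟩
  · apply convexHull_mono
    intro x hx
    exact ⟨interior_subset ((hPint.trans (interior_mono (convexHull_mono hs')))
      (subset_convexHull ℝ _ hx)), hVL x hx⟩

end Pool.Agent.Lib.MP_2d08ba_nt
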