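import Pool.Agent.Lib.MP_2d08ba_nt.Windows

set_option autoImplicit false

namespace Pool.Agent.Lib.MP_2d08ba_nt

open Real

variable {V : Finset (ℤ × ℤ)} [Fintype (shell V)] [Nonempty (shell V)] {l r : shell V → ℝ}

/-- no closing within three turns -/
structure NoClose (l r : shell V → ℝ) (N : ℕ) : Prop where
  N1 : 1 ≤ N
  K : ∀ θ, (Fm l r two_pi_pos)^[N] θ < θ + 2 * π
  H : ∀ w : ℕ, 1 ≤ w → w ≤ 3 → ∀ y, y + w * (2 * π) < (Fm l r two_pi_pos)^[w * N + 1] y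

omit [Fintype (shell V)] [Nonempty (shell V)] in
theorem isG_unique {θ φ φ' : ℝ} (h : IsG l r (2 * π) θ φ) (h' : IsG l r (2 * π) θ φ') :
    φ = φ' := by
  obtain ⟨⟨x, L, h1, h2⟩, h3⟩ := h
  obtain ⟨⟨x', L', h1', h2'⟩, h3'⟩ := h'
  exact le_antisymm (h3 _ _ _ h1' h2') (h3' _ _ _ h1 h2)

theorem chain_two (hcard : 3 ≤ V.card) (harc : ArcSys V l r) {N : ℕ} (hN : NoClose l r N)
    {a b c d p p' : ℤ × ℤ} {ν ν' ν'' : ℝ} (h : Cons V a b c ν ν') (h' : Cons V b c d ν' ν'')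
    (hp : Prim a b p) (hp' : Prim b c p') {x : shell V} {L R : ℝ}
    (hx : Lift l r (2 * π) x L R) (h1 : L < ν) (h2 : R = ν') :
    ∃ y : shell V, y.1 = x.1 + p ∧ detZ p p' = 1 ∧ detZ p (y.1 - b) = -1 ∧
      detZ p' (y.1 - b) = -1 ∧ 0 < detZ (d - c) (y.1 - c) ∧
      ∃ (y1 : shell V) (α : ℝ), IsG l r (2 * π) ν α ∧
        (∃ L1, Lift l r (2 * π) y1 L1 α ∧ ν < L1 ∧ L1 < ν') ∧
        ∃ k : ℤ, 2 ≤ k ∧ y1.1 = y.1 + k • p' := by
  have hlr : ∀ x, l x < r x := fun x => (harc x).lt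
  have hxa := lift_arc harc hx
  have hνν' := h.lt
  obtain ⟨e, hinj, he⟩ := window (W := 3) two_pi_pos hlr hN.N1 (by norm_num) hN.K hN.H R
  let P : Fin 3 → ℝ → Prop := fun j e => match j with
    | 0 => e = Fm l r two_pi_pos ν
    | 1 => IsG l r (2 * π) ν e
    | 2 => ν < e ∧ ∃ y : shell V, y.1 = x.1 + p ∧
      (∃ L', Lift l r (2 * π) y L' e ∧ L' < ν) ∧ detZ p p' = 1
  have hP : ∀ i, ∃ j, P j (e i) := by
    intro i
    obtain ⟨g1, g2, _, s, g3⟩ := he i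
    rcases window_two hcard harc h hp hp' hx h1 h2 rfl g3 g1 g2 with g | g | g
    · exact ⟨0, g⟩
    · exact ⟨1, g⟩
    · exact ⟨2, by linarith, g⟩
  have hU : ∀ j a b, P j a → P j b → a = b := by
    intro j u v hu hv
    fin_cases j
    · exact hu.trans hv.symm
    · exact isG_unique hu hv
    · obtain ⟨hu0, y, hy, ⟨L1, hL1, hL1'⟩, _⟩ := hu
      obtain ⟨hv0, y', hy', ⟨L2, hL2, hL2'⟩, _⟩ := hv
      have hyy : y = y' := Subtype.ext (hy.trans hy'.symm)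
      subst hyy
      exact arc_unique hcard (lift_arc harc hL1) (lift_arc harc hL2) hL1' hu0 hL2' hv0
  obtain ⟨i1, hG⟩ := three_values hinj hP hU 1
  obtain ⟨i2, hν2, y, hy, ⟨Ly, hyl, hLy⟩, hD⟩ := three_values hinj hP hU 2
  change IsG l r (2 * π) ν (e i1) at hG
  obtain ⟨g1, g2, _⟩ := he i1
  obtain ⟨y1, L1, hy1, hL1⟩ := hG.1
  have hL1' : L1 < ν' := by
    by_contra hcon
    push Not at hcon
    have := Fm_le two_pi_pos hy1 hcon
    rw [h2] at g2
    linarith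
  have hxe : detZ (b - a) (x.1 - b) < 0 := h.e.beyond hxa h1 (by linarith)
  have hpx := hp.shell_eq h.e.edge x.2 hxe
  have hxe' : detZ p' (x.1 - b) = 0 := by
    have := h.e'.right_on hcard hxa h2
    rw [detZ_base] at this
    exact (hp'.zero_iff _).mp this
  have hpy : detZ p (y.1 - b) = -1 := by
    have e : y.1 - b = (x.1 - b) + p := by rw [hy]; abel
    rw [e, detZ_add_right, hpx, detZ_self]; ring
  have hpy' : detZ p' (y.1 - b) = -1 := by
    have e : y.1 - b = (x.1 - b) + p := by rw [hy]; abel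
    rw [e, detZ_add_right, hxe', detZ_anti, hD]; ring
  -- the point y1
  have hy1a := lift_arc harc hy1
  obtain ⟨s1, s2, s3⟩ := h.left_signs hcard hy1a hL1 hL1'
  have hpy1 : 1 ≤ detZ p (y1.1 - b) := by
    have := (hp.pos_iff _).mp s1
    omega
  have hpy1' : detZ p' (y1.1 - c) = -1 :=
    hp'.shell_eq h.e'.edge y1.2 (by rw [detZ_base]; exact s2)
  have hpy1'' : detZ p' (y1.1 - y.1) = 0 := by
    have e : y1.1 - y.1 = (y1.1 - b) - (y.1 - b) := by abel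
    rw [e, detZ_sub_right, hpy', hp'.base, hpy1']; ring
  obtain ⟨k, hk⟩ := hp'.multiple hpy1''
  have hk2 : 2 ≤ k := by
    have h3 : detZ p (y1.1 - b) = detZ p (y.1 - b) + k * detZ p p' := by
      have e : y1.1 - b = (y.1 - b) + k • p' := by rw [← hk]; abel
      rw [e, detZ_add_right, detZ_smul_right]
    rw [hpy, hD] at h3
    omega
  refine ⟨y, hy, hD, hpy, hpy', ?_, y1, e i1, hG, ⟨L1, hy1, hL1, hL1'⟩, k, hk2,
    by rw [← hk]; abel⟩
  obtain ⟨p'', hp''⟩ := exists_prim h'.e'.edge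
  rw [hp''.pos_iff]
  have h3 := hp''.shell_ge h'.e'.edge y1.2
  rw [← hp''.base] at h3
  have h4 : detZ p'' (y1.1 - c) = detZ p'' (y.1 - c) - k * detZ p' p'' := by
    have e : y1.1 - c = (y.1 - c) + k • p' := by rw [← hk]; abel
    rw [e, detZ_add_right, detZ_smul_right, detZ_anti p'' p']; ring
  have hD' : 1 ≤ detZ p' p'' := by
    have h3 := next_pos hcard h'.e.edge h'.e'.edge
    rw [hp'.pos_iff, hp''.eq, detZ_smul_right] at h3
    have := (mul_pos_iff_of_pos_left hp''.pos).mp h3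
    omega
  have : 2 * 1 ≤ k * detZ p' p'' := mul_le_mul hk2 hD' (by norm_num) (by omega)
  omega

theorem chain_one (hcard : 3 ≤ V.card) (harc : ArcSys V l r) {N : ℕ} (hN : NoClose l r N)
    {z a b c p0 p : ℤ × ℤ} {ν0 ν ν' : ℝ} (h0 : Cons V z a b ν0 ν) (h : Cons V a b c ν ν')
    (hp0 : Prim z a p0) (hp : Prim a b p) {x : shell V} {L R : ℝ}
    (hx : Lift l r (2 * π) x L R) (h1 : ν < R) (h2 : R < ν') :
    (∃ y2 : shell V, y2.1 = x.1 + (2 : ℤ) • p) ∧ detZ p0 p = 1 ∧ detZ p0 (x.1 - a) = -1 ∧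
      ∃ y1 : shell V, y1.1 = x.1 + p ∧ ∃ L1 R1, Lift l r (2 * π) y1 L1 R1 ∧ L1 < ν ∧ ν < R1 ∧
        ∃ (i : ℕ) (k : ℤ), R1 + k * (2 * π) = (Fm l r two_pi_pos)^[i] R := by
  have hlr : ∀ x, l x < r x := fun x => (harc x).lt
  have hxa := lift_arc harc hx
  obtain ⟨e, hinj, he⟩ := window (W := 3) two_pi_pos hlr hN.N1 (by norm_num) hN.K hN.H R
  let P : Fin 3 → ℝ → Prop := fun j e => match j with
    | 0 => e = Fm l r two_pi_pos ν
    | 1 => ν < e ∧ ∃ y : shell V, y.1 = x.1 + p ∧ (∃ L', Lift l r (2 * π) y L' e ∧ L' < ν) ∧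
      detZ p0 (x.1 - a) ≤ 0
    | 2 => ν < e ∧ ∃ y : shell V, y.1 = x.1 + (2 : ℤ) • p ∧
      (∃ L', Lift l r (2 * π) y L' e ∧ L' < ν) ∧ detZ p0 p = 1 ∧ detZ p0 (x.1 - a) = -1
  have hP : ∀ i, ∃ j, P j (e i) := by
    intro i
    obtain ⟨g1, g2, _, s, g3⟩ := he i
    rcases window_one hcard harc h0 h hp0 hp hx h1 h2 rfl g3 g1 g2 with g | g | g
    · exact ⟨0, g⟩
    · exact ⟨1, by linarith, g⟩
    · exact ⟨2, by linarith, g⟩
  have hU : ∀ j a b, P j a → P j b → a = b := by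
    intro j u v hu hv
    fin_cases j
    · exact hu.trans hv.symm
    · obtain ⟨hu0, y, hy, ⟨L1, hL1, hL1'⟩, _⟩ := hu
      obtain ⟨hv0, y', hy', ⟨L2, hL2, hL2'⟩, _⟩ := hv
      have hyy : y = y' := Subtype.ext (hy.trans hy'.symm)
      subst hyy
      exact arc_unique hcard (lift_arc harc hL1) (lift_arc harc hL2) hL1' hu0 hL2' hv0
    · obtain ⟨hu0, y, hy, ⟨L1, hL1, hL1'⟩, _⟩ := hu
      obtain ⟨hv0, y', hy', ⟨L2, hL2, hL2'⟩, _⟩ := hv
      have hyy : y = y' := Subtype.ext (hy.trans hy'.symm)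
      subst hyy
      exact arc_unique hcard (lift_arc harc hL1) (lift_arc harc hL2) hL1' hu0 hL2' hv0
  obtain ⟨i1, hν1, y1, hy1, ⟨L1, hL1, hL1'⟩, _⟩ := three_values hinj hP hU 1
  obtain ⟨i2, hν2, y2, hy2, _, hD, hE⟩ := three_values hinj hP hU 2
  obtain ⟨_, _, ⟨i, _, hi⟩, _⟩ := he i1
  exact ⟨⟨y2, hy2⟩, hD, hE, y1, hy1, L1, e i1, hL1, hL1', hν1, i, ((i1 : ℕ) : ℤ) + 1, by
    rw [← hi]; push_cast; ring⟩

/-- the combined step -/
theorem chain_step (hcard : 3 ≤ V.card) (harc : ArcSys V l r) {N : ℕ}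
    (hN : NoClose l r N) {z a b c d p0 p p' : ℤ × ℤ} {ν0 ν ν' ν'' : ℝ} (h0 : Cons V z a b ν0 ν)
    (h : Cons V a b c ν ν') (h' : Cons V b c d ν' ν'') (hp0 : Prim z a p0)
    (hp : Prim a b p) (hp' : Prim b c p') {x : shell V} {L R : ℝ}
    (hx : Lift l r (2 * π) x L R) (h1 : ν < R) (h2 : R < ν') :
    (∃ (i : ℕ) (k : ℤ), ν' + k * (2 * π) = (Fm l r two_pi_pos)^[i] R) ∧
    ∃ y : shell V, y.1 = x.1 + (2 : ℤ) • p ∧ detZ p p' = 1 ∧ detZ p (y.1 - b) = -1 ∧
      detZ p' (y.1 - b) = -1 ∧ 0 < detZ (d - c) (y.1 - c) ∧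
      ∃ (y1 : shell V) (α : ℝ), IsG l r (2 * π) ν α ∧
        (∃ L1, Lift l r (2 * π) y1 L1 α ∧ ν < L1 ∧ L1 < ν') ∧
        ∃ k : ℤ, 2 ≤ k ∧ y1.1 = y.1 + k • p' := by
  have hxa := lift_arc harc hx
  have hνν' := h.lt
  obtain ⟨⟨y2, hy2⟩, hD, hE, y1, hy1, L1, R1, hl1, hL1, hR1, i, k, hik⟩ :=
    chain_one hcard harc hN h0 h hp0 hp hx h1 h2
  have hy1a := lift_arc harc hl1
  -- y1 is on the line of the first edge
  have hy10 : detZ p0 (y1.1 - a) = 0 := by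
    have e : y1.1 - a = (x.1 - a) + p := by rw [hy1]; abel
    rw [e, detZ_add_right, hD, hE]; ring
  -- y1 is not beyond the next edge
  have hDD : 1 ≤ detZ p p' := by
    have h3 := next_pos hcard h.e.edge h.e'.edge
    rw [hp.pos_iff, hp'.eq, detZ_smul_right] at h3
    have := (mul_pos_iff_of_pos_left hp'.pos).mp h3
    omega
  have hnn : 0 ≤ detZ p' (y1.1 - b) := by
    have h3 := hp'.shell_ge h.e'.edge y2.2
    rw [← hp'.base] at h3
    have e : y2.1 - b = (y1.1 - b) + p := by rw [hy2, hy1, two_smul]; abel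
    rw [e, detZ_add_right, detZ_anti p' p] at h3
    omega
  have hzero : detZ p' (y1.1 - b) = 0 := by
    by_contra hne
    have hpos : 0 < detZ (c - b) (y1.1 - b) := (hp'.pos_iff _).mpr (by omega)
    have hlt := h.right_lt hcard hy1a hL1 hpos
    obtain ⟨_, _, hE', _⟩ := chain_one hcard harc hN h0 h hp0 hp hl1 hR1 hlt
    omega
  have hR1' : R1 = ν' := h.right_eq hcard hy1a hL1 hR1 ((hp'.zero_iff _).mpr hzero)
  refine ⟨⟨i, k, by rw [← hR1']; exact hik⟩, ?_⟩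
  obtain ⟨y, hy, rest⟩ := chain_two hcard harc hN h h' hp hp' hl1 hL1 hR1'
  refine ⟨y, ?_, rest⟩
  rw [hy, hy1, two_smul]; abel

/-- a real number is generic if it is the right end of a lifted arc and no edge normal -/
def Gen (V : Finset (ℤ × ℤ)) (l r : shell V → ℝ) (t : ℝ) : Prop :=
  ∃ a b c ν ν', Cons V a b c ν ν' ∧ ν < t ∧ t < ν' ∧ ∃ x L, Lift l r (2 * π) x L t

theorem gen_step (hcard : 3 ≤ V.card) (hV : ConvexPos (vertexSet V)) (harc : ArcSys V l r)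
    {N : ℕ} (hN : NoClose l r N) {t : ℝ} (ht : Gen V l r t) : Gen V l r (Fm l r two_pi_pos t) := by
  obtain ⟨a, b, c, ν, ν', h, h1, h2, x, L, hx⟩ := ht
  obtain ⟨z, ν0, h0⟩ := h.e.prev hcard hV
  obtain ⟨d, ν'', h'⟩ := h.e'.next hcard hV
  obtain ⟨d', ν3, h''⟩ := h'.e'.next hcard hV
  obtain ⟨d2, ν4, h3⟩ := h''.e'.next hcard hV
  obtain ⟨p0, hp0⟩ := exists_prim h0.e.edge
  obtain ⟨p, hp⟩ := exists_prim h.e.edge
  obtain ⟨p', hp'⟩ := exists_prim h'.e.edge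
  obtain ⟨p'', hp''⟩ := exists_prim h''.e.edge
  have hxa := lift_arc harc hx
  obtain ⟨_, y, hy, hD, hpy, hpy', hin, y1, α, hG, ⟨L1, hy1, hL1, hL1'⟩, k, hk, hy1k⟩ :=
    chain_step hcard harc hN h0 h h' hp0 hp hp' hx h1 h2
  have hy1a := lift_arc harc hy1
  have hνν' := h.lt
  -- the value of the greedy map
  have hF : Fm l r two_pi_pos t = α := by
    apply le_antisymm
    · exact Fm_le two_pi_pos hy1 (klem hcard h x.2 y1.2 hxa hy1a h1 h2 hL1)
    · obtain ⟨u, Lu, hu, hle⟩ := Fm_lift (l := l) (r := r) two_pi_pos t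
      exact hG.2 u Lu _ hu (by linarith)
  -- the corner point at the next edge
  have hye' : detZ (c - b) (y.1 - c) < 0 := by
    rw [detZ_base, hp'.neg_iff, hpy']; norm_num
  obtain ⟨Ly, Ry, hly, hLy, hRy⟩ := exists_lift_at harc h.e' y hye'
  have hya := lift_arc harc hly
  have hRy' := h'.right_lt hcard hya hLy hin
  obtain ⟨_, y2, hy2, hD', hpy2, hpy2', hin2, _⟩ :=
    chain_step hcard harc hN h h' h'' hp hp' hp'' hly hRy hRy'
  have hy2e : detZ (d - c) (y2.1 - d) < 0 := by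
    rw [detZ_base, hp''.neg_iff, hpy2']; norm_num
  have hy2e' : detZ (c - b) (y2.1 - c) < 0 := by
    rw [hp'.neg_iff, hpy2]; norm_num
  -- lift of y2 around ν'
  obtain ⟨L2, R2, hl2, hL2, hR2⟩ := exists_lift_at harc h.e' y2 hy2e'
  have hy2a := lift_arc harc hl2
  have hL2ν : ν < L2 := by
    apply h.left_gt hcard hy2a hR2
    rw [hp.pos_iff]
    have e : y2.1 - b = (y.1 - b) + (2 : ℤ) • p' := by rw [hy2]; abel
    rw [e, detZ_add_right, detZ_smul_right, hpy, hD]; norm_num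
  have hα1 : α ≤ R2 := hG.2 y2 L2 R2 hl2 hL2ν
  -- y1 = y2
  obtain ⟨κ, hκ, hpκ⟩ := hp'.toR_eq h.e'
  have hαν' : ν' < α := (h.left_signs hcard hy1a hL1 hL1').2.2
  have hαR2 : R2 = α := by
    rcases (by omega : k = 2 ∨ 3 ≤ k) with hk2 | hk3
    · have : y1.1 = y2.1 := by rw [hy1k, hk2, hy2]
      rw [this] at hy1a
      exact arc_unique hcard hy2a hy1a hL2 hR2 hL1' hαν'
    · exfalso
      have h5 : toR y1.1 - toR y2.1 = ((k - 2 : ℤ) * κ : ℝ) • tau ν' := by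
        rw [← toR_sub]
        have : y1.1 - y2.1 = (k - 2) • p' := by rw [hy1k, hy2, sub_smul]; abel
        rw [this, toR_smul, hpκ, smul_smul]
      have hk' : (0 : ℝ) < ((k - 2 : ℤ) : ℝ) := by exact_mod_cast (by omega : 0 < k - 2)
      have := order_right hcard hy2a hy1a hL2 hαν' hL1' (mul_pos hk' hκ) h5
      linarith
  rw [hF, ← hαR2]
  -- R2 lies strictly between the next normals
  have hR2' : ν'' < R2 := by
    by_contra hcon
    push Not at hcon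
    obtain ⟨k2, g1, g2⟩ := h'.e'.exists_lift hy2a hy2e
    have hle := hy2a.le (vertexSet_nonempty hcard)
    have hpi := Real.pi_pos
    have hlt' := h'.lt'
    have hlt := h'.lt
    rcases lt_trichotomy k2 0 with hk | hk | hk
    · have hk' : (k2 : ℝ) ≤ -1 := by exact_mod_cast (by omega : k2 ≤ -1)
      have := mul_le_mul_of_nonneg_right hk' (by linarith : (0 : ℝ) ≤ 2 * π)
      linarith
    · subst hk
      simp only [Int.cast_zero, zero_mul, add_zero] at g2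
      linarith
    · have hk' : (1 : ℝ) ≤ k2 := by exact_mod_cast (by omega : 1 ≤ k2)
      have := mul_le_mul_of_nonneg_right hk' (by linarith : (0 : ℝ) ≤ 2 * π)
      linarith
  have hR2'' : R2 < ν3 := h''.right_lt hcard hy2a (by linarith [h'.lt]) hin2
  exact ⟨c, d, d', ν'', ν3, h'', hR2', hR2'', y2, L2, hl2⟩

theorem not_gen_normal (hcard : 3 ≤ V.card) {b c : ℤ × ℤ} {t : ℝ} (h : LE V b c t) :
    ¬ Gen V l r t := by
  rintro ⟨a1, b1, c1, ν, ν', hC, h1, h2, -⟩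
  have hz := h.tail
  have hb1 := hC.e.edge.2.1
  have hmax := h.vertex hb1
  by_cases hcb : c = b1
  · have hbb : b ≠ b1 := by rw [← hcb]; exact h.edge.2.2.1
    have h3 := hC.support hcard h1 h2 h.edge.1 hbb
    rw [hcb] at hz
    linarith
  · have h3 := hC.support hcard h1 h2 h.edge.2.1 hcb
    have e : toR (b1 - c) = -toR (c - b1) := by
      rw [toR_sub, toR_sub]; abel
    rw [e, dirf_neg] at hmax
    linarith

/-- The greedy map closes within three turns. -/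
theorem closes (hcard : 3 ≤ V.card) (hV : ConvexPos (vertexSet V)) (harc : ArcSys V l r)
    {N : ℕ} (hN : NoClose l r N) : False := by
  obtain ⟨x⟩ := (inferInstance : Nonempty (shell V))
  -- a generic number
  obtain ⟨t, ht⟩ : ∃ t, Gen V l r t := by
    obtain ⟨a, b, c, ν, ν', h, h1, h2, h3⟩ := exists_cons hcard hV (harc x)
    rcases lt_or_eq_of_le h3 with h4 | h4
    · exact ⟨r x, a, b, c, ν, ν', h, h2, h4, x, l x, 0, by simp, by simp⟩
    · obtain ⟨d, ν'', h'⟩ := h.e'.next hcard hV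
      obtain ⟨p, hp⟩ := exists_prim h.e.edge
      obtain ⟨p', hp'⟩ := exists_prim h'.e.edge
      obtain ⟨y, hy, hD, hpy, hpy', hin, _⟩ := chain_two hcard harc hN h h' hp hp'
        (x := x) (L := l x) (R := r x) ⟨0, by simp, by simp⟩ h1 h4
      have hye' : detZ (c - b) (y.1 - c) < 0 := by
        rw [detZ_base, hp'.neg_iff, hpy']; norm_num
      obtain ⟨Ly, Ry, hly, hLy, hRy⟩ := exists_lift_at harc h.e' y hye'
      have hya := lift_arc harc hly
      have hRy' := h'.right_lt hcard hya hLy hin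
      exact ⟨Ry, b, c, d, ν', ν'', h', hRy, hRy', y, Ly, hly⟩
  have hall : ∀ i : ℕ, Gen V l r ((Fm l r two_pi_pos)^[i] t) := by
    intro i
    induction i with
    | zero => exact ht
    | succ i ih =>
      rw [Function.iterate_succ_apply']
      exact gen_step hcard hV harc hN ih
  obtain ⟨a, b, c, ν, ν', h, h1, h2, x, L, hx⟩ := ht
  obtain ⟨z, ν0, h0⟩ := h.e.prev hcard hV
  obtain ⟨d, ν'', h'⟩ := h.e'.next hcard hV
  obtain ⟨p0, hp0⟩ := exists_prim h0.e.edge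
  obtain ⟨p, hp⟩ := exists_prim h.e.edge
  obtain ⟨p', hp'⟩ := exists_prim h'.e.edge
  obtain ⟨⟨i, k, hik⟩, _⟩ := chain_step hcard harc hN h0 h h' hp0 hp hp' hx h1 h2
  have h3 := hall i
  rw [← hik] at h3
  exact not_gen_normal hcard (h.e'.shift k) h3

end Pool.Agent.Lib.MP_2d08ba_nt
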