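import Pool.Agent.Lib.MP_2d08ba_nt.Arcs

set_option autoImplicit false

/-!
Greedy map of a finite family of periodic open arcs `(l x + k T, r x + k T)`.
-/

namespace Pool.Agent.Lib.MP_2d08ba_nt

section

variable {X : Type} [Fintype X] [Nonempty X] {l r : X → ℝ} {T : ℝ}

/-- `(L, R)` is a lift of the arc of `x`. -/
def Lift (l r : X → ℝ) (T : ℝ) (x : X) (L R : ℝ) : Prop := ∃ k : ℤ, L = l x + k * T ∧ R = r x + k * T

/-- the greedy value at `θ`: the smallest right end of a lifted arc with left end at least `θ` -/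
def IsF (l r : X → ℝ) (T : ℝ) (θ φ : ℝ) : Prop :=
  (∃ x L, Lift l r T x L φ ∧ θ ≤ L) ∧ ∀ x L R, Lift l r T x L R → θ ≤ L → φ ≤ R

/-- the strict greedy value at `θ` -/
def IsG (l r : X → ℝ) (T : ℝ) (θ φ : ℝ) : Prop :=
  (∃ x L, Lift l r T x L φ ∧ θ < L) ∧ ∀ x L R, Lift l r T x L R → θ < L → φ ≤ R

theorem exists_isF (hT : 0 < T) (θ : ℝ) : ∃ φ, IsF l r T θ φ := by
  obtain ⟨x, k, h1, h2⟩ := step_exists (l := l) (r := r) hT θ
  refine ⟨r x + k * T, ⟨x, l x + k * T, ⟨k, rfl, rfl⟩, h1⟩, ?_⟩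
  rintro x' L R ⟨k', rfl, rfl⟩ h
  exact h2 x' k' h

theorem exists_isG (hT : 0 < T) (θ : ℝ) : ∃ φ, IsG l r T θ φ := by
  obtain ⟨x, hx⟩ := Finite.exists_min (fun x : X => r x + (⌊(θ - l x) / T⌋ + 1 : ℝ) * T)
  refine ⟨r x + (⌊(θ - l x) / T⌋ + 1 : ℝ) * T, ⟨x, l x + (⌊(θ - l x) / T⌋ + 1 : ℝ) * T,
    ⟨⌊(θ - l x) / T⌋ + 1, by push_cast; ring, by push_cast; ring⟩, ?_⟩, ?_⟩
  · have h1 := Int.lt_floor_add_one ((θ - l x) / T)
    rw [div_lt_iff₀ hT] at h1
    linarith
  · rintro x' L R ⟨k', rfl, rfl⟩ hk'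
    refine (hx x').trans ?_
    have h1 : (θ - l x') / T < k' := by rw [div_lt_iff₀ hT]; linarith
    have h2 : ⌊(θ - l x') / T⌋ < k' := Int.floor_lt.mpr h1
    have h3 : (⌊(θ - l x') / T⌋ : ℝ) + 1 ≤ k' := by exact_mod_cast h2
    have := mul_le_mul_of_nonneg_right h3 hT.le
    linarith

theorem isF_unique {θ φ φ' : ℝ} (h : IsF l r T θ φ) (h' : IsF l r T θ φ') : φ = φ' := by
  obtain ⟨⟨x, L, h1, h2⟩, h3⟩ := h
  obtain ⟨⟨x', L', h1', h2'⟩, h3'⟩ := h'
  exact le_antisymm (h3 _ _ _ h1' h2') (h3' _ _ _ h1 h2)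

theorem lift_lt {x : X} {L R : ℝ} (hlr : ∀ x, l x < r x) (h : Lift l r T x L R) : L < R := by
  obtain ⟨k, rfl, rfl⟩ := h
  have := hlr x
  linarith

theorem lift_add {x : X} {L R : ℝ} (h : Lift l r T x L R) (k : ℤ) :
    Lift l r T x (L + k * T) (R + k * T) := by
  obtain ⟨j, rfl, rfl⟩ := h
  exact ⟨j + k, by push_cast; ring, by push_cast; ring⟩

theorem isF_add {θ φ : ℝ} (h : IsF l r T θ φ) (k : ℤ) : IsF l r T (θ + k * T) (φ + k * T) := by
  obtain ⟨⟨x, L, h1, h2⟩, h3⟩ := h
  refine ⟨⟨x, L + k * T, lift_add h1 k, by linarith⟩, ?_⟩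
  intro x' L' R' h' hle
  have h4 := h3 x' (L' + (-k : ℤ) * T) (R' + (-k : ℤ) * T) (lift_add h' (-k)) (by push_cast; linarith)
  push_cast at h4
  linarith

/-- the greedy map -/
noncomputable def Fm (l r : X → ℝ) {T : ℝ} (hT : 0 < T) (θ : ℝ) : ℝ :=
  (exists_isF (l := l) (r := r) hT θ).choose

theorem Fm_spec (hT : 0 < T) (θ : ℝ) : IsF l r T θ (Fm l r hT θ) :=
  (exists_isF (l := l) (r := r) hT θ).choose_spec

theorem Fm_le (hT : 0 < T) {θ : ℝ} {x : X} {L R : ℝ} (h : Lift l r T x L R) (hle : θ ≤ L) :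
    Fm l r hT θ ≤ R := (Fm_spec hT θ).2 x L R h hle

theorem Fm_lift (hT : 0 < T) (θ : ℝ) : ∃ x L, Lift l r T x L (Fm l r hT θ) ∧ θ ≤ L :=
  (Fm_spec hT θ).1

theorem Fm_mono (hT : 0 < T) {θ θ' : ℝ} (h : θ ≤ θ') : Fm l r hT θ ≤ Fm l r hT θ' := by
  obtain ⟨x, L, h1, h2⟩ := Fm_lift (l := l) (r := r) hT θ'
  exact Fm_le hT h1 (h.trans h2)

theorem Fm_gt (hT : 0 < T) (hlr : ∀ x, l x < r x) (θ : ℝ) : θ < Fm l r hT θ := by
  obtain ⟨x, L, h1, h2⟩ := Fm_lift (l := l) (r := r) hT θ
  have := lift_lt hlr h1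
  linarith

theorem Fm_add (hT : 0 < T) (θ : ℝ) (k : ℤ) : Fm l r hT (θ + k * T) = Fm l r hT θ + k * T :=
  isF_unique (Fm_spec hT _) (isF_add (Fm_spec hT θ) k)

theorem Fm_iter_mono (hT : 0 < T) (n : ℕ) {θ θ' : ℝ} (h : θ ≤ θ') :
    (Fm l r hT)^[n] θ ≤ (Fm l r hT)^[n] θ' := by
  induction n generalizing θ θ' with
  | zero => simpa using h
  | succ n ih =>
    rw [Function.iterate_succ_apply, Function.iterate_succ_apply]
    exact ih (Fm_mono hT h)

theorem Fm_iter_add (hT : 0 < T) (n : ℕ) (θ : ℝ) (k : ℤ) :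
    (Fm l r hT)^[n] (θ + k * T) = (Fm l r hT)^[n] θ + k * T := by
  induction n generalizing θ with
  | zero => simp
  | succ n ih =>
    rw [Function.iterate_succ_apply, Function.iterate_succ_apply, Fm_add, ih]

theorem Fm_iter_strict (hT : 0 < T) (hlr : ∀ x, l x < r x) (θ : ℝ) :
    StrictMono (fun n : ℕ => (Fm l r hT)^[n] θ) := by
  apply strictMono_nat_of_lt_succ
  intro n
  simp only [Function.iterate_succ_apply']
  exact Fm_gt hT hlr _

/-- if no `N` directions pierce all arcs then `N` greedy steps do not go around -/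
theorem Fm_iter_lt (hT : 0 < T) (hlr : ∀ x, l x < r x) {N : ℕ}
    (hno : ∀ θ : Fin N → ℝ, ∃ x, ∀ j, ¬ pierced l r T x (θ j)) (θ0 : ℝ) :
    (Fm l r hT)^[N] θ0 < θ0 + T := by
  classical
  set t : ℕ → ℝ := fun n => (Fm l r hT)^[n] θ0 with ht
  have hmono : StrictMono t := Fm_iter_strict hT hlr θ0
  have ht0 : t 0 = θ0 := rfl
  have hge : ∀ i (x : X) (k : ℤ), t i ≤ l x + k * T → t (i + 1) ≤ r x + k * T := by
    intro i x k h
    simp only [ht, Function.iterate_succ_apply']
    exact Fm_le hT ⟨k, rfl, rfl⟩ h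
  by_contra hcon
  push Not at hcon
  change θ0 + T ≤ t N at hcon
  have hx : ∀ x : X, ∃ (j : Fin N) (k : ℤ), l x + k * T < t (j + 1) ∧
      t (j + 1) ≤ r x + k * T := by
    intro x
    set k : ℤ := ⌈(θ0 - l x) / T⌉ with hk
    have h1 : θ0 ≤ l x + k * T := by
      have h1 := Int.le_ceil ((θ0 - l x) / T)
      rw [div_le_iff₀ hT] at h1
      linarith
    have h2 : l x + k * T < θ0 + T := by
      have h1 := Int.ceil_lt_add_one ((θ0 - l x) / T)
      have h3 : (k : ℝ) * T < ((θ0 - l x) / T + 1) * T := mul_lt_mul_of_pos_right h1 hT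
      have h4 : ((θ0 - l x) / T + 1) * T = θ0 - l x + T := by field_simp
      linarith
    have hex : ∃ n, l x + k * T < t n := ⟨N, by linarith⟩
    have hfind := Nat.find_spec hex
    set n := Nat.find hex with hn
    have hn0 : n ≠ 0 := by
      intro h0
      rw [h0, ht0] at hfind
      linarith
    have hnN : n ≤ N := Nat.find_min' hex (by linarith)
    obtain ⟨j, hj⟩ := Nat.exists_eq_succ_of_ne_zero hn0
    have hjmin : ¬ (l x + k * T < t j) := Nat.find_min hex (by omega)
    refine ⟨⟨j, by omega⟩, k, ?_, ?_⟩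
    · rw [hj] at hfind
      exact hfind
    · exact hge j x k (not_lt.mp hjmin)
  choose jx kx hx1 hx2 using hx
  obtain ⟨x0, hx0⟩ := Finite.exists_min (fun x : X => t (jx x + 1) - (l x + kx x * T))
  set ε : ℝ := (t (jx x0 + 1) - (l x0 + kx x0 * T)) / 2 with hε
  have hε0 : 0 < ε := by
    rw [hε]
    have := hx1 x0
    linarith
  obtain ⟨x, hxx⟩ := hno (fun j => t (j + 1) - ε)
  apply hxx (jx x)
  refine ⟨-kx x, ?_, ?_⟩
  · have h1 := hx0 x
    push_cast
    have h2 : ε + ε = t (jx x0 + 1) - (l x0 + kx x0 * T) := by rw [hε]; ring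
    linarith
  · have h1 := hx2 x
    push_cast
    linarith

/-- iterating the previous statement -/
theorem Fm_iter_mul_lt (hT : 0 < T) {N : ℕ} (hK : ∀ θ, (Fm l r hT)^[N] θ < θ + T) (w : ℕ)
    (hw : 1 ≤ w) (θ : ℝ) : (Fm l r hT)^[w * N] θ < θ + w * T := by
  induction w with
  | zero => omega
  | succ w ih =>
    rcases Nat.eq_zero_or_pos w with h0 | h0
    · subst h0
      simpa using hK θ
    · have h1 := ih h0
      have e1 : (w + 1) * N = N + w * N := by ring
      rw [e1, Function.iterate_add_apply]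
      have h2 := hK ((Fm l r hT)^[w * N] θ)
      push_cast
      linarith

/-- `w` turns in `w N + 1` steps give a family of `w N + 1` distinct members no `w + 1` of which
are pierced by the same direction (for minimal `w`) -/
theorem family_of_turn (hT : 0 < T) (hlr : ∀ x, l x < r x) {N : ℕ}
    (hK : ∀ θ, (Fm l r hT)^[N] θ < θ + T) {w : ℕ} (hw : 1 ≤ w) {y : ℝ}
    (hy : (Fm l r hT)^[w * N + 1] y ≤ y + w * T)
    (hmin : ∀ w', 1 ≤ w' → w' < w → ∀ y', y' + w' * T < (Fm l r hT)^[w' * N + 1] y') :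
    ∃ x : Fin (w * N + 1) → X, Function.Injective x ∧ ∀ (θ : ℝ)
      (S : Finset (Fin (w * N + 1))), (∀ i ∈ S, pierced l r T (x i) θ) → S.card ≤ w := by
  classical
  set t : ℕ → ℝ := fun n => (Fm l r hT)^[n] y with ht
  have hmono : StrictMono t := Fm_iter_strict hT hlr y
  have ht0 : t 0 = y := rfl
  have hstep : ∀ i : ℕ, ∃ x : X, ∃ k : ℤ, t i ≤ l x + k * T ∧ t (i + 1) = r x + k * T := by
    intro i
    obtain ⟨x, L, ⟨k, h1, h2⟩, h3⟩ := Fm_lift (l := l) (r := r) hT (t i)
    refine ⟨x, k, by rw [← h1]; exact h3, ?_⟩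
    simp only [ht, Function.iterate_succ_apply']
    exact h2
  choose A K htl htr using hstep
  have hkey : t (w * N + 1) ≤ t 0 + w * T := hy
  refine ⟨fun i => A i, ?_, ?_⟩
  · -- injectivity
    have key : ∀ i i' : Fin (w * N + 1), (i : ℕ) < i' → A i ≠ A i' := by
      intro i i' hlt heq
      have h1 : t (i' + 1) = t (i + 1) + ((K i' - K i : ℤ) : ℝ) * T := by
        rw [htr, htr, heq]; push_cast; ring
      have h2 : t (i + 1) < t (i' + 1) := hmono (by omega)
      have h3 : t (i' + 1) ≤ t 0 + w * T := (hmono.monotone (by omega)).trans hkey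
      have h4 : t 0 < t (i + 1) := hmono (by omega)
      have h5 : (0 : ℝ) < ((K i' - K i : ℤ) : ℝ) * T := by linarith
      have h6 : (0 : ℝ) < ((K i' - K i : ℤ) : ℝ) := (mul_pos_iff_of_pos_right hT).mp h5
      have h7 : ((K i' - K i : ℤ) : ℝ) * T < w * T := by linarith
      have h8 : ((K i' - K i : ℤ) : ℝ) < w := lt_of_mul_lt_mul_right h7 hT.le
      have h9 : 0 < K i' - K i := by exact_mod_cast h6
      have h10 : K i' - K i < w := by exact_mod_cast h8
      obtain ⟨w', hw'⟩ := Int.eq_ofNat_of_zero_le h9.le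
      rw [hw'] at h1 h9 h10
      have hw1 : 1 ≤ w' := by omega
      have hww : w' < w := by omega
      have h11 := hmin w' hw1 hww (t (i + 1))
      have h12 := Fm_iter_mul_lt hT hK w' hw1 (t (i + 1))
      have e1 : ∀ n, (Fm l r hT)^[n] (t (i + 1)) = t (n + (i + 1)) := by
        intro n
        simp only [ht]
        rw [← Function.iterate_add_apply]
      rw [e1] at h11 h12
      push_cast at h1
      rw [← h1] at h11 h12
      have h13 := hmono.lt_iff_lt.mp h11
      have h14 := hmono.lt_iff_lt.mp h12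
      omega
    intro i i' hii
    by_contra hne
    have hne' : (i : ℕ) ≠ i' := fun h => hne (Fin.ext h)
    rcases lt_or_gt_of_ne hne' with h | h
    · exact key i i' h hii
    · exact key i' i h hii.symm
  · intro θ S hS
    have hn : ∀ i : S, ∃ n : ℤ, t i.1 < θ + n * T ∧ θ + n * T < t (i.1 + 1) := by
      intro i
      obtain ⟨k, hk1, hk2⟩ := hS i.1 i.2
      refine ⟨k + K i.1, ?_, ?_⟩
      · have h1 := htl i.1
        push_cast
        linarith
      · rw [htr]
        push_cast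
        linarith
    choose n hn1 hn2 using hn
    have hinj : Function.Injective n := by
      intro i i' hii
      by_contra hne
      have hne' : (i.1 : ℕ) ≠ i'.1 := fun h => hne (Subtype.ext (Fin.ext h))
      have key : ∀ i i' : S, (i.1 : ℕ) < i'.1 → n i ≠ n i' := by
        intro i i' hlt' heq
        have h1 := hn2 i
        have h2 := hn1 i'
        have h3 : t (i.1 + 1) ≤ t i'.1 := hmono.monotone (by omega)
        rw [heq] at h1
        linarith
      rcases lt_or_gt_of_ne hne' with h | h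
      · exact key i i' h hii
      · exact key i' i h hii.symm
    set c : ℝ := (t 0 - θ) / T with hc
    have hcT : c * T = t 0 - θ := by rw [hc]; field_simp
    have hrange : ∀ i : S, n i ∈ Finset.Ico (⌊c⌋ + 1) (⌊c⌋ + 1 + w) := by
      intro i
      rw [Finset.mem_Ico]
      have h1 := hn1 i
      have h2 := hn2 i
      have h3 : t 0 ≤ t i.1 := hmono.monotone (by omega)
      have h4 : t (i.1 + 1) ≤ t (w * N + 1) := hmono.monotone (by have := i.1.2; omega)
      have h5 : c < n i := by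
        have : c * T < n i * T := by linarith
        exact lt_of_mul_lt_mul_right this hT.le
      have h6 : (n i : ℝ) < c + w := by
        have : (n i : ℝ) * T < (c + w) * T := by rw [add_mul]; linarith
        exact lt_of_mul_lt_mul_right this hT.le
      constructor
      · have := Int.floor_lt.mpr h5
        omega
      · have h7 := Int.lt_floor_add_one c
        have h8 : (n i : ℝ) < ((⌊c⌋ + 1 + w : ℤ) : ℝ) := by push_cast; linarith
        exact_mod_cast h8
    have hcard := Finset.card_le_card_of_injOn (s := (Finset.univ : Finset S))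
      (t := Finset.Ico (⌊c⌋ + 1) (⌊c⌋ + 1 + w)) n
      (fun i _ => hrange i) (fun a _ b _ h => hinj h)
    rw [Finset.card_univ, Fintype.card_coe, Int.card_Ico] at hcard
    omega

/-- Window lemma: without closing within `W` turns, every greedy window contains `W` distinct
points of the forward orbit of its left end. -/
theorem window (hT : 0 < T) (hlr : ∀ x, l x < r x) {N W : ℕ} (hN : 1 ≤ N) (hW : 1 ≤ W)
    (hK : ∀ θ, (Fm l r hT)^[N] θ < θ + T)
    (H4 : ∀ w : ℕ, 1 ≤ w → w ≤ W → ∀ y, y + w * T < (Fm l r hT)^[w * N + 1] y) (z : ℝ) :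
    ∃ e : Fin W → ℝ, Function.Injective e ∧ ∀ k, z < e k ∧ e k < Fm l r hT z ∧
      (∃ i : ℕ, 2 ≤ i ∧ e k + (k + 1 : ℝ) * T = (Fm l r hT)^[i] z) ∧
      ∃ s, e k = Fm l r hT (Fm l r hT s) := by
  classical
  set t : ℕ → ℝ := fun n => (Fm l r hT)^[n] z with ht
  have hmono : StrictMono t := Fm_iter_strict hT hlr z
  have ht0 : t 0 = z := rfl
  -- no exact return within three turns
  have hret : ∀ (y : ℝ) (i w : ℕ), 1 ≤ w → w ≤ W → (Fm l r hT)^[i] y = y + w * T → False := by
    intro y i w h1 h3 h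
    have h4 := H4 w h1 h3 y
    have h5 := Fm_iter_mul_lt hT hK w h1 y
    rw [← h] at h4 h5
    have hm : StrictMono (fun n : ℕ => (Fm l r hT)^[n] y) := Fm_iter_strict hT hlr y
    have h6 := hm.lt_iff_lt.mp h4
    have h7 := hm.lt_iff_lt.mp h5
    omega
  -- first index reaching z + k T
  have hex : ∀ k : ℕ, ∃ n, z + (k : ℝ) * T ≤ t n := by
    intro k
    rcases Nat.eq_zero_or_pos k with h0 | h0
    · exact ⟨0, by rw [h0, ht0]; simp⟩
    · -- use H4-like growth: F^[4]... unboundedness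
      have hub : ∀ w : ℕ, z + (w : ℝ) * T ≤ t (w * (N + 1)) := by
        intro w
        induction w with
        | zero => simp [ht0]
        | succ w ih =>
          have h1 := H4 1 le_rfl hW (t (w * (N + 1)))
          have e1 : (Fm l r hT)^[1 * N + 1] (t (w * (N + 1))) = t ((w + 1) * (N + 1)) := by
            simp only [ht]
            rw [← Function.iterate_add_apply]
            have e2 : 1 * N + 1 + w * (N + 1) = (w + 1) * (N + 1) := by ring
            rw [e2]
          rw [e1] at h1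
          push_cast at h1 ⊢
          linarith
      exact ⟨k * (N + 1), hub k⟩
  set j : ℕ → ℕ := fun k => Nat.find (hex k) with hj
  have hj1 : ∀ k : ℕ, z + (k : ℝ) * T ≤ t (j k) := fun k => Nat.find_spec (hex k)
  have hj2 : ∀ k n, n < j k → t n < z + (k : ℝ) * T := by
    intro k n hn
    have := Nat.find_min (hex k) hn
    exact not_le.mp this
  have hjN : ∀ k, 1 ≤ k → N + 1 ≤ j k := by
    intro k hk
    by_contra hcon
    have h1 : j k ≤ N := by omega
    have h2 := hj1 k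
    have h3 : t (j k) ≤ t N := hmono.monotone h1
    have h4 : t N < z + T := hK z
    have h5 : (1 : ℝ) * T ≤ (k : ℝ) * T :=
      mul_le_mul_of_nonneg_right (by exact_mod_cast hk) hT.le
    linarith
  have hstep : ∀ n, t (n + 1) = Fm l r hT (t n) := by
    intro n
    simp only [ht, Function.iterate_succ_apply']
  have hup : ∀ k : ℕ, 1 ≤ k → t (j k) ≤ Fm l r hT z + (k : ℝ) * T := by
    intro k hk
    have h1 := hjN k hk
    obtain ⟨n, hn⟩ : ∃ n, j k = n + 1 := ⟨j k - 1, by omega⟩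
    rw [hn, hstep]
    have h2 := hj2 k n (by omega)
    have h3 := Fm_mono (l := l) (r := r) hT h2.le
    have h4 := Fm_add (l := l) (r := r) hT z (k : ℤ)
    push_cast at h4
    rw [h4] at h3
    exact h3
  have hne1 : ∀ k : ℕ, 1 ≤ k → k ≤ W → t (j k) ≠ z + (k : ℝ) * T := by
    intro k h1 h3 h
    exact hret z (j k) k h1 h3 h
  have hne2 : ∀ k : ℕ, 1 ≤ k → k ≤ W → t (j k) ≠ Fm l r hT z + (k : ℝ) * T := by
    intro k h1 h3 h
    obtain ⟨n, hn⟩ : ∃ n, j k = n + 1 := ⟨j k - 1, by have := hjN k h1; omega⟩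
    apply hret (Fm l r hT z) n k h1 h3
    rw [← h, hn]
    simp only [ht, Function.iterate_succ_apply]
  refine ⟨fun k => t (j (k + 1)) - (k + 1 : ℝ) * T, ?_, ?_⟩
  · have key : ∀ k k' : Fin W, (k : ℕ) < k' →
        t (j (k + 1)) - ((k : ℕ) + 1 : ℝ) * T ≠ t (j (k' + 1)) - ((k' : ℕ) + 1 : ℝ) * T := by
      intro k k' hlt heq
      have h1 : t (j (k' + 1)) = t (j (k + 1)) + ((k' - k : ℕ) : ℝ) * T := by
        rw [Nat.cast_sub hlt.le]
        linarith
      have hpos : (0 : ℝ) < ((k' - k : ℕ) : ℝ) * T :=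
        mul_pos (by exact_mod_cast Nat.sub_pos_of_lt hlt) hT
      have h2 : j (k + 1) < j (k' + 1) := by
        apply hmono.lt_iff_lt.mp
        linarith
      obtain ⟨d, hd⟩ : ∃ d, j (k' + 1) = d + j (k + 1) := ⟨j (k' + 1) - j (k + 1), by omega⟩
      apply hret (t (j (k + 1))) d (k' - k) (by omega) (by have := k'.2; omega)
      rw [← h1, hd]
      simp only [ht]
      rw [← Function.iterate_add_apply]
    intro k k' hkk
    simp only at hkk
    by_contra hne
    have hne' : (k : ℕ) ≠ k' := fun h => hne (Fin.ext h)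
    rcases lt_or_gt_of_ne hne' with h | h
    · exact key k k' h hkk
    · exact key k' k h hkk.symm
  · intro k
    have hk1 : 1 ≤ (k : ℕ) + 1 := by omega
    have hk3 : (k : ℕ) + 1 ≤ W := by have := k.2; omega
    have h1 := hj1 (k + 1)
    have h2 := hup (k + 1) hk1
    have h3 := hne1 (k + 1) hk1 hk3
    have h4 := hne2 (k + 1) hk1 hk3
    push_cast at h1 h2 h3 h4
    have h5 := lt_of_le_of_ne h1 (Ne.symm h3)
    have h6 := lt_of_le_of_ne h2 h4
    have h7 := hjN (k + 1) hk1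
    refine ⟨by simp only; linarith, by simp only; linarith, ⟨j (k + 1), by omega, ?_⟩, ?_⟩
    · simp only [ht]; ring
    · obtain ⟨n, hn⟩ : ∃ n, j (k + 1) = n + 2 := ⟨j (k + 1) - 2, by omega⟩
      refine ⟨t n + ((-(k + 1) : ℤ) : ℝ) * T, ?_⟩
      rw [Fm_add, Fm_add, ← hstep, ← hstep]
      simp only [hn]
      push_cast
      ring

end

end Pool.Agent.Lib.MP_2d08ba_nt
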