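import Pool.Agent.Lib.MP_2d08ba_nt.Integer

set_option autoImplicit false

namespace Pool.Agent.Lib.MP_2d08ba_nt

theorem not_realizable_of_points {m : ℕ} (hm : 2 ≤ m) {V : Finset (ℤ × ℤ)}
    (hcard : V.card = m + 2) (hV : ConvexPos (vertexSet V))
    (h : ∀ a b c d, IsEdgeZ V c a → IsEdgeZ V a b → IsEdgeZ V b d → EdgeHasPoint a b c d) :
    ¬ Realizable m (poly V) := by
  classical
  intro hreal
  obtain ⟨f, hf1, hf2⟩ := functionals_of_realizable hm hreal
  have hc3 : 3 ≤ (vertexSet V).card := by rw [card_vertexSet]; omega
  -- data at each vertex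
  have hdata : ∀ a : V, ∃ (b x : ℤ × ℤ) (j : Fin (m + 1)), IsEdgeZ V a b ∧
      detZ (b - a) (x - a) = -glen (b - a) ∧
      (∀ e f', IsEdge (vertexSet V) e f' → e ≠ toR a → 0 < det (f' - e) (toR x - e)) ∧
      aff (f j) (toR x) < 0 := by
    intro a
    have haV : toR a ∈ vertexSet V := mem_vertexSet.mpr ⟨a, a.2, rfl⟩
    obtain ⟨b', hb'⟩ := exists_next hV (by omega) haV
    obtain ⟨a1, b, hab, ha1, hb1⟩ := edge_lift hb'
    have := toR_injective ha1; subst this
    have hbV : toR b ∈ vertexSet V := mem_vertexSet.mpr ⟨b, hab.2.1, rfl⟩
    obtain ⟨d', hd'⟩ := exists_next hV (by omega) hbV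
    obtain ⟨b1, d, hbd, hb2, hd1⟩ := edge_lift hd'
    have := toR_injective hb2; subst this
    obtain ⟨c', hc'⟩ := exists_prev hV (by omega) haV
    obtain ⟨c, a2, hca, hc1, ha2⟩ := edge_lift hc'
    have := toR_injective ha2; subst this
    obtain ⟨x, hx1, hx2, hx3⟩ := h _ _ _ _ hca hab hbd
    have hg : 0 < glen (b1 - a) := by
      apply glen_pos
      intro h0
      exact hab.2.2.1 (sub_eq_zero.mp h0).symm
    have hneg : det (toR b1 - toR a) (toR x - toR a) < 0 := by
      rw [det_toR', hx1]
      have : (0 : ℝ) < (glen (b1 - a) : ℤ) := by exact_mod_cast hg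
      push_cast
      linarith
    have hxP : toR x ∉ convexHull ℝ (vertexSet V : Set (ℝ × ℝ)) := by
      intro hcon
      have := hull_nonneg (edge_iff.mpr hab) hcon
      linarith
    obtain ⟨j, hj⟩ := hf2 (toR x) ⟨x, rfl⟩ hxP
    refine ⟨b1, x, j, hab, hx1, ?_, hj⟩
    apply contig hc3 (edge_iff.mpr hca) (edge_iff.mpr hab) (edge_iff.mpr hbd) hneg
    · rw [det_toR']; exact_mod_cast hx2
    · rw [det_toR']; exact_mod_cast hx3
  choose b x j hab hx1 hx2 hj using hdata
  have hpig : ∃ a a' : V, a ≠ a' ∧ j a = j a' := by
    apply Fintype.exists_ne_map_eq_of_card_lt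
    rw [Fintype.card_fin, Fintype.card_coe, hcard]
    omega
  obtain ⟨a, a', hne, hjj⟩ := hpig
  have hneR : toR a ≠ toR a' := fun hh => hne (Subtype.ext (toR_injective hh))
  have hgp : ∀ a : V, 0 < glen (b a - a) := by
    intro a
    apply glen_pos
    intro h0
    exact (hab a).2.2.1 (sub_eq_zero.mp h0).symm
  have hqq : ∀ a a' : V, a ≠ a' →
      ((glen (b a' - a') : ℤ) : ℝ) ≤ det (toR (b a') - toR a') (toR (x a) - toR a') := by
    intro a a' hne'
    have hneR' : toR a' ≠ toR a := fun hh => hne' (Subtype.ext (toR_injective hh)).symm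
    have h1 := hx2 a (toR a') (toR (b a')) (edge_iff.mpr (hab a')) hneR'
    rw [det_toR'] at h1 ⊢
    have h2 : 0 < detZ (b a' - a') (x a - a') := by exact_mod_cast h1
    exact_mod_cast glen_le h2
  refine local_contra (x := toR (x a)) (x' := toR (x a')) hV hc3 (edge_iff.mpr (hab a))
    (edge_iff.mpr (hab a')) hneR (g := (glen (b a - a) : ℤ)) (g' := (glen (b a' - a') : ℤ))
    ?_ ?_ (hx2 a) (hx2 a') (hqq a a' hne) (hqq a' a hne.symm) (c := f (j a)) (hf1 _) (hj a) ?_
  · rw [det_toR', hx1 a]; push_cast; rfl
  · rw [det_toR', hx1 a']; push_cast; rfl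
  · rw [hjj]; exact hj a'

theorem realizable_of_no_point {m : ℕ} (hm : 1 ≤ m) {V : Finset (ℤ × ℤ)}
    (hcard : V.card = m + 2) (hV : ConvexPos (vertexSet V)) {a b c d : ℤ × ℤ}
    (hca : IsEdgeZ V c a) (hab : IsEdgeZ V a b) (hbd : IsEdgeZ V b d)
    (hno : ¬ EdgeHasPoint a b c d) : Realizable m (poly V) := by
  classical
  have hc3 : 3 ≤ (vertexSet V).card := by rw [card_vertexSet]; omega
  set W := vertexSet V with hW
  have habR : IsEdge W (toR a) (toR b) := edge_iff.mpr hab
  have hcaR : IsEdge W (toR c) (toR a) := edge_iff.mpr hca
  have hbdR : IsEdge W (toR b) (toR d) := edge_iff.mpr hbd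
  -- next vertex function
  have hnext : ∀ e : {e : W // (e : ℝ × ℝ) ≠ toR a}, ∃ f, IsEdge W e.1 f :=
    fun e => exists_next hV (by omega) e.1.2
  choose nx hnx using hnext
  -- index type cardinality
  have haW : toR a ∈ W := habR.1
  have hι : Fintype.card {e : W // (e : ℝ × ℝ) ≠ toR a} = m + 1 := by
    have h1 : Fintype.card {e : W // (e : ℝ × ℝ) ≠ toR a} =
        Fintype.card {e : W // e ≠ ⟨toR a, haW⟩} := by
      apply Fintype.card_congr
      apply Equiv.subtypeEquivRight
      intro e
      constructor
      · intro h1 h2; apply h1; rw [h2]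
      · intro h1 h2; exact h1 (Subtype.ext h2)
    rw [h1, Fintype.card_subtype_compl, Fintype.card_subtype_eq, Fintype.card_coe, card_vertexSet,
      hcard]
    omega
  -- maximum of the functional of (a,b)
  set D : ℝ × ℝ → ℝ := fun x => det (toR b - toR a) (x - toR a) with hD
  obtain ⟨v1, hv1, hmax⟩ := Finset.exists_max_image W D ⟨toR a, haW⟩
  set T0 : ℝ := D v1 + 1 with hT0
  have hDv1 : 0 ≤ D v1 := vertex_nonneg habR hv1
  have hT0pos : 1 ≤ T0 := by rw [hT0]; linarith
  set ε : ℝ := 1 / (4 * (2 * T0 + 1)) with hε
  have hε0 : 0 < ε := by rw [hε]; positivity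
  have hεT : ε * (2 * T0 + 1) = 1 / 4 := by rw [hε]; field_simp
  have hε1 : ε ≤ 1 / 4 := by nlinarith
  let f : {e : W // (e : ℝ × ℝ) ≠ toR a} → ℝ × ℝ × ℝ := fun e =>
    edgeF e.1 (nx e) + ε • edgeF (toR a) (toR b) + (0, 0, ε ^ 2)
  have hfval : ∀ e x, aff (f e) x = det (nx e - e.1) (x - e.1) + ε * (D x + ε) := by
    intro e x
    have h1 := aff_edgeF (e.1 : ℝ × ℝ) (nx e) x
    have h2 := aff_edgeF (toR a) (toR b) x
    rw [← h1]
    simp only [hD]
    rw [← h2]
    simp only [f]
    unfold aff
    simp only [Prod.fst_add, Prod.snd_add, Prod.smul_fst, Prod.smul_snd, smul_eq_mul]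
    ring
  refine realizable_of_functionals hι ⟨toR a, haW⟩ (vertexSet_lattice V) f ?_ ?_
  · intro e v hv
    rw [hfval]
    have h1 := vertex_nonneg (hnx e) hv
    have h2 : 0 ≤ D v := vertex_nonneg habR hv
    have h3 : 0 < ε * (D v + ε) := by positivity
    linarith
  · rintro z ⟨z', rfl⟩ hzP
    have hz' : ((z'.1 : ℝ), (z'.2 : ℝ)) = toR z' := rfl
    simp only [hz'] at hzP ⊢
    by_contra hcon
    push Not at hcon
    -- inequality for all edges other than (a,b)
    have hall : ∀ e f', IsEdge W e f' → e ≠ toR a →
        0 ≤ det (f' - e) (toR z' - e) + ε * (D (toR z') + ε) := by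
      intro e f' hef hea
      have h1 := hcon ⟨⟨e, hef.1⟩, hea⟩
      rw [hfval] at h1
      have h2 : nx ⟨⟨e, hef.1⟩, hea⟩ = f' := next_unique (hnx _) hef
      rw [h2] at h1
      exact h1
    have hDz : D (toR z') = (detZ (b - a) (z' - a) : ℝ) := by
      simp only [hD]; exact det_toR' _ _ _ _
    rcases lt_or_ge (detZ (b - a) (z' - a)) 0 with hneg | hnonneg
    · -- beyond the edge
      have hDz1 : D (toR z') ≤ -1 := by
        rw [hDz]
        have : detZ (b - a) (z' - a) ≤ -1 := by omega
        exact_mod_cast this
      have hposall : ∀ e f', IsEdge W e f' → e ≠ toR a → 0 < det (f' - e) (toR z' - e) := by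
        intro e f' hef hea
        have h1 := hall e f' hef hea
        have h2 : ε * (D (toR z') + ε) < 0 := by
          apply mul_neg_of_pos_of_neg hε0
          linarith
        linarith
      have hcz : 0 < detZ (a - c) (z' - c) := by
        have h1 := hposall _ _ hcaR (fun hh => hca.2.2.1 (toR_injective hh))
        rw [det_toR'] at h1
        exact_mod_cast h1
      have hbz : 0 < detZ (d - b) (z' - b) := by
        have h1 := hposall _ _ hbdR (fun hh => hab.2.2.1 (toR_injective hh).symm)
        rw [det_toR'] at h1
        exact_mod_cast h1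
      obtain ⟨x, hx, A, B, K, hA, hB, hK, hcomb⟩ := move_to_one hab.2.2.1 hneg
      apply hno
      have hg : 0 < glen (b - a) := by
        apply glen_pos
        intro h0
        exact hab.2.2.1 (sub_eq_zero.mp h0).symm
      refine ⟨x, hx, ?_, ?_⟩
      · have h1 := hcomb c (a - c)
        have h2 : 0 ≤ detZ (a - c) (b - c) := by
          have h3 := vertex_nonneg hcaR habR.2.1
          rw [det_toR'] at h3
          exact_mod_cast h3
        have h3 : detZ (a - c) (a - c) = 0 := by unfold detZ; ring
        rw [h3, mul_zero, add_zero] at h1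
        have h4 : 0 < K * detZ (a - c) (x - c) := by
          rw [h1]
          have := mul_pos hg hcz
          have := mul_nonneg hB h2
          linarith
        exact (mul_pos_iff_of_pos_left hK).mp h4
      · have h1 := hcomb b (d - b)
        have h2 : 0 ≤ detZ (d - b) (a - b) := by
          have h3 := vertex_nonneg hbdR habR.1
          rw [det_toR'] at h3
          exact_mod_cast h3
        have h3 : detZ (d - b) (b - b) = 0 := by unfold detZ; simp
        rw [h3, mul_zero, add_zero] at h1
        have h4 : 0 < K * detZ (d - b) (x - b) := by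
          rw [h1]
          have := mul_pos hg hbz
          have := mul_nonneg hA h2
          linarith
        exact (mul_pos_iff_of_pos_left hK).mp h4
    · -- on the inner side
      have hTnn : 0 ≤ D (toR z') := by rw [hDz]; exact_mod_cast hnonneg
      have hzP2 := hzP
      rw [mem_hull_iff hV hc3] at hzP2
      push Not at hzP2
      obtain ⟨e, f', hef, hefneg⟩ := hzP2
      have hea : e ≠ toR a := by
        intro hh
        subst hh
        have : f' = toR b := next_unique hef habR
        subst this
        have h1 : D (toR z') < 0 := hefneg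
        linarith
      have hle1 : det (f' - e) (toR z' - e) ≤ -1 := by
        obtain ⟨e1, f1, _, he1, hf1⟩ := edge_lift hef
        rw [← he1, ← hf1, det_toR'] at hefneg ⊢
        have h2 : detZ (f1 - e1) (z' - e1) < 0 := by exact_mod_cast hefneg
        have h3 : detZ (f1 - e1) (z' - e1) ≤ -1 := by omega
        exact_mod_cast h3
      have h1 := hall e f' hef hea
      set T := D (toR z') with hT
      rcases lt_or_ge T (2 * T0) with hlt | hge
      · have : ε * (T + ε) ≤ ε * (2 * T0 + 1) := by
          apply mul_le_mul_of_nonneg_left _ hε0.le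
          linarith
        linarith
      · -- shrink towards the midpoint of (a,b)
        have hTpos : 0 < T := by linarith
        set l : ℝ := T0 / T with hl
        have hl0 : 0 < l := by positivity
        have hlT : l * T = T0 := by rw [hl]; field_simp
        have hl1 : l ≤ 1 / 2 := by
          rw [hl, div_le_iff₀ hTpos]; linarith
        set y : ℝ × ℝ := (1 - l) • ((1 / 2 : ℝ) • toR a + (1 / 2 : ℝ) • toR b) + l • toR z' with hy
        have hyval : ∀ e f' : ℝ × ℝ, det (f' - e) (y - e) =
            (1 - l) * ((det (f' - e) (toR a - e) + det (f' - e) (toR b - e)) / 2) +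
              l * det (f' - e) (toR z' - e) := by
          intro e f'
          rw [hy]; unfold det
          simp only [Prod.fst_sub, Prod.snd_sub, Prod.fst_add, Prod.snd_add, Prod.smul_fst,
            Prod.smul_snd, smul_eq_mul]
          ring
        have hDy : D y = T0 := by
          have h2 := hyval (toR a) (toR b)
          have h3 : det (toR b - toR a) (toR a - toR a) = 0 := by simp [det]
          rw [h3, det_self] at h2
          simp only [hD]
          rw [h2]
          have h4 : det (toR b - toR a) (toR z' - toR a) = T := rfl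
          rw [h4]
          linarith
        have hyP : y ∈ convexHull ℝ (W : Set (ℝ × ℝ)) := by
          rw [mem_hull_iff hV hc3]
          intro e f' hef
          by_cases hea : e = toR a
          · subst hea
            have : f' = toR b := next_unique hef habR
            subst this
            have h2 : D y = det (toR b - toR a) (y - toR a) := rfl
            rw [← h2, hDy]; linarith
          · rw [hyval]
            have h2 := hall e f' hef hea
            -- the sum at a and b is at least one
            have h3 : 1 ≤ det (f' - e) (toR a - e) + det (f' - e) (toR b - e) := by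
              obtain ⟨e1, f1, hef1, he1, hf1⟩ := edge_lift hef
              have h4 := vertex_nonneg hef habR.1
              have h5 := vertex_nonneg hef habR.2.1
              have h6 : 0 < det (f' - e) (toR a - e) + det (f' - e) (toR b - e) := by
                rcases (add_nonneg h4 h5).lt_or_eq with h | h
                · exact h
                · exfalso
                  have ha0 : det (f' - e) (toR a - e) = 0 := by linarith
                  have hb0 : det (f' - e) (toR b - e) = 0 := by linarith
                  have hfa : f' = toR a := by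
                    by_contra hne
                    have := hef.2.2.2 (toR a) habR.1 (fun hh => hea hh.symm) (fun hh => hne hh.symm)
                    linarith
                  have heb : e = toR b := by
                    by_contra hne
                    have := hef.2.2.2 (toR b) habR.2.1 (fun hh => hne hh.symm)
                      (fun hh => habR.2.2.1 (hfa.symm.trans hh.symm))
                    linarith
                  rw [hfa, heb] at hef
                  exact prev_ne_next hc3 habR hef rfl
              rw [← he1, ← hf1, det_toR', det_toR'] at h6 ⊢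
              have h7 : 0 < detZ (f1 - e1) (a - e1) + detZ (f1 - e1) (b - e1) := by
                exact_mod_cast h6
              have h8 : 1 ≤ detZ (f1 - e1) (a - e1) + detZ (f1 - e1) (b - e1) := by omega
              exact_mod_cast h8
            have h4 : -(ε * (T + ε)) ≤ det (f' - e) (toR z' - e) := by linarith
            have h5 : l * -(ε * (T + ε)) ≤ l * det (f' - e) (toR z' - e) := by gcongr
            have h6 : l * -(ε * (T + ε)) = -(ε * (T0 + l * ε)) := by
              rw [← hlT]; ring
            have h7 : (1 - l) * ((det (f' - e) (toR a - e) + det (f' - e) (toR b - e)) / 2) ≥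
                1 / 4 := by
              nlinarith
            have h8 : ε * (T0 + l * ε) ≤ ε * (2 * T0 + 1) := by
              apply mul_le_mul_of_nonneg_left _ hε0.le
              nlinarith
            linarith
        -- contradiction with the maximum
        have hconv : Convex ℝ {x : ℝ × ℝ | D x ≤ D v1} := by
          intro y1 hy1 y2 hy2 s t hs ht hst
          simp only [Set.mem_ofPred_eq] at hy1 hy2 ⊢
          have e1 : D (s • y1 + t • y2) = s * D y1 + t * D y2 := by
            simp only [hD]; unfold det
            simp only [Prod.fst_sub, Prod.snd_sub, Prod.fst_add, Prod.snd_add, Prod.smul_fst,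
              Prod.smul_snd, smul_eq_mul]
            have : s = 1 - t := by linarith
            subst this; ring
          rw [e1]
          have e2 : s * D y1 + t * D y2 ≤ s * D v1 + t * D v1 := by gcongr
          have e3 : s * D v1 + t * D v1 = D v1 := by rw [← add_mul, hst, one_mul]
          linarith
        have h9 : D y ≤ D v1 := convexHull_min (fun v hv => hmax v hv) hconv hyP
        rw [hDy, hT0] at h9
        linarith

end Pool.Agent.Lib.MP_2d08ba_nt
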