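import Mathlib

set_option autoImplicit false

namespace Pool.Agent.Lib.MP_2d08ba_nt

/-- The determinant of two plane vectors. -/
def det (x y : ℝ × ℝ) : ℝ := x.1 * y.2 - x.2 * y.1

/-- A finite set of points of the plane is in convex position: no point lies in the convex hull of
the others. -/
def ConvexPos (V : Finset (ℝ × ℝ)) : Prop :=
  ∀ v ∈ V, v ∉ convexHull ℝ ((V : Set (ℝ × ℝ)) \ {v})

/-- The set of integer points of the plane. -/
def latticePts : Set (ℝ × ℝ) := Set.range (fun z : ℤ × ℤ => ((z.1 : ℝ), (z.2 : ℝ)))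

/-- `P` is `m`-realizable: there is a convex `(m+1)`-gon `Q` (the convex hull of `m + 1` points in
convex position) with `P` in its interior and `conv (Q ∩ ℤ²) = P`. -/
def Realizable (m : ℕ) (P : Set (ℝ × ℝ)) : Prop :=
  ∃ W : Finset (ℝ × ℝ), W.card = m + 1 ∧ ConvexPos W ∧
    P ⊆ interior (convexHull ℝ (W : Set (ℝ × ℝ))) ∧
    convexHull ℝ (convexHull ℝ (W : Set (ℝ × ℝ)) ∩ latticePts) = P

/-- The point of the plane with given integer coordinates. -/
def toR (z : ℤ × ℤ) : ℝ × ℝ := ((z.1 : ℝ), (z.2 : ℝ))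

theorem toR_injective : Function.Injective toR := by
  intro x y h
  unfold toR at h
  rw [Prod.mk.injEq] at h
  exact Prod.ext (by exact_mod_cast h.1) (by exact_mod_cast h.2)

/-- The finite set of points of the plane given by a finite set of integer points. -/
noncomputable def vertexSet (V : Finset (ℤ × ℤ)) : Finset (ℝ × ℝ) := V.map ⟨toR, toR_injective⟩

/-- The polygon of a finite set of integer points: its convex hull. -/
noncomputable def poly (V : Finset (ℤ × ℤ)) : Set (ℝ × ℝ) :=
  convexHull ℝ (vertexSet V : Set (ℝ × ℝ))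

/-- Integer determinant. -/
def detZ (x y : ℤ × ℤ) : ℤ := x.1 * y.2 - x.2 * y.1

/-- `(a, b)` is a (counterclockwise) edge of the polygon with vertex set `V`. -/
def IsEdgeZ (V : Finset (ℤ × ℤ)) (a b : ℤ × ℤ) : Prop :=
  a ∈ V ∧ b ∈ V ∧ a ≠ b ∧ ∀ c ∈ V, c ≠ a → c ≠ b → 0 < detZ (b - a) (c - a)

/-- Lattice length of an integer vector: the gcd of its coordinates. -/
def glen (x : ℤ × ℤ) : ℤ := (Int.gcd x.1 x.2 : ℤ)

/-- The criterion at the edge `(a, b)` with neighbours `(c, a)` and `(b, d)`: there is an integer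
point at lattice distance one beyond the edge, strictly inside the lines of both neighbours. -/
def EdgeHasPoint (a b c d : ℤ × ℤ) : Prop :=
  ∃ x : ℤ × ℤ, detZ (b - a) (x - a) = -glen (b - a) ∧
    0 < detZ (a - c) (x - c) ∧ 0 < detZ (d - b) (x - b)

/-- Dilate of a finite set of integer points. -/
noncomputable def dilate (k : ℤ) (V : Finset (ℤ × ℤ)) : Finset (ℤ × ℤ) := by
  classical exact V.image (fun v => k • v)

/-- The first shell of the polygon: integer points outside of it, at lattice distance at most one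
from every edge beyond which they lie. -/
def shell (V : Finset (ℤ × ℤ)) : Set (ℤ × ℤ) :=
  {x | toR x ∉ poly V ∧ ∀ a b, IsEdgeZ V a b → -glen (b - a) ≤ detZ (b - a) (x - a)}

end Pool.Agent.Lib.MP_2d08ba_nt
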