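import Pool.Agent.Lib.MP_2d08ba_nt.Criterion

set_option autoImplicit false

namespace Pool.Agent.Lib.MP_2d08ba_nt

open Pointwise

theorem realizable_succ {m : ℕ} (hm : 2 ≤ m) {V : Finset (ℤ × ℤ)} (hne : V.Nonempty)
    (h : Realizable m (poly V)) : Realizable (m + 1) (poly V) := by
  obtain ⟨f, hf1, hf2⟩ := functionals_of_realizable hm h
  let f' : Option (Fin (m + 1)) → ℝ × ℝ × ℝ := fun o => f (o.getD 0)
  refine realizable_of_functionals (ι := Option (Fin (m + 1))) (by simp) ?_ (vertexSet_lattice V)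
    f' (fun o v hv => hf1 _ v hv) ?_
  · obtain ⟨v, hv⟩ := hne
    exact ⟨toR v, mem_vertexSet.mpr ⟨v, hv, rfl⟩⟩
  · intro z hz hzP
    obtain ⟨j, hj⟩ := hf2 z hz hzP
    exact ⟨some j, hj⟩

theorem realizable_mono {m k : ℕ} (hm : 2 ≤ m) {V : Finset (ℤ × ℤ)} (hne : V.Nonempty)
    (h : Realizable m (poly V)) : Realizable (m + k) (poly V) := by
  induction k with
  | zero => exact h
  | succ k ih => exact realizable_succ (le_trans hm (Nat.le_add_right m k)) hne ih

theorem mem_dilate {k : ℤ} {V : Finset (ℤ × ℤ)} {x : ℤ × ℤ} :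
    x ∈ dilate k V ↔ ∃ v ∈ V, k • v = x := by
  unfold dilate; rw [Finset.mem_image]

theorem smul_inj {k : ℤ} (hk : 0 < k) {v w : ℤ × ℤ} (h : k • v = k • w) : v = w := by
  have h1 : k * v.1 = k * w.1 := by simpa using congrArg Prod.fst h
  have h2 : k * v.2 = k * w.2 := by simpa using congrArg Prod.snd h
  exact Prod.ext (mul_left_cancel₀ hk.ne' h1) (mul_left_cancel₀ hk.ne' h2)

theorem card_dilate {k : ℤ} (hk : 0 < k) (V : Finset (ℤ × ℤ)) : (dilate k V).card = V.card := by
  unfold dilate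
  exact Finset.card_image_of_injective _ (fun v w h => smul_inj hk h)

theorem toR_smul (k : ℤ) (v : ℤ × ℤ) : toR (k • v) = (k : ℝ) • toR v := by
  unfold toR; ext <;> simp

theorem convexPos_dilate {k : ℤ} (hk : 0 < k) {V : Finset (ℤ × ℤ)}
    (hV : ConvexPos (vertexSet V)) : ConvexPos (vertexSet (dilate k V)) := by
  have hkr : (0 : ℝ) < k := by exact_mod_cast hk
  intro x hx hcon
  rw [mem_vertexSet] at hx
  obtain ⟨z, hz, rfl⟩ := hx
  rw [mem_dilate] at hz
  obtain ⟨v, hv, rfl⟩ := hz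
  apply hV (toR v) (mem_vertexSet.mpr ⟨v, hv, rfl⟩)
  have h1 : ((vertexSet (dilate k V) : Set (ℝ × ℝ)) \ {toR (k • v)}) ⊆
      (k : ℝ) • ((vertexSet V : Set (ℝ × ℝ)) \ {toR v}) := by
    rintro y ⟨hy1, hy2⟩
    rw [Finset.mem_coe, mem_vertexSet] at hy1
    obtain ⟨w', hw', rfl⟩ := hy1
    rw [mem_dilate] at hw'
    obtain ⟨w, hw, rfl⟩ := hw'
    refine ⟨toR w, ⟨mem_vertexSet.mpr ⟨w, hw, rfl⟩, ?_⟩, (toR_smul k w).symm⟩
    intro h
    apply hy2
    rw [Set.mem_singleton_iff] at h ⊢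
    rw [toR_smul, toR_smul, h]
  have h2 := convexHull_mono (𝕜 := ℝ) h1 hcon
  rw [convexHull_smul, toR_smul] at h2
  obtain ⟨y, hy, hyv⟩ := h2
  have h3 : y = toR v := smul_right_injective (ℝ × ℝ) hkr.ne' hyv
  rw [h3] at hy; exact hy

theorem detZ_smul (k : ℤ) (a b c d : ℤ × ℤ) :
    detZ (k • a - k • b) (k • c - k • d) = k ^ 2 * detZ (a - b) (c - d) := by
  unfold detZ
  simp only [Prod.fst_sub, Prod.snd_sub, Prod.smul_fst, Prod.smul_snd, smul_eq_mul]
  ring

theorem edge_dilate {k : ℤ} (hk : 0 < k) {V : Finset (ℤ × ℤ)} {x y : ℤ × ℤ}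
    (h : IsEdgeZ (dilate k V) x y) : ∃ a b, IsEdgeZ V a b ∧ k • a = x ∧ k • b = y := by
  obtain ⟨h1, h2, h3, h4⟩ := h
  rw [mem_dilate] at h1 h2
  obtain ⟨a, ha, rfl⟩ := h1
  obtain ⟨b, hb, rfl⟩ := h2
  refine ⟨a, b, ⟨ha, hb, fun h => h3 (by rw [h]), ?_⟩, rfl, rfl⟩
  intro c hc hca hcb
  have h5 := h4 (k • c) (mem_dilate.mpr ⟨c, hc, rfl⟩) (fun h => hca (smul_inj hk h))
    (fun h => hcb (smul_inj hk h))
  rw [detZ_smul] at h5
  exact (mul_pos_iff_of_pos_left (by positivity)).mp h5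

theorem glen_smul {k : ℤ} (hk : 0 < k) (x : ℤ × ℤ) : glen (k • x) = k * glen x := by
  unfold glen
  simp only [Prod.smul_fst, Prod.smul_snd, smul_eq_mul]
  rw [Int.gcd_mul_left]
  push_cast
  rw [abs_of_pos hk]

/-- the criterion holds at an edge of all large dilates -/
theorem edge_point_dilate {a b c d : ℤ × ℤ} (hab : a ≠ b) (h1 : 0 < detZ (a - c) (b - a))
    (h2 : 0 < detZ (b - a) (d - b)) :
    ∃ k0 : ℤ, ∀ k : ℤ, k0 ≤ k → 0 < k → EdgeHasPoint (k • a) (k • b) (k • c) (k • d) := by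
  have hne : b - a ≠ 0 := by
    intro h
    exact hab (sub_eq_zero.mp h).symm
  set g := glen (b - a) with hg
  have hgpos : 0 < g := glen_pos hne
  obtain ⟨u1, hu1⟩ : g ∣ (b - a).1 := Int.gcd_dvd_left _ _
  obtain ⟨u2, hu2⟩ : g ∣ (b - a).2 := Int.gcd_dvd_right _ _
  obtain ⟨s, r, hsr⟩ : ∃ s r : ℤ, u1 * s + u2 * r = 1 := by
    have h1 := Int.gcd_eq_gcd_ab (b - a).1 (b - a).2
    refine ⟨Int.gcdA (b - a).1 (b - a).2, Int.gcdB (b - a).1 (b - a).2, ?_⟩
    have h2 : g * (u1 * Int.gcdA (b - a).1 (b - a).2 + u2 * Int.gcdB (b - a).1 (b - a).2) = g * 1 := by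
      have h3 : g = (b - a).1 * Int.gcdA (b - a).1 (b - a).2 +
          (b - a).2 * Int.gcdB (b - a).1 (b - a).2 := h1
      calc g * (u1 * Int.gcdA (b - a).1 (b - a).2 + u2 * Int.gcdB (b - a).1 (b - a).2)
          = (g * u1) * Int.gcdA (b - a).1 (b - a).2 + (g * u2) * Int.gcdB (b - a).1 (b - a).2 := by
            ring
        _ = (b - a).1 * Int.gcdA (b - a).1 (b - a).2 +
            (b - a).2 * Int.gcdB (b - a).1 (b - a).2 := by rw [← hu1, ← hu2]
        _ = g * 1 := by rw [← h3]; ring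
    exact mul_left_cancel₀ hgpos.ne' h2
  set u : ℤ × ℤ := (u1, u2) with hu
  set w : ℤ × ℤ := (r, -s) with hw
  have hba : b - a = g • u := by
    rw [hu]; ext
    · simp only [Prod.smul_fst, smul_eq_mul]; exact hu1
    · simp only [Prod.smul_snd, smul_eq_mul]; exact hu2
  have hdetuw : detZ u w = -1 := by
    rw [hu, hw]; unfold detZ; linear_combination (-1) * hsr
  -- positivity of the slopes
  have hp1 : 0 < detZ (a - c) u := by
    have e : detZ (a - c) (b - a) = g * detZ (a - c) u := by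
      rw [hba]; unfold detZ; simp only [Prod.smul_fst, Prod.smul_snd, smul_eq_mul]; ring
    rw [e] at h1
    exact (mul_pos_iff_of_pos_left hgpos).mp h1
  have hp2 : 0 < detZ u (d - b) := by
    have e : detZ (b - a) (d - b) = g * detZ u (d - b) := by
      rw [hba]; unfold detZ; simp only [Prod.smul_fst, Prod.smul_snd, smul_eq_mul]; ring
    rw [e] at h2
    exact (mul_pos_iff_of_pos_left hgpos).mp h2
  -- choose t
  set t : ℤ := |detZ (a - c) w| + 1 with ht
  refine ⟨t + |detZ (d - b) w| + 1, ?_⟩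
  intro k hk hkpos
  refine ⟨k • a + t • u + w, ?_, ?_, ?_⟩
  · have e1 : k • b - k • a = (k * g) • u := by
      rw [← smul_sub, hba, smul_smul]
    have e2 : glen (k • b - k • a) = k * g := by
      rw [← smul_sub, glen_smul hkpos]
    rw [e2, e1]
    have e3 : detZ ((k * g) • u) (k • a + t • u + w - k • a) = k * g * detZ u w := by
      unfold detZ
      simp only [Prod.fst_sub, Prod.snd_sub, Prod.fst_add, Prod.snd_add, Prod.smul_fst,
        Prod.smul_snd, smul_eq_mul]
      ring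
    rw [e3, hdetuw]; ring
  · have e3 : detZ (k • a - k • c) (k • a + t • u + w - k • c) =
        k * (t * detZ (a - c) u + detZ (a - c) w) := by
      unfold detZ
      simp only [Prod.fst_sub, Prod.snd_sub, Prod.fst_add, Prod.snd_add, Prod.smul_fst,
        Prod.smul_snd, smul_eq_mul]
      ring
    rw [e3]
    apply mul_pos hkpos
    have h3 := neg_abs_le (detZ (a - c) w)
    have h4 := abs_nonneg (detZ (a - c) w)
    have h5 : t * 1 ≤ t * detZ (a - c) u := by
      apply mul_le_mul_of_nonneg_left _ (by omega)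
      omega
    omega
  · have e3 : detZ (k • d - k • b) (k • a + t • u + w - k • b) =
        k * ((k * g - t) * detZ u (d - b) + detZ (d - b) w) := by
      have eb1 : b.1 = a.1 + g * u1 := by
        have := congrArg Prod.fst hba; simp at this; linarith
      have eb2 : b.2 = a.2 + g * u2 := by
        have := congrArg Prod.snd hba; simp at this; linarith
      unfold detZ
      simp only [Prod.fst_sub, Prod.snd_sub, Prod.fst_add, Prod.snd_add, Prod.smul_fst,
        Prod.smul_snd, smul_eq_mul, hu, eb1, eb2]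
      ring
    rw [e3]
    apply mul_pos hkpos
    have h3 := neg_abs_le (detZ (d - b) w)
    have h4 := abs_nonneg (detZ (d - b) w)
    have h6 : k ≤ k * g := by nlinarith
    have h5 : (k * g - t) * 1 ≤ (k * g - t) * detZ u (d - b) := by
      apply mul_le_mul_of_nonneg_left _ (by omega)
      omega
    omega

end Pool.Agent.Lib.MP_2d08ba_nt
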