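import Pool.Agent.Lib.MP_2d08ba_nt.Shell

set_option autoImplicit false

namespace Pool.Agent.Lib.MP_2d08ba_nt

open Real

/-- the linear functional in direction `θ` -/
noncomputable def dirf (θ : ℝ) (x : ℝ × ℝ) : ℝ := cos θ * x.1 + sin θ * x.2

theorem dirf_sub (θ : ℝ) (x y : ℝ × ℝ) : dirf θ (x - y) = dirf θ x - dirf θ y := by
  unfold dirf; simp only [Prod.fst_sub, Prod.snd_sub]; ring

theorem dirf_rot (θ0 τ : ℝ) (w : ℝ × ℝ) :
    dirf (θ0 + τ) w = dirf θ0 w * cos τ + (-(w.1 * sin θ0) + w.2 * cos θ0) * sin τ := by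
  unfold dirf; rw [cos_add, sin_add]; ring

theorem dirf_pos_iff {θ0 τ : ℝ} {w : ℝ × ℝ} (h : 0 < dirf θ0 w) :
    0 < dirf (θ0 + τ) w ↔
      0 < cos (τ - arctan ((-(w.1 * sin θ0) + w.2 * cos θ0) / dirf θ0 w)) := by
  set A := dirf θ0 w with hA
  set B := -(w.1 * sin θ0) + w.2 * cos θ0 with hB
  have h1 : dirf (θ0 + τ) w = A * √(1 + (B / A) ^ 2) * cos (τ - arctan (B / A)) := by
    rw [dirf_rot, cos_sub, cos_arctan, sin_arctan]
    have hs : √(1 + (B / A) ^ 2) ≠ 0 := by positivity
    field_simp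
    ring
  rw [h1]
  constructor
  · intro h2
    exact (mul_pos_iff_of_pos_left (by positivity)).mp h2
  · intro h2
    exact mul_pos (by positivity) h2

/-- The directions separating a point from a finite set form a periodic arc. -/
theorem arc_of_point {W : Finset (ℝ × ℝ)} (hW : W.Nonempty) {x : ℝ × ℝ}
    (hx : x ∉ convexHull ℝ (W : Set (ℝ × ℝ))) :
    ∃ l r : ℝ, l < r ∧ ∀ θ : ℝ, (∀ v ∈ W, 0 < dirf θ (x - v)) ↔
      ∃ k : ℤ, l < θ + k * (2 * π) ∧ θ + k * (2 * π) < r := by
  classical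
  -- separating direction
  obtain ⟨θ0, hθ0⟩ : ∃ θ0 : ℝ, ∀ v ∈ W, 0 < dirf θ0 (x - v) := by
    obtain ⟨f, u, hf1, hf2⟩ := geometric_hahn_banach_closed_point (convex_convexHull ℝ _)
      (W.finite_toSet.isClosed_convexHull ℝ) hx
    set z : ℂ := ⟨f (1, 0), f (0, 1)⟩ with hz
    refine ⟨z.arg, ?_⟩
    intro v hv
    have h1 : 0 < f (x - v) := by
      have := hf1 v (subset_convexHull ℝ _ hv)
      rw [map_sub]; linarith
    have h2 : f (x - v) = ‖z‖ * dirf z.arg (x - v) := by
      rw [clm_coord f (x - v)]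
      unfold dirf
      have e1 : ‖z‖ * cos z.arg = f (1, 0) := Complex.norm_mul_cos_arg z
      have e2 : ‖z‖ * sin z.arg = f (0, 1) := Complex.norm_mul_sin_arg z
      rw [← e1, ← e2]; ring
    rw [h2] at h1
    by_contra hcon
    push Not at hcon
    have := mul_nonpos_of_nonneg_of_nonpos (norm_nonneg z) hcon
    linarith
  let ψ : ℝ × ℝ → ℝ := fun v =>
    arctan ((-((x - v).1 * sin θ0) + (x - v).2 * cos θ0) / dirf θ0 (x - v))
  obtain ⟨v1, hv1, hmax⟩ := Finset.exists_max_image W ψ hW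
  obtain ⟨v2, hv2, hmin⟩ := Finset.exists_min_image W ψ hW
  have hb1 : ψ v1 < π / 2 := arctan_lt_pi_div_two _
  have hb2 : -(π / 2) < ψ v2 := neg_pi_div_two_lt_arctan _
  have hpi := Real.pi_pos
  refine ⟨θ0 + ψ v1 - π / 2, θ0 + ψ v2 + π / 2, by linarith, ?_⟩
  intro θ
  -- iff for a representative
  have key : ∀ τ : ℝ, -π < τ → τ ≤ π → ((∀ v ∈ W, 0 < dirf (θ0 + τ) (x - v)) ↔
      (ψ v1 - π / 2 < τ ∧ τ < ψ v2 + π / 2)) := by
    intro τ hτ1 hτ2
    constructor
    · intro h
      have hall : ∀ v ∈ W, |τ - ψ v| < π / 2 := by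
        intro v hv
        have h1 := (dirf_pos_iff (hθ0 v hv)).mp (h v hv)
        have h2 : 0 < cos (τ - ψ v) := h1
        have h3 : ψ v < π / 2 := arctan_lt_pi_div_two _
        have h4 : -(π / 2) < ψ v := neg_pi_div_two_lt_arctan _
        by_contra hcon
        push Not at hcon
        have h5 : cos |τ - ψ v| ≤ 0 := by
          apply Real.cos_nonpos_of_pi_div_two_le_of_le hcon
          rw [abs_le]
          constructor <;> linarith
        rw [Real.cos_abs] at h5
        linarith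
      have h1 := abs_lt.mp (hall v1 hv1)
      have h2 := abs_lt.mp (hall v2 hv2)
      constructor <;> linarith
    · rintro ⟨h1, h2⟩ v hv
      rw [dirf_pos_iff (hθ0 v hv)]
      apply Real.cos_pos_of_mem_Ioo
      have h3 := hmax v hv
      have h4 := hmin v hv
      have h5 : ψ v = arctan ((-((x - v).1 * sin θ0) + (x - v).2 * cos θ0) / dirf θ0 (x - v)) := rfl
      rw [Set.mem_Ioo, ← h5]
      constructor <;> linarith
  have hper : ∀ (k : ℤ) (y : ℝ × ℝ), dirf (θ + k * (2 * π)) y = dirf θ y := by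
    intro k y
    unfold dirf
    rw [Real.cos_add_int_mul_two_pi, Real.sin_add_int_mul_two_pi]
  constructor
  · intro h
    obtain ⟨k, hk, _⟩ := existsUnique_add_zsmul_mem_Ioc (by linarith : (0 : ℝ) < 2 * π) (θ - θ0) (-π)
    rw [Set.mem_Ioc, zsmul_eq_mul] at hk
    have h1 := (key (θ - θ0 + k * (2 * π)) hk.1 (by linarith [hk.2])).mp ?_
    · exact ⟨k, by linarith [h1.1], by linarith [h1.2]⟩
    · intro v hv
      have e : θ0 + (θ - θ0 + k * (2 * π)) = θ + k * (2 * π) := by ring
      rw [e, hper]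
      exact h v hv
  · rintro ⟨k, hk1, hk2⟩ v hv
    have h3 : ψ v1 < π / 2 := hb1
    have h4 : ψ v2 ≤ ψ v1 := (hmin v1 hv1)
    have h1 := (key (θ + k * (2 * π) - θ0) (by
      have : -(π / 2) < ψ v1 := neg_pi_div_two_lt_arctan _
      linarith) (by
      have : ψ v2 < π / 2 := arctan_lt_pi_div_two _
      linarith)).mpr ⟨by linarith, by linarith⟩ v hv
    have e : θ0 + (θ + k * (2 * π) - θ0) = θ + k * (2 * π) := by ring
    rw [e, hper] at h1
    exact h1

/-- Duality, the difficult direction. -/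
theorem exists_family {m : ℕ} {V : Finset (ℤ × ℤ)} (hcard : 3 ≤ V.card)
    (hV : ConvexPos (vertexSet V)) (hno : ¬ Realizable m (poly V)) :
    ∃ w : ℕ, 1 ≤ w ∧ w ≤ (shell V).ncard ∧ ∃ x : Fin (w * (m + 1) + 1) → ℤ × ℤ,
      (∀ i, x i ∈ shell V) ∧ ∀ α β γ : ℝ, (∀ v ∈ V, α * v.1 + β * v.2 < γ) →
        ∀ S : Finset (Fin (w * (m + 1) + 1)), (∀ i ∈ S, γ ≤ α * (x i).1 + β * (x i).2) →
          S.card ≤ w := by
  classical
  set W := vertexSet V with hW
  have hWne : W.Nonempty := by rw [← Finset.card_pos, hW, card_vertexSet]; omega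
  have hfin := shell_finite hcard hV
  have : Fintype (shell V) := hfin.fintype
  -- the shell is nonempty
  have hne : Nonempty (shell V) := by
    by_contra hcon
    rw [not_nonempty_iff] at hcon
    apply hno
    refine realizable_of_functionals (ι := Fin (m + 1)) (by simp) hWne (vertexSet_lattice V)
      (fun _ => (0, 0, 1)) (fun _ _ _ => by unfold aff; simp) ?_
    rintro z ⟨z', rfl⟩ hz
    obtain ⟨x, hx, _⟩ := exists_shell (V := V) (z := z') hz
    exact (hcon.false ⟨x, hx⟩).elim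
  have harc : ∀ x : shell V, ∃ l r : ℝ, l < r ∧ ∀ θ : ℝ,
      (∀ v ∈ W, 0 < dirf θ (toR x.1 - v)) ↔
        ∃ k : ℤ, l < θ + k * (2 * π) ∧ θ + k * (2 * π) < r := fun x => arc_of_point hWne x.2.1
  choose l r hlr hiff using harc
  have h2pi : (0 : ℝ) < 2 * π := by have := Real.pi_pos; linarith
  obtain ⟨w, hw1, hw2, x, hx⟩ := arcs (l := l) (r := r) h2pi hlr (N := m + 1) (by omega) (by
    -- no m + 1 directions pierce all arcs
    intro θ
    by_contra hcon
    push Not at hcon
    -- support numbers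
    have hsup : ∀ j : Fin (m + 1), ∃ v ∈ W, ∀ v' ∈ W, dirf (θ j) v' ≤ dirf (θ j) v :=
      fun j => Finset.exists_max_image W (dirf (θ j)) hWne
    choose s hsW hs using hsup
    choose jx hjx using hcon
    have hgap : ∀ x : shell V, 0 < dirf (θ (jx x)) (toR x.1) - dirf (θ (jx x)) (s (jx x)) := by
      intro x
      have h1 := (hiff x (θ (jx x))).mpr (hjx x) (s (jx x)) (hsW _)
      rw [dirf_sub] at h1
      exact h1
    obtain ⟨x0, hx0⟩ := Finite.exists_min
      (fun x : shell V => dirf (θ (jx x)) (toR x.1) - dirf (θ (jx x)) (s (jx x)))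
    set δ : ℝ := (dirf (θ (jx x0)) (toR x0.1) - dirf (θ (jx x0)) (s (jx x0))) / 2 with hδ
    have hδ0 : 0 < δ := by rw [hδ]; have := hgap x0; linarith
    apply hno
    refine realizable_of_functionals (ι := Fin (m + 1)) (by simp) hWne (vertexSet_lattice V)
      (fun j => (-cos (θ j), -sin (θ j), dirf (θ j) (s j) + δ)) ?_ ?_
    · intro j v hv
      have h1 := hs j v hv
      unfold aff
      unfold dirf at h1 ⊢
      simp only
      linarith
    · rintro z ⟨z', rfl⟩ hz
      obtain ⟨x, hx, hxz⟩ := exists_shell (V := V) (z := z') hz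
      refine ⟨jx ⟨x, hx⟩, ?_⟩
      by_contra hcon2
      push Not at hcon2
      have h1 : toR x ∈ {y : ℝ × ℝ | 0 ≤ aff (-cos (θ (jx ⟨x, hx⟩)), -sin (θ (jx ⟨x, hx⟩)),
          dirf (θ (jx ⟨x, hx⟩)) (s (jx ⟨x, hx⟩)) + δ) y} := by
        refine convexHull_min ?_ (aff_nonneg_convex _) hxz
        intro y hy
        rcases hy with rfl | hy
        · exact hcon2
        · have h1 := hs (jx ⟨x, hx⟩) y hy
          simp only [Set.mem_ofPred_eq]
          unfold aff
          unfold dirf at h1 ⊢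
          simp only
          linarith
      have h2 := hx0 ⟨x, hx⟩
      simp only [Set.mem_ofPred_eq] at h1
      unfold aff at h1
      unfold dirf at h1 h2
      simp only at h1 h2
      have h3 : δ + δ = dirf (θ (jx x0)) (toR x0.1) - dirf (θ (jx x0)) (s (jx x0)) := by
        rw [hδ]; ring
      unfold dirf at h3
      linarith)
  refine ⟨w, hw1, ?_, fun i => (x i).1, fun i => (x i).2, ?_⟩
  · rw [Set.ncard_eq_toFinset_card' (shell V), Set.toFinset_card]
    exact hw2
  · intro α β γ hV' S hS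
    rcases S.eq_empty_or_nonempty with h0 | ⟨i0, hi0⟩
    · rw [h0]; simp
    set z : ℂ := ⟨α, β⟩ with hz
    have hcoord : ∀ y : ℝ × ℝ, α * y.1 + β * y.2 = ‖z‖ * dirf z.arg y := by
      intro y
      unfold dirf
      have e1 : ‖z‖ * cos z.arg = α := Complex.norm_mul_cos_arg z
      have e2 : ‖z‖ * sin z.arg = β := Complex.norm_mul_sin_arg z
      calc α * y.1 + β * y.2 = (‖z‖ * cos z.arg) * y.1 + (‖z‖ * sin z.arg) * y.2 := by
            rw [e1, e2]
        _ = _ := by ring
    apply hx z.arg S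
    intro i hi
    have h1 := hS i hi
    show ∃ k : ℤ, l (x i) < z.arg + k * (2 * π) ∧ z.arg + k * (2 * π) < r (x i)
    rw [← hiff (x i) z.arg]
    intro v hv
    obtain ⟨v', hv', rfl⟩ := mem_vertexSet.mp hv
    have h2 := hV' v' hv'
    have h3 : 0 < ‖z‖ * dirf z.arg (toR (x i).1 - toR v') := by
      rw [← hcoord]
      simp only [Prod.fst_sub, Prod.snd_sub]
      unfold toR
      simp only
      linarith
    by_contra hcon
    push Not at hcon
    have := mul_nonpos_of_nonneg_of_nonpos (norm_nonneg z) hcon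
    linarith

end Pool.Agent.Lib.MP_2d08ba_nt
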