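import Pool.Agent.Lib.MP_2d08ba_nt.Directions
import Pool.Agent.Lib.MP_2d08ba_nt.Circle

set_option autoImplicit false

namespace Pool.Agent.Lib.MP_2d08ba_nt

open Real

/-- the unit vector obtained by turning the direction `θ` by a right angle counterclockwise -/
noncomputable def tau (θ : ℝ) : ℝ × ℝ := (-sin θ, cos θ)

theorem dirf_tau (θ φ : ℝ) : dirf θ (tau φ) = sin (θ - φ) := by
  unfold dirf tau; rw [sin_sub]; ring

theorem det_tau (θ φ : ℝ) : det (tau θ) (tau φ) = sin (φ - θ) := by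
  unfold det tau; rw [sin_sub]; ring

theorem det_tau_left (ν : ℝ) (w : ℝ × ℝ) : det (tau ν) w = -dirf ν w := by
  unfold det tau dirf; ring

theorem dirf_add (θ : ℝ) (x y : ℝ × ℝ) : dirf θ (x + y) = dirf θ x + dirf θ y := by
  unfold dirf; simp only [Prod.fst_add, Prod.snd_add]; ring

theorem dirf_smul (θ c : ℝ) (x : ℝ × ℝ) : dirf θ (c • x) = c * dirf θ x := by
  unfold dirf; simp only [Prod.smul_fst, Prod.smul_snd, smul_eq_mul]; ring

theorem dirf_neg (θ : ℝ) (x : ℝ × ℝ) : dirf θ (-x) = -dirf θ x := by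
  unfold dirf; simp only [Prod.fst_neg, Prod.snd_neg]; ring

theorem dirf_add_pi (θ : ℝ) (x : ℝ × ℝ) : dirf (θ + π) x = -dirf θ x := by
  unfold dirf; rw [cos_add_pi, sin_add_pi]; ring

theorem dirf_sub_pi (θ : ℝ) (x : ℝ × ℝ) : dirf (θ - π) x = -dirf θ x := by
  unfold dirf; rw [cos_sub_pi, sin_sub_pi]; ring

theorem tau_add_pi (θ : ℝ) : tau (θ + π) = -tau θ := by
  unfold tau; rw [cos_add_pi, sin_add_pi]; rfl

theorem tau_sub_pi (θ : ℝ) : tau (θ - π) = -tau θ := by
  unfold tau; rw [cos_sub_pi, sin_sub_pi]; rfl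

theorem tau_period (θ : ℝ) (k : ℤ) : tau (θ + k * (2 * π)) = tau θ := by
  unfold tau; rw [Real.cos_add_int_mul_two_pi, Real.sin_add_int_mul_two_pi]

theorem dirf_period (θ : ℝ) (k : ℤ) (x : ℝ × ℝ) : dirf (θ + k * (2 * π)) x = dirf θ x := by
  unfold dirf; rw [Real.cos_add_int_mul_two_pi, Real.sin_add_int_mul_two_pi]

/-- a vector orthogonal to the direction `θ` is a multiple of `tau θ` -/
theorem eq_tau_of_dirf_zero {θ : ℝ} {w : ℝ × ℝ} (h : dirf θ w = 0) :
    w = (-sin θ * w.1 + cos θ * w.2) • tau θ := by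
  unfold dirf at h
  have h1 := sin_sq_add_cos_sq θ
  unfold tau
  ext
  · simp only [Prod.smul_fst, smul_eq_mul]
    linear_combination (-w.1) * h1 + cos θ * h
  · simp only [Prod.smul_snd, smul_eq_mul]
    linear_combination (-w.2) * h1 + sin θ * h

/-- polar form of a nonzero vector -/
theorem exists_tau {w : ℝ × ℝ} (hw : w ≠ 0) : ∃ ν μ : ℝ, 0 < μ ∧ w = μ • tau ν := by
  set z : ℂ := ⟨w.2, -w.1⟩ with hz
  refine ⟨z.arg, ‖z‖, ?_, ?_⟩
  · rw [norm_pos_iff]
    intro h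
    apply hw
    rw [hz, Complex.ext_iff] at h
    simp only [Complex.zero_re, Complex.zero_im] at h
    exact Prod.ext (by simpa using h.2) (by simpa using h.1)
  · have e1 : ‖z‖ * cos z.arg = w.2 := Complex.norm_mul_cos_arg z
    have e2 : ‖z‖ * sin z.arg = -w.1 := Complex.norm_mul_sin_arg z
    unfold tau
    ext
    · simp only [Prod.smul_fst, smul_eq_mul]; linarith
    · simp only [Prod.smul_snd, smul_eq_mul]; linarith

/-- `(L, R)` is a lift of the arc of directions separating `x` from `W`. -/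
structure IsArc (W : Finset (ℝ × ℝ)) (x : ℝ × ℝ) (L R : ℝ) : Prop where
  lt : L < R
  iff : ∀ θ : ℝ, (∀ v ∈ W, 0 < dirf θ (x - v)) ↔ ∃ k : ℤ, L < θ + k * (2 * π) ∧ θ + k * (2 * π) < R

theorem exists_isArc {W : Finset (ℝ × ℝ)} (hW : W.Nonempty) {x : ℝ × ℝ}
    (hx : x ∉ convexHull ℝ (W : Set (ℝ × ℝ))) : ∃ L R, IsArc W x L R := by
  obtain ⟨l, r, h1, h2⟩ := arc_of_point hW hx
  exact ⟨l, r, h1, h2⟩

section arc

variable {W : Finset (ℝ × ℝ)} {x : ℝ × ℝ} {L R : ℝ}

theorem IsArc.pos (h : IsArc W x L R) {θ : ℝ} (h1 : L < θ) (h2 : θ < R) {v : ℝ × ℝ} (hv : v ∈ W) :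
    0 < dirf θ (x - v) :=
  (h.iff θ).mpr ⟨0, by simpa using h1, by simpa using h2⟩ v hv

theorem IsArc.le (h : IsArc W x L R) (hW : W.Nonempty) : R ≤ L + π := by
  by_contra hcon
  push Not at hcon
  obtain ⟨v, hv⟩ := hW
  have hpi := Real.pi_pos
  have h1 := h.pos (θ := (L + R - π) / 2) (by linarith) (by linarith) hv
  have h2 := h.pos (θ := (L + R - π) / 2 + π) (by linarith) (by linarith) hv
  rw [dirf_add_pi] at h2
  linarith

theorem IsArc.shift (h : IsArc W x L R) (j : ℤ) :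
    IsArc W x (L + j * (2 * π)) (R + j * (2 * π)) := by
  refine ⟨by linarith [h.lt], ?_⟩
  intro θ
  rw [h.iff]
  constructor
  · rintro ⟨k, h1, h2⟩
    exact ⟨k + j, by push_cast; linarith, by push_cast; linarith⟩
  · rintro ⟨k, h1, h2⟩
    exact ⟨k - j, by push_cast; linarith, by push_cast; linarith⟩

theorem continuous_dirf (w : ℝ × ℝ) : Continuous (fun θ : ℝ => dirf θ w) := by
  unfold dirf
  fun_prop

theorem IsArc.nonneg (h : IsArc W x L R) {θ : ℝ} (h1 : L ≤ θ) (h2 : θ ≤ R) {v : ℝ × ℝ}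
    (hv : v ∈ W) : 0 ≤ dirf θ (x - v) := by
  have hcl : IsClosed {θ : ℝ | 0 ≤ dirf θ (x - v)} :=
    isClosed_le continuous_const (continuous_dirf _)
  have hsub : closure (Set.Ioo L R) ⊆ {θ : ℝ | 0 ≤ dirf θ (x - v)} := by
    apply closure_minimal _ hcl
    intro φ hφ
    exact (h.pos hφ.1 hφ.2 hv).le
  apply hsub
  rw [closure_Ioo h.lt.ne]
  exact ⟨h1, h2⟩

theorem IsArc.right_zero (h : IsArc W x L R) (hW : W.Nonempty) :
    ∃ b ∈ W, dirf R (x - b) = 0 := by
  by_contra hcon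
  push Not at hcon
  have hall : ∀ v ∈ W, 0 < dirf R (x - v) := fun v hv =>
    lt_of_le_of_ne (h.nonneg h.lt.le le_rfl hv) (Ne.symm (hcon v hv))
  obtain ⟨k, hk1, hk2⟩ := (h.iff R).mp hall
  have hle := h.le hW
  have hpi := Real.pi_pos
  have hk : (k : ℝ) * (2 * π) < 0 := by linarith
  have hk0 : (k : ℝ) < 0 := by
    by_contra hc
    push Not at hc
    have := mul_nonneg hc (by linarith : (0 : ℝ) ≤ 2 * π)
    linarith
  have hk' : k ≤ -1 := by
    have : k < 0 := by exact_mod_cast hk0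
    omega
  have hk'' : (k : ℝ) ≤ -1 := by exact_mod_cast hk'
  have := mul_le_mul_of_nonneg_right hk'' (by linarith : (0 : ℝ) ≤ 2 * π)
  linarith

theorem IsArc.left_zero (h : IsArc W x L R) (hW : W.Nonempty) :
    ∃ b ∈ W, dirf L (x - b) = 0 := by
  by_contra hcon
  push Not at hcon
  have hall : ∀ v ∈ W, 0 < dirf L (x - v) := fun v hv =>
    lt_of_le_of_ne (h.nonneg le_rfl h.lt.le hv) (Ne.symm (hcon v hv))
  obtain ⟨k, hk1, hk2⟩ := (h.iff L).mp hall
  have hle := h.le hW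
  have hpi := Real.pi_pos
  have hk : 0 < (k : ℝ) * (2 * π) := by linarith
  have hk0 : (0 : ℝ) < k := by
    by_contra hc
    push Not at hc
    have := mul_nonneg (neg_nonneg.mpr hc) (by linarith : (0 : ℝ) ≤ 2 * π)
    linarith
  have hk' : 1 ≤ k := by
    have : 0 < k := by exact_mod_cast hk0
    omega
  have hk'' : (1 : ℝ) ≤ k := by exact_mod_cast hk'
  have := mul_le_mul_of_nonneg_right hk'' (by linarith : (0 : ℝ) ≤ 2 * π)
  linarith

/-- a boundary vertex at the right end lies ahead of `x` -/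
theorem IsArc.right_eq (h : IsArc W x L R) (hW : W.Nonempty) {b : ℝ × ℝ} (hb : b ∈ W)
    (h0 : dirf R (x - b) = 0) : ∃ lam : ℝ, 0 < lam ∧ x - b = (-lam) • tau R := by
  have h1 := eq_tau_of_dirf_zero h0
  set μ := -sin R * (x - b).1 + cos R * (x - b).2 with hμ
  have h2 := h.pos (θ := (L + R) / 2) (by linarith [h.lt]) (by linarith [h.lt]) hb
  rw [h1, dirf_smul, dirf_tau] at h2
  have hle := h.le hW
  have hlt := h.lt
  have hpi := Real.pi_pos
  have h3 : sin ((L + R) / 2 - R) < 0 :=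
    sin_neg_of_neg_of_neg_pi_lt (by linarith) (by linarith)
  refine ⟨-μ, ?_, by rw [neg_neg]; exact h1⟩
  by_contra hcon
  push Not at hcon
  have : μ * sin ((L + R) / 2 - R) ≤ 0 := mul_nonpos_of_nonneg_of_nonpos (by linarith) h3.le
  linarith

/-- a boundary vertex at the left end lies behind `x` -/
theorem IsArc.left_eq (h : IsArc W x L R) (hW : W.Nonempty) {b : ℝ × ℝ} (hb : b ∈ W)
    (h0 : dirf L (x - b) = 0) : ∃ lam : ℝ, 0 < lam ∧ x - b = lam • tau L := by
  have h1 := eq_tau_of_dirf_zero h0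
  set μ := -sin L * (x - b).1 + cos L * (x - b).2 with hμ
  have h2 := h.pos (θ := (L + R) / 2) (by linarith [h.lt]) (by linarith [h.lt]) hb
  rw [h1, dirf_smul, dirf_tau] at h2
  have hle := h.le hW
  have hlt := h.lt
  have hpi := Real.pi_pos
  have h3 : 0 < sin ((L + R) / 2 - L) :=
    sin_pos_of_pos_of_lt_pi (by linarith) (by linarith)
  refine ⟨μ, ?_, h1⟩
  by_contra hcon
  push Not at hcon
  have : μ * sin ((L + R) / 2 - L) ≤ 0 := mul_nonpos_of_nonpos_of_nonneg hcon h3.le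
  linarith

/-- a direction close to a lift and piercing lies in this lift -/
theorem IsArc.mem_of_pos (h : IsArc W x L R) (hW : W.Nonempty) {θ : ℝ}
    (hθ : ∀ v ∈ W, 0 < dirf θ (x - v)) (h1 : θ < R) (h2 : R < θ + π) : L < θ := by
  obtain ⟨k, hk1, hk2⟩ := (h.iff θ).mp hθ
  have hle := h.le hW
  have hlt := h.lt
  have hpi := Real.pi_pos
  rcases lt_trichotomy k 0 with hk | hk | hk
  · have hk' : (k : ℝ) ≤ -1 := by exact_mod_cast (by omega : k ≤ -1)
    have := mul_le_mul_of_nonneg_right hk' (by linarith : (0 : ℝ) ≤ 2 * π)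
    linarith
  · subst hk; simpa using hk1
  · have hk' : (1 : ℝ) ≤ k := by exact_mod_cast (by omega : 1 ≤ k)
    have := mul_le_mul_of_nonneg_right hk' (by linarith : (0 : ℝ) ≤ 2 * π)
    linarith

theorem IsArc.mem_of_pos' (h : IsArc W x L R) (hW : W.Nonempty) {θ : ℝ}
    (hθ : ∀ v ∈ W, 0 < dirf θ (x - v)) (h1 : L < θ) (h2 : θ < L + π) : θ < R := by
  obtain ⟨k, hk1, hk2⟩ := (h.iff θ).mp hθ
  have hle := h.le hW
  have hlt := h.lt
  have hpi := Real.pi_pos
  rcases lt_trichotomy k 0 with hk | hk | hk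
  · have hk' : (k : ℝ) ≤ -1 := by exact_mod_cast (by omega : k ≤ -1)
    have := mul_le_mul_of_nonneg_right hk' (by linarith : (0 : ℝ) ≤ 2 * π)
    linarith
  · subst hk; simpa using hk2
  · have hk' : (1 : ℝ) ≤ k := by exact_mod_cast (by omega : 1 ≤ k)
    have := mul_le_mul_of_nonneg_right hk' (by linarith : (0 : ℝ) ≤ 2 * π)
    linarith

end arc

end Pool.Agent.Lib.MP_2d08ba_nt
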