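import Pool.Agent.Lib.MP_2d08ba_nt.Chain

set_option autoImplicit false

namespace Pool.Agent.Lib.MP_2d08ba_nt

open Real

variable {V : Finset (ℤ × ℤ)} [Fintype (shell V)] [Nonempty (shell V)] {l r : shell V → ℝ}

/-- the greedy value at a generic right end is the strict greedy value at the last normal -/
theorem Fm_eq_of_isG (hcard : 3 ≤ V.card) (harc : ArcSys V l r) {a b c : ℤ × ℤ} {ν ν' : ℝ}
    (h : Cons V a b c ν ν') {x : shell V} {L R : ℝ} (hx : Lift l r (2 * π) x L R)
    (h1 : ν < R) (h2 : R < ν') {α : ℝ} (hG : IsG l r (2 * π) ν α) :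
    Fm l r two_pi_pos R = α := by
  apply le_antisymm
  · obtain ⟨y, L', hy, hL'⟩ := hG.1
    exact Fm_le two_pi_pos hy
      (klem hcard h x.2 y.2 (lift_arc harc hx) (lift_arc harc hy) h1 h2 hL')
  · obtain ⟨u, Lu, hu, hle⟩ := Fm_lift (l := l) (r := r) two_pi_pos R
    exact hG.2 u Lu _ hu (by linarith)

/-- Two adjacent edges with strictly inner shell points: the greedy map closes within one turn. -/
theorem closes_one (hcard : 3 ≤ V.card) (hV : ConvexPos (vertexSet V)) (harc : ArcSys V l r)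
    {N : ℕ} (hN1 : 1 ≤ N) (hK : ∀ θ, (Fm l r two_pi_pos)^[N] θ < θ + 2 * π)
    (H : ∀ w : ℕ, 1 ≤ w → w ≤ 1 → ∀ y, y + w * (2 * π) < (Fm l r two_pi_pos)^[w * N + 1] y)
    {z a b c d : ℤ × ℤ} (hz : IsEdgeZ V z a) (hab : IsEdgeZ V a b) (hbc : IsEdgeZ V b c)
    (hcd : IsEdgeZ V c d) {x x' : shell V} (hx : detZ (b - a) (x.1 - b) < 0)
    (hx1 : 0 < detZ (a - z) (x.1 - a)) (hx2 : 0 < detZ (c - b) (x.1 - b))
    (hx' : detZ (c - b) (x'.1 - b) < 0) (hx1' : 0 < detZ (b - a) (x'.1 - b))
    (hx2' : 0 < detZ (d - c) (x'.1 - c)) : False := by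
  have hlr : ∀ x, l x < r x := fun x => (harc x).lt
  -- lifted edges
  obtain ⟨ν, hν, _⟩ := exists_LE hab 0
  obtain ⟨c', ν', h⟩ := hν.next hcard hV
  have hcc : c' = c := by
    have := next_unique (edge_iff.mpr h.e'.edge) (edge_iff.mpr hbc)
    exact toR_injective this
  subst hcc
  obtain ⟨d', ν'', h'⟩ := h.e'.next hcard hV
  have hdd : d' = d := by
    have := next_unique (edge_iff.mpr h'.e'.edge) (edge_iff.mpr hcd)
    exact toR_injective this
  subst hdd
  obtain ⟨z', ν0, h0⟩ := h.e.prev hcard hV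
  have hzz : z' = z := by
    have := prev_unique (edge_iff.mpr h0.e.edge) (edge_iff.mpr hz)
    exact toR_injective this
  subst hzz
  obtain ⟨p0, hp0⟩ := exists_prim h0.e.edge
  obtain ⟨p, hp⟩ := exists_prim h.e.edge
  -- lifts
  obtain ⟨L, R, hl, hL, hR⟩ := exists_lift_at harc h.e x hx
  have hxa := lift_arc harc hl
  have hR' := h.right_lt hcard hxa hL hx2
  obtain ⟨L', R', hl', hL', hRν'⟩ := exists_lift_at harc h.e' x' (by rw [detZ_base]; exact hx')
  have hxa' := lift_arc harc hl'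
  have hR'' := h'.right_lt hcard hxa' hL' hx2'
  have hL'ν := h.left_gt hcard hxa' hRν' hx1'
  -- strict greedy values
  obtain ⟨α, hα⟩ := exists_isG (l := l) (r := r) (T := 2 * π) two_pi_pos ν
  obtain ⟨α', hα'⟩ := exists_isG (l := l) (r := r) (T := 2 * π) two_pi_pos ν'
  have hF1 := Fm_eq_of_isG hcard harc h hl hR hR' hα
  have hαR' : α ≤ R' := hα.2 x' L' R' hl' hL'ν
  -- the window
  obtain ⟨e, _, he⟩ := window (W := 1) two_pi_pos hlr hN1 le_rfl hK H R
  obtain ⟨g1, g2, ⟨i, hi2, hi⟩, s, g3⟩ := he 0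
  have hwin := window_one hcard harc h0 h hp0 hp hl hR hR' rfl g3 g1 g2
  have heν : e 0 = Fm l r two_pi_pos ν := by
    rcases hwin with g | ⟨_, _, _, g⟩ | ⟨_, _, _, _, g⟩
    · exact g
    · exfalso
      have := (hp0.pos_iff _).mp hx1
      omega
    · exfalso
      have := (hp0.pos_iff _).mp hx1
      omega
  set β := e 0 with hβ
  rw [hF1] at g2
  -- β is the right end of an arc starting at ν
  obtain ⟨y0, L0, hy0, hL0⟩ := Fm_lift (l := l) (r := r) two_pi_pos ν
  rw [← heν] at hy0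
  have hy0a := lift_arc harc hy0
  have hL0ν : L0 = ν := by
    rcases lt_or_eq_of_le hL0 with g | g
    · exfalso
      have := hα.2 y0 L0 _ hy0 g
      linarith
    · exact g.symm
  have hβν' : ν' < β := by
    by_contra hcon
    push Not at hcon
    rcases lt_or_eq_of_le hcon with g | g
    · have := (h.right_signs hcard hy0a (by linarith) g).2.2
      linarith
    · have g4 := h.e'.right_on hcard hy0a g
      rw [detZ_base] at g4
      have g5 := h.e.left_on hcard hy0a hL0ν
      have hD := next_pos hcard h.e.edge h.e'.edge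
      -- y0 = b
      have hy0b : y0.1 = b := by
        have e1 : detZ (b - a) (c' - b) * (y0.1 - b).1 = 0 := by
          unfold detZ at g4 g5 ⊢
          linear_combination (c' - b).1 * g5 - (b - a).1 * g4
        have e2 : detZ (b - a) (c' - b) * (y0.1 - b).2 = 0 := by
          unfold detZ at g4 g5 ⊢
          linear_combination (c' - b).2 * g5 - (b - a).2 * g4
        have f1 : (y0.1 - b).1 = 0 := by
          rcases mul_eq_zero.mp e1 with g | g
          · omega
          · exact g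
        have f2 : (y0.1 - b).2 = 0 := by
          rcases mul_eq_zero.mp e2 with g | g
          · omega
          · exact g
        have : y0.1 - b = 0 := Prod.ext f1 f2
        exact sub_eq_zero.mp this
      apply y0.2.1
      rw [hy0b]
      exact subset_convexHull ℝ _ (mem_vertexSet.mpr ⟨b, h.e.edge.2.1, rfl⟩)
  have hFβ := Fm_eq_of_isG hcard harc h' hy0 hβν' (by linarith) hα'
  obtain ⟨y1, L1, hy1, _⟩ := hα.1
  have hFα := Fm_eq_of_isG hcard harc h' hy1 (by linarith) (by linarith) hα'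
  -- exact return after one turn
  obtain ⟨j, rfl⟩ : ∃ j, i = j + 2 := ⟨i - 2, by omega⟩
  have hret : (Fm l r two_pi_pos)^[j + 1] (Fm l r two_pi_pos (Fm l r two_pi_pos R)) =
      Fm l r two_pi_pos (Fm l r two_pi_pos R) + ((1 : ℕ) : ℝ) * (2 * π) := by
    have g4 : (Fm l r two_pi_pos)^[j + 3] R = Fm l r two_pi_pos (β + ((1 : ℤ) : ℝ) * (2 * π)) := by
      rw [Function.iterate_succ_apply', ← hi]
      congr 1
      push_cast
      simp [hβ]
    rw [Fm_add, hFβ] at g4
    rw [← Function.iterate_succ_apply, ← Function.iterate_succ_apply, hF1, hFα]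
    push_cast at g4 ⊢
    exact g4
  have h6 := H 1 le_rfl le_rfl (Fm l r two_pi_pos (Fm l r two_pi_pos R))
  have h7 := hK (Fm l r two_pi_pos (Fm l r two_pi_pos R))
  have hm : StrictMono (fun n : ℕ => (Fm l r two_pi_pos)^[n]
      (Fm l r two_pi_pos (Fm l r two_pi_pos R))) := Fm_iter_strict two_pi_pos hlr _
  rw [← hret] at h6
  have h8 := hm.lt_iff_lt.mp h6
  have h9 : (Fm l r two_pi_pos)^[N] (Fm l r two_pi_pos (Fm l r two_pi_pos R)) <
      (Fm l r two_pi_pos)^[j + 1] (Fm l r two_pi_pos (Fm l r two_pi_pos R)) := by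
    rw [hret]; push_cast; linarith
  have h10 := hm.lt_iff_lt.mp h9
  omega

/-- One edge with a strictly inner shell point: the greedy map closes within two turns. -/
theorem closes_two (hcard : 3 ≤ V.card) (hV : ConvexPos (vertexSet V)) (harc : ArcSys V l r)
    {N : ℕ} (hN1 : 1 ≤ N) (hK : ∀ θ, (Fm l r two_pi_pos)^[N] θ < θ + 2 * π)
    (H : ∀ w : ℕ, 1 ≤ w → w ≤ 2 → ∀ y, y + w * (2 * π) < (Fm l r two_pi_pos)^[w * N + 1] y)
    {z a b c : ℤ × ℤ} (hz : IsEdgeZ V z a) (hab : IsEdgeZ V a b) (hbc : IsEdgeZ V b c)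
    {x : shell V} (hx : detZ (b - a) (x.1 - b) < 0)
    (hx1 : 0 < detZ (a - z) (x.1 - a)) (hx2 : 0 < detZ (c - b) (x.1 - b)) : False := by
  have hlr : ∀ x, l x < r x := fun x => (harc x).lt
  obtain ⟨ν, hν, _⟩ := exists_LE hab 0
  obtain ⟨c', ν', h⟩ := hν.next hcard hV
  have hcc : c' = c := by
    have := next_unique (edge_iff.mpr h.e'.edge) (edge_iff.mpr hbc)
    exact toR_injective this
  subst hcc
  obtain ⟨z', ν0, h0⟩ := h.e.prev hcard hV
  have hzz : z' = z := by
    have := prev_unique (edge_iff.mpr h0.e.edge) (edge_iff.mpr hz)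
    exact toR_injective this
  subst hzz
  obtain ⟨p0, hp0⟩ := exists_prim h0.e.edge
  obtain ⟨p, hp⟩ := exists_prim h.e.edge
  obtain ⟨L, R, hl, hL, hR⟩ := exists_lift_at harc h.e x hx
  have hxa := lift_arc harc hl
  have hR' := h.right_lt hcard hxa hL hx2
  obtain ⟨e, hinj, he⟩ := window (W := 2) two_pi_pos hlr hN1 (by norm_num) hK H R
  have hall : ∀ k, e k = Fm l r two_pi_pos ν := by
    intro k
    obtain ⟨g1, g2, _, s, g3⟩ := he k
    rcases window_one hcard harc h0 h hp0 hp hl hR hR' rfl g3 g1 g2 with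
      g | ⟨_, _, _, g⟩ | ⟨_, _, _, _, g⟩
    · exact g
    · exfalso
      have := (hp0.pos_iff _).mp hx1
      omega
    · exfalso
      have := (hp0.pos_iff _).mp hx1
      omega
  have := hinj ((hall 0).trans (hall 1).symm)
  exact absurd this (by decide)

end Pool.Agent.Lib.MP_2d08ba_nt
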