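import Pool.Agent.Lib.MP_2d08ba_nt.Bounded

set_option autoImplicit false

namespace Pool.Agent.Lib.MP_2d08ba_nt

/-- The closed half-plane `α x + β y ≥ γ` (with real coefficients) is disjoint from the polygon
with vertex set `V`. -/
def Misses (V : Finset (ℤ × ℤ)) (α β γ : ℝ) : Prop :=
  ∀ v ∈ V, α * v.1 + β * v.2 < γ

/-- Every closed half-plane disjoint from the polygon contains at most `w` points of `X`. -/
def Sparse (V : Finset (ℤ × ℤ)) (w : ℕ) (X : Finset (ℤ × ℤ)) : Prop :=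
  ∀ α β γ : ℝ, Misses V α β γ → ∀ S ⊆ X, (∀ x ∈ S, γ ≤ α * x.1 + β * x.2) → S.card ≤ w

/-- `X` is covered by `k` closed half-planes, each disjoint from the polygon. -/
def Covered (V : Finset (ℤ × ℤ)) (k : ℕ) (X : Finset (ℤ × ℤ)) : Prop :=
  ∃ α β γ : Fin k → ℝ, (∀ j, Misses V (α j) (β j) (γ j)) ∧
    ∀ x ∈ X, ∃ j, γ j ≤ α j * x.1 + β j * x.2

theorem not_covered_of_sparse {V : Finset (ℤ × ℤ)} {w m : ℕ} {X : Finset (ℤ × ℤ)}
    (hcard : X.card = w * (m + 1) + 1) (hH : Sparse V w X) : ¬ Covered V (m + 1) X := by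
  classical
  rintro ⟨α, β, γ, hmiss, hcov⟩
  have hc : ∀ x : ℤ × ℤ, ∃ j : Fin (m + 1), x ∈ X → γ j ≤ α j * x.1 + β j * x.2 := by
    intro x
    by_cases hx : x ∈ X
    · obtain ⟨j, hj⟩ := hcov x hx
      exact ⟨j, fun _ => hj⟩
    · exact ⟨0, fun h => absurd h hx⟩
  choose c hc using hc
  have hcount : ∀ k : Fin (m + 1), (X.filter (fun x => c x = k)).card ≤ w := by
    intro k
    refine hH (α k) (β k) (γ k) (hmiss k) _ (Finset.filter_subset _ _) ?_
    intro x hx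
    rw [Finset.mem_filter] at hx
    have := hc x hx.1
    rw [hx.2] at this
    exact this
  have htot : X.card = ∑ k : Fin (m + 1), (X.filter (fun x => c x = k)).card :=
    Finset.card_eq_sum_card_fiberwise (fun _ _ => Finset.mem_univ _)
  have hle : ∑ k : Fin (m + 1), (X.filter (fun x => c x = k)).card ≤
      ∑ _k : Fin (m + 1), w := Finset.sum_le_sum (fun k _ => hcount k)
  rw [hcard] at htot
  rw [Finset.sum_const, Finset.card_univ, Fintype.card_fin, smul_eq_mul] at hle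
  have : (m + 1) * w = w * (m + 1) := Nat.mul_comm _ _
  omega

theorem covered_of_realizable {m : ℕ} (hm : 2 ≤ m) {V : Finset (ℤ × ℤ)}
    (h : Realizable m (poly V)) {X : Finset (ℤ × ℤ)} (hX : ∀ x ∈ X, toR x ∉ poly V) :
    Covered V (m + 1) X := by
  obtain ⟨f, hpos, hlat⟩ := functionals_of_realizable hm h
  refine ⟨fun j => -(f j).1, fun j => -(f j).2.1, fun j => (f j).2.2, ?_, ?_⟩
  · intro j v hv
    have h1 := hpos j (toR v) (mem_vertexSet.mpr ⟨v, hv, rfl⟩)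
    unfold aff toR at h1
    simp only at h1
    linarith
  · intro x hx
    obtain ⟨j, hj⟩ := hlat _ ⟨x, rfl⟩ (hX x hx)
    refine ⟨j, ?_⟩
    unfold aff at hj
    simp only at hj
    linarith

/-- The bounded form of the duality: all equivalent descriptions. -/
theorem bounded_main (m : ℕ) (hm : 2 ≤ m) (V : Finset (ℤ × ℤ)) (h3 : 3 ≤ V.card)
    (hV : ConvexPos (vertexSet V)) :
    (¬ Realizable m (poly V) ↔ ∃ w : ℕ, 1 ≤ w ∧ w ≤ turns V ∧ ∃ X : Finset (ℤ × ℤ),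
      X.card = w * (m + 1) + 1 ∧ (∀ x ∈ X, x ∈ shell V) ∧ Sparse V w X) ∧
    (¬ Realizable m (poly V) ↔ ∃ w : ℕ, 1 ≤ w ∧ w ≤ turns V ∧ ∃ X : Finset (ℤ × ℤ),
      X.card = w * (m + 1) + 1 ∧ (∀ x ∈ X, toR x ∉ poly V) ∧ Sparse V w X) ∧
    (¬ Realizable m (poly V) ↔ ∃ X : Finset (ℤ × ℤ), X.card ≤ turns V * (m + 1) + 1 ∧
      (∀ x ∈ X, toR x ∉ poly V) ∧ ¬ Covered V (m + 1) X) := by
  have key : ¬ Realizable m (poly V) → ∃ w : ℕ, 1 ≤ w ∧ w ≤ turns V ∧ ∃ X : Finset (ℤ × ℤ),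
      X.card = w * (m + 1) + 1 ∧ (∀ x ∈ X, x ∈ shell V) ∧ Sparse V w X :=
    fun h => exists_turns h3 hV h
  refine ⟨⟨key, ?_⟩, ⟨?_, ?_⟩, ?_, ?_⟩
  · rintro ⟨w, _, _, X, hX, hs, hsp⟩
    exact not_realizable_of_family hm hX (fun x hx => (hs x hx).1) hsp
  · intro h
    obtain ⟨w, h1, h2, X, hX, hs, hsp⟩ := key h
    exact ⟨w, h1, h2, X, hX, fun x hx => (hs x hx).1, hsp⟩
  · rintro ⟨w, _, _, X, hX, hout, hsp⟩
    exact not_realizable_of_family hm hX hout hsp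
  · intro hno
    obtain ⟨w, h1, h2, X, hX, hs, hsp⟩ := key hno
    refine ⟨X, ?_, fun x hx => (hs x hx).1, not_covered_of_sparse hX hsp⟩
    rw [hX]
    have : w * (m + 1) ≤ turns V * (m + 1) := Nat.mul_le_mul_right _ h2
    omega
  · rintro ⟨X, _, hout, hnc⟩ hreal
    exact hnc (covered_of_realizable hm hreal hout)

end Pool.Agent.Lib.MP_2d08ba_nt
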