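import Pool.Agent.Lib.MP_2d08ba_nt.Next

set_option autoImplicit false

namespace Pool.Agent.Lib.MP_2d08ba_nt

theorem toR_sub (x y : ℤ × ℤ) : toR (x - y) = toR x - toR y := by
  unfold toR; ext <;> simp

theorem det_toR (x y : ℤ × ℤ) : det (toR x) (toR y) = (detZ x y : ℝ) := by
  unfold det detZ toR; push_cast; ring

theorem det_toR' (a b c d : ℤ × ℤ) : det (toR a - toR b) (toR c - toR d) =
    (detZ (a - b) (c - d) : ℝ) := by
  rw [← toR_sub, ← toR_sub, det_toR]

theorem mem_vertexSet {V : Finset (ℤ × ℤ)} {x : ℝ × ℝ} :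
    x ∈ vertexSet V ↔ ∃ z ∈ V, toR z = x := by
  unfold vertexSet; rw [Finset.mem_map]; rfl

theorem card_vertexSet (V : Finset (ℤ × ℤ)) : (vertexSet V).card = V.card := by
  unfold vertexSet; rw [Finset.card_map]

theorem vertexSet_lattice (V : Finset (ℤ × ℤ)) : ∀ v ∈ vertexSet V, v ∈ latticePts := by
  intro v hv
  rw [mem_vertexSet] at hv
  obtain ⟨z, _, rfl⟩ := hv
  exact ⟨z, rfl⟩

theorem edge_iff {V : Finset (ℤ × ℤ)} {a b : ℤ × ℤ} :
    IsEdge (vertexSet V) (toR a) (toR b) ↔ IsEdgeZ V a b := by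
  unfold IsEdge IsEdgeZ
  constructor
  · rintro ⟨h1, h2, h3, h4⟩
    rw [mem_vertexSet] at h1 h2
    obtain ⟨a', ha', h1⟩ := h1
    obtain ⟨b', hb', h2⟩ := h2
    have := toR_injective h1; subst this
    have := toR_injective h2; subst this
    refine ⟨ha', hb', fun h => h3 (by rw [h]), ?_⟩
    intro c hc hca hcb
    have h5 := h4 (toR c) (mem_vertexSet.mpr ⟨c, hc, rfl⟩) (fun h => hca (toR_injective h))
      (fun h => hcb (toR_injective h))
    rw [det_toR'] at h5
    exact_mod_cast h5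
  · rintro ⟨h1, h2, h3, h4⟩
    refine ⟨mem_vertexSet.mpr ⟨a, h1, rfl⟩, mem_vertexSet.mpr ⟨b, h2, rfl⟩,
      fun h => h3 (toR_injective h), ?_⟩
    intro c hc hca hcb
    rw [mem_vertexSet] at hc
    obtain ⟨z, hz, rfl⟩ := hc
    have h5 := h4 z hz (fun h => hca (by rw [h])) (fun h => hcb (by rw [h]))
    rw [det_toR']
    exact_mod_cast h5

theorem edge_lift {V : Finset (ℤ × ℤ)} {x y : ℝ × ℝ} (h : IsEdge (vertexSet V) x y) :
    ∃ a b, IsEdgeZ V a b ∧ toR a = x ∧ toR b = y := by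
  obtain ⟨a, _, rfl⟩ := mem_vertexSet.mp h.1
  obtain ⟨b, _, rfl⟩ := mem_vertexSet.mp h.2.1
  exact ⟨a, b, edge_iff.mp h, rfl, rfl⟩

theorem glen_pos {x : ℤ × ℤ} (h : x ≠ 0) : 0 < glen x := by
  unfold glen
  have : 0 < Int.gcd x.1 x.2 := by
    rw [Int.gcd_pos_iff]
    by_contra hcon
    push Not at hcon
    exact h (Prod.ext hcon.1 hcon.2)
  exact_mod_cast this

theorem glen_dvd (x y : ℤ × ℤ) : glen x ∣ detZ x y := by
  unfold glen detZ
  exact dvd_sub ((Int.gcd_dvd_left x.1 x.2).mul_right _) ((Int.gcd_dvd_right x.1 x.2).mul_right _)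

theorem glen_le {x y : ℤ × ℤ} (h : 0 < detZ x y) : glen x ≤ detZ x y :=
  Int.le_of_dvd h (glen_dvd x y)

/-- Moving a lattice point beyond an edge to lattice distance one inside the triangle. -/
theorem move_to_one {a b z : ℤ × ℤ} (hab : a ≠ b) (hz : detZ (b - a) (z - a) < 0) :
    ∃ x : ℤ × ℤ, detZ (b - a) (x - a) = -glen (b - a) ∧ ∃ A B K : ℤ, 0 ≤ A ∧ 0 ≤ B ∧ 0 < K ∧
      ∀ c d : ℤ × ℤ, K * detZ d (x - c) =
        glen (b - a) * detZ d (z - c) + A * detZ d (a - c) + B * detZ d (b - c) := by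
  have hne : b - a ≠ 0 := by
    intro h
    apply hab
    have h2 := sub_eq_zero.mp h
    exact h2.symm
  set g := glen (b - a) with hg
  have hgpos : 0 < g := glen_pos hne
  obtain ⟨u1, hu1⟩ : g ∣ (b - a).1 := Int.gcd_dvd_left _ _
  obtain ⟨u2, hu2⟩ : g ∣ (b - a).2 := Int.gcd_dvd_right _ _
  -- Bezout
  obtain ⟨s, r, hsr⟩ : ∃ s r : ℤ, u1 * s + u2 * r = 1 := by
    have h1 := Int.gcd_eq_gcd_ab (b - a).1 (b - a).2
    refine ⟨Int.gcdA (b - a).1 (b - a).2, Int.gcdB (b - a).1 (b - a).2, ?_⟩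
    have h2 : g * (u1 * Int.gcdA (b - a).1 (b - a).2 + u2 * Int.gcdB (b - a).1 (b - a).2) = g * 1 := by
      have h3 : g = (b - a).1 * Int.gcdA (b - a).1 (b - a).2 +
          (b - a).2 * Int.gcdB (b - a).1 (b - a).2 := h1
      calc g * (u1 * Int.gcdA (b - a).1 (b - a).2 + u2 * Int.gcdB (b - a).1 (b - a).2)
          = (g * u1) * Int.gcdA (b - a).1 (b - a).2 + (g * u2) * Int.gcdB (b - a).1 (b - a).2 := by
            ring
        _ = (b - a).1 * Int.gcdA (b - a).1 (b - a).2 +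
            (b - a).2 * Int.gcdB (b - a).1 (b - a).2 := by rw [← hu1, ← hu2]
        _ = g * 1 := by rw [← h3]; ring
    exact mul_left_cancel₀ hgpos.ne' h2
  -- coordinates of z - a
  set z1 := (z - a).1 with hz1
  set z2 := (z - a).2 with hz2
  set k : ℤ := -(u1 * z2 - u2 * z1) with hk
  set p : ℤ := s * z1 + r * z2 with hp
  have hkpos : 0 < k := by
    have h1 : detZ (b - a) (z - a) = g * (u1 * z2 - u2 * z1) := by
      unfold detZ; rw [hu1, hu2]; ring
    rw [h1] at hz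
    have h2 : u1 * z2 - u2 * z1 < 0 := by
      by_contra hcon
      push Not at hcon
      have := mul_nonneg hgpos.le hcon
      linarith
    linarith
  -- t = ceil (p / k)
  obtain ⟨t, ht1, ht2⟩ : ∃ t : ℤ, 0 ≤ k * t - p ∧ k * t - p ≤ k - 1 := by
    refine ⟨-((-p) / k), ?_⟩
    have h1 := Int.emod_add_mul_ediv (-p) k
    have h2 := Int.emod_nonneg (-p) hkpos.ne'
    have h3 := Int.emod_lt_of_pos (-p) hkpos
    constructor <;> nlinarith
  refine ⟨(a.1 + t * u1 + r, a.2 + t * u2 - s), ?_, g * (k - 1) - (k * t - p), k * t - p, g * k,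
    ?_, ht1, by positivity, ?_⟩
  · unfold detZ
    simp only [Prod.fst_sub, Prod.snd_sub] at hu1 hu2 ⊢
    rw [hu1, hu2]
    linear_combination (-g) * hsr
  · have : k - 1 ≤ g * (k - 1) := by nlinarith
    linarith
  · intro c d
    unfold detZ
    simp only [Prod.fst_sub, Prod.snd_sub] at hu1 hu2 hz1 hz2 ⊢
    have e1 : z.1 = a.1 + p * u1 + k * r := by
      have : z.1 = a.1 + z1 := by rw [hz1]; ring
      rw [this, hp, hk]
      linear_combination (-z1) * hsr
    have e2 : z.2 = a.2 + p * u2 - k * s := by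
      have : z.2 = a.2 + z2 := by rw [hz2]; ring
      rw [this, hp, hk]
      linear_combination (-z2) * hsr
    have e3 : b.1 = a.1 + g * u1 := by linarith
    have e4 : b.2 = a.2 + g * u2 := by linarith
    rw [e1, e2, e3, e4]
    ring

end Pool.Agent.Lib.MP_2d08ba_nt
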