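import Pool.Agent.Lib.MP_2d08ba_nt.Ends

set_option autoImplicit false

namespace Pool.Agent.Lib.MP_2d08ba_nt

open Real

/-- `(a, b)` is an edge and `ν` is the angle of its outward normal. -/
structure LE (V : Finset (ℤ × ℤ)) (a b : ℤ × ℤ) (ν : ℝ) : Prop where
  edge : IsEdgeZ V a b
  dir : ∃ μ : ℝ, 0 < μ ∧ toR b - toR a = μ • tau ν

variable {V : Finset (ℤ × ℤ)}

theorem det_smul_left (x y : ℝ × ℝ) (c : ℝ) : det (c • x) y = c * det x y := by
  unfold det; simp only [Prod.smul_fst, Prod.smul_snd, smul_eq_mul]; ring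

theorem LE.detZ_eq {a b : ℤ × ℤ} {ν : ℝ} (h : LE V a b ν) : ∃ μ : ℝ, 0 < μ ∧ ∀ w : ℤ × ℤ,
    (detZ (b - a) w : ℝ) = -(μ * dirf ν (toR w)) := by
  obtain ⟨μ, hμ, h1⟩ := h.dir
  refine ⟨μ, hμ, ?_⟩
  intro w
  rw [← det_toR, toR_sub, h1, det_smul_left, det_tau_left]
  ring

theorem LE.neg_iff {a b : ℤ × ℤ} {ν : ℝ} (h : LE V a b ν) (w : ℤ × ℤ) :
    detZ (b - a) w < 0 ↔ 0 < dirf ν (toR w) := by
  obtain ⟨μ, hμ, h1⟩ := h.detZ_eq
  have h2 := h1 w
  constructor
  · intro h3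
    have h4 : (detZ (b - a) w : ℝ) < 0 := by exact_mod_cast h3
    rw [h2] at h4
    exact (mul_pos_iff_of_pos_left hμ).mp (by linarith)
  · intro h3
    have h4 : (detZ (b - a) w : ℝ) < 0 := by rw [h2]; have := mul_pos hμ h3; linarith
    exact_mod_cast h4

theorem LE.pos_iff {a b : ℤ × ℤ} {ν : ℝ} (h : LE V a b ν) (w : ℤ × ℤ) :
    0 < detZ (b - a) w ↔ dirf ν (toR w) < 0 := by
  obtain ⟨μ, hμ, h1⟩ := h.detZ_eq
  have h2 := h1 w
  constructor
  · intro h3
    have h4 : 0 < (detZ (b - a) w : ℝ) := by exact_mod_cast h3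
    rw [h2] at h4
    by_contra hcon
    push Not at hcon
    have := mul_nonneg hμ.le hcon
    linarith
  · intro h3
    have h4 : 0 < (detZ (b - a) w : ℝ) := by
      rw [h2]; have := mul_neg_of_pos_of_neg hμ h3; linarith
    exact_mod_cast h4

theorem LE.zero_iff {a b : ℤ × ℤ} {ν : ℝ} (h : LE V a b ν) (w : ℤ × ℤ) :
    detZ (b - a) w = 0 ↔ dirf ν (toR w) = 0 := by
  have h1 := h.neg_iff w
  have h2 := h.pos_iff w
  constructor
  · intro h3
    rcases lt_trichotomy (dirf ν (toR w)) 0 with h4 | h4 | h4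
    · have := h2.mpr h4; omega
    · exact h4
    · have := h1.mpr h4; omega
  · intro h3
    rcases lt_trichotomy (detZ (b - a) w) 0 with h4 | h4 | h4
    · have := h1.mp h4; linarith
    · exact h4
    · have := h2.mp h4; linarith

theorem LE.shift {a b : ℤ × ℤ} {ν : ℝ} (h : LE V a b ν) (k : ℤ) : LE V a b (ν + k * (2 * π)) := by
  refine ⟨h.edge, ?_⟩
  obtain ⟨μ, hμ, h1⟩ := h.dir
  exact ⟨μ, hμ, by rw [tau_period]; exact h1⟩

theorem exists_LE {a b : ℤ × ℤ} (h : IsEdgeZ V a b) (θ : ℝ) :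
    ∃ ν, LE V a b ν ∧ θ < ν ∧ ν ≤ θ + 2 * π := by
  have hne : toR b - toR a ≠ 0 := by
    intro h0
    exact h.2.2.1 (toR_injective (sub_eq_zero.mp h0).symm)
  obtain ⟨ν, μ, hμ, h1⟩ := exists_tau hne
  have hLE : LE V a b ν := ⟨h, μ, hμ, h1⟩
  obtain ⟨k, hk, _⟩ := existsUnique_add_zsmul_mem_Ioc (by linarith [Real.pi_pos] : (0 : ℝ) < 2 * π)
    ν θ
  rw [Set.mem_Ioc, zsmul_eq_mul] at hk
  exact ⟨ν + k * (2 * π), hLE.shift k, hk.1, hk.2⟩

theorem exists_LE' {a b : ℤ × ℤ} (h : IsEdgeZ V a b) (θ : ℝ) :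
    ∃ ν, LE V a b ν ∧ θ - 2 * π < ν ∧ ν ≤ θ := by
  obtain ⟨ν, h1, h2, h3⟩ := exists_LE h (θ - 2 * π)
  exact ⟨ν, h1, h2, by linarith⟩

/-- vertices do not lie beyond an edge -/
theorem LE.vertex {a b : ℤ × ℤ} {ν : ℝ} (h : LE V a b ν) {v : ℤ × ℤ} (hv : v ∈ V) :
    dirf ν (toR (v - b)) ≤ 0 := by
  by_contra hcon
  push Not at hcon
  have h1 := (h.neg_iff (v - b)).mpr hcon
  have h2 : 0 ≤ detZ (b - a) (v - a) := by
    by_cases ha : v = a
    · subst ha; unfold detZ; simp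
    by_cases hb : v = b
    · subst hb; unfold detZ; rw [mul_comm]; simp
    exact (h.edge.2.2.2 v hv ha hb).le
  have h3 : detZ (b - a) (v - b) = detZ (b - a) (v - a) := by
    unfold detZ; simp only [Prod.fst_sub, Prod.snd_sub]; ring
  omega

theorem LE.vertex_strict {a b : ℤ × ℤ} {ν : ℝ} (h : LE V a b ν) {v : ℤ × ℤ} (hv : v ∈ V)
    (ha : v ≠ a) (hb : v ≠ b) : dirf ν (toR (v - b)) < 0 := by
  have h2 := h.edge.2.2.2 v hv ha hb
  have h3 : detZ (b - a) (v - b) = detZ (b - a) (v - a) := by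
    unfold detZ; simp only [Prod.fst_sub, Prod.snd_sub]; ring
  rw [← h3] at h2
  exact (h.pos_iff _).mp h2

theorem LE.tail {a b : ℤ × ℤ} {ν : ℝ} (h : LE V a b ν) : dirf ν (toR (a - b)) = 0 := by
  rw [← h.zero_iff]
  unfold detZ; simp only [Prod.fst_sub, Prod.snd_sub]; ring

theorem detZ_base {a b x : ℤ × ℤ} : detZ (b - a) (x - b) = detZ (b - a) (x - a) := by
  unfold detZ; simp only [Prod.fst_sub, Prod.snd_sub]; ring

theorem sin_pos_range {x : ℝ} (h2 : x < 2 * π) (h : 0 < sin x) : x < π := by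
  by_contra hcon
  push Not at hcon
  have h3 : sin (x - π) = -sin x := sin_sub_pi x
  have h4 : 0 ≤ sin (x - π) := sin_nonneg_of_nonneg_of_le_pi (by linarith) (by linarith)
  linarith

theorem next_pos (hcard : 3 ≤ V.card) {a b c : ℤ × ℤ} (h : IsEdgeZ V a b) (h' : IsEdgeZ V b c) :
    0 < detZ (b - a) (c - b) := by
  have h1 := det_pos_neighbours (V := vertexSet V) (by rw [card_vertexSet]; exact hcard)
    (edge_iff.mpr h') (edge_iff.mpr h)
  rw [det_toR'] at h1
  have h2 : 0 < detZ (c - b) (a - b) := by exact_mod_cast h1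
  have h3 : detZ (c - b) (a - b) = detZ (b - a) (c - b) := by
    unfold detZ; simp only [Prod.fst_sub, Prod.snd_sub]; ring
  rw [← h3]; exact h2

/-- the outward normals of consecutive edges -/
theorem sin_next (hcard : 3 ≤ V.card) {a b c : ℤ × ℤ} {ν ν' : ℝ} (h : LE V a b ν)
    (h' : LE V b c ν') : 0 < sin (ν' - ν) := by
  have h1 := next_pos hcard h.edge h'.edge
  obtain ⟨μ, hμ, h2⟩ := h.dir
  obtain ⟨μ', hμ', h3⟩ := h'.dir
  have h4 : (detZ (b - a) (c - b) : ℝ) = μ * (μ' * sin (ν' - ν)) := by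
    rw [← det_toR, toR_sub, toR_sub, h2, h3, det_smul_left, det_smul_right, det_tau]
  have h5 : 0 < μ * (μ' * sin (ν' - ν)) := by rw [← h4]; exact_mod_cast h1
  exact (mul_pos_iff_of_pos_left hμ').mp ((mul_pos_iff_of_pos_left hμ).mp h5)

/-- consecutive lifted edges -/
structure Cons (V : Finset (ℤ × ℤ)) (a b c : ℤ × ℤ) (ν ν' : ℝ) : Prop where
  e : LE V a b ν
  e' : LE V b c ν'
  lt : ν < ν'
  lt' : ν' < ν + π

theorem exists_nextZ (hcard : 3 ≤ V.card) (hV : ConvexPos (vertexSet V)) {b : ℤ × ℤ} (hb : b ∈ V) :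
    ∃ c, IsEdgeZ V b c := by
  obtain ⟨c, hc⟩ := exists_next hV (by rw [card_vertexSet]; omega)
    (mem_vertexSet.mpr ⟨b, hb, rfl⟩ : toR b ∈ vertexSet V)
  obtain ⟨b', c', h1, h2, h3⟩ := edge_lift hc
  have := toR_injective h2
  subst this
  exact ⟨c', h1⟩

theorem exists_prevZ (hcard : 3 ≤ V.card) (hV : ConvexPos (vertexSet V)) {b : ℤ × ℤ} (hb : b ∈ V) :
    ∃ a, IsEdgeZ V a b := by
  obtain ⟨c, hc⟩ := exists_prev hV (by rw [card_vertexSet]; omega)
    (mem_vertexSet.mpr ⟨b, hb, rfl⟩ : toR b ∈ vertexSet V)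
  obtain ⟨a', b', h1, h2, h3⟩ := edge_lift hc
  have := toR_injective h3
  subst this
  exact ⟨a', h1⟩

theorem LE.next (hcard : 3 ≤ V.card) (hV : ConvexPos (vertexSet V)) {a b : ℤ × ℤ} {ν : ℝ}
    (h : LE V a b ν) : ∃ c ν', Cons V a b c ν ν' := by
  obtain ⟨c, hc⟩ := exists_nextZ hcard hV h.edge.2.1
  obtain ⟨ν', h1, h2, h3⟩ := exists_LE hc ν
  refine ⟨c, ν', h, h1, h2, ?_⟩
  have h4 := sin_next hcard h h1
  have h5 : ν' ≠ ν + 2 * π := by
    intro h6
    rw [h6] at h4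
    have : ν + 2 * π - ν = 2 * π := by ring
    rw [this, sin_two_pi] at h4
    exact lt_irrefl _ h4
  have h6 := sin_pos_range (by
    have := lt_of_le_of_ne h3 h5; linarith) h4
  linarith

theorem LE.prev (hcard : 3 ≤ V.card) (hV : ConvexPos (vertexSet V)) {b c : ℤ × ℤ} {ν' : ℝ}
    (h : LE V b c ν') : ∃ a ν, Cons V a b c ν ν' := by
  obtain ⟨a, ha⟩ := exists_prevZ hcard hV h.edge.1
  obtain ⟨ν, h1, h2, h3⟩ := exists_LE' ha ν'
  have h4 := sin_next hcard h1 h
  have h5 : ν ≠ ν' := by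
    intro h6
    rw [h6, sub_self, sin_zero] at h4
    exact lt_irrefl _ h4
  have h7 := lt_of_le_of_ne h3 h5
  have h6 := sin_pos_range (by linarith) h4
  exact ⟨a, ν, h1, h, h7, by linarith⟩

section cons

variable {a b c : ℤ × ℤ} {ν ν' : ℝ}

/-- directions strictly between the normals of consecutive edges have the common vertex as unique
support point -/
theorem Cons.support (hcard : 3 ≤ V.card) (h : Cons V a b c ν ν') {t : ℝ} (h1 : ν < t)
    (h2 : t < ν') {v : ℤ × ℤ} (hv : v ∈ V) (hvb : v ≠ b) : dirf t (toR (v - b)) < 0 := by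
  have hlt := h.lt
  have hlt' := h.lt'
  have hpi := Real.pi_pos
  have hs1 : 0 < sin (ν' - t) := sin_pos_of_pos_of_lt_pi (by linarith) (by linarith)
  have hs2 : 0 < sin (t - ν) := sin_pos_of_pos_of_lt_pi (by linarith) (by linarith)
  have hs3 : 0 < sin (ν' - ν) := sin_pos_of_pos_of_lt_pi (by linarith) (by linarith)
  have hid : ∀ w : ℝ × ℝ, sin (ν' - ν) * dirf t w = sin (ν' - t) * dirf ν w +
      sin (t - ν) * dirf ν' w := by
    intro w
    unfold dirf
    rw [sin_sub, sin_sub, sin_sub]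
    have e1 := sin_sq_add_cos_sq t
    have e2 := sin_sq_add_cos_sq ν
    have e3 := sin_sq_add_cos_sq ν'
    ring
  have h3 := h.e.vertex hv
  have hne : a ≠ c := by
    have := prev_ne_next (V := vertexSet V) (by rw [card_vertexSet]; exact hcard)
      (edge_iff.mpr h.e'.edge) (edge_iff.mpr h.e.edge)
    intro h; exact this (by rw [h])
  -- at the second edge
  have h4 : dirf ν' (toR (v - b)) ≤ 0 := by
    have h5 := h.e'.vertex hv
    have h6 := h.e'.tail
    have e : toR (v - b) = toR (v - c) - toR (b - c) := by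
      rw [← toR_sub]; congr 1; abel
    rw [e, dirf_sub, h6]; linarith
  have h7 : dirf ν (toR (v - b)) < 0 ∨ dirf ν' (toR (v - b)) < 0 := by
    by_cases hva : v = a
    · right
      have hvc : v ≠ c := by rw [hva]; exact hne
      have h5 := h.e'.vertex_strict hv hvb hvc
      have h6 := h.e'.tail
      have e : toR (v - b) = toR (v - c) - toR (b - c) := by
        rw [← toR_sub]; congr 1; abel
      rw [e, dirf_sub, h6]; linarith
    · left
      exact h.e.vertex_strict hv hva hvb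
  have h8 := hid (toR (v - b))
  have h9 : sin (ν' - ν) * dirf t (toR (v - b)) < 0 := by
    rw [h8]
    rcases h7 with h7 | h7
    · have := mul_neg_of_pos_of_neg hs1 h7
      have := mul_nonpos_of_nonneg_of_nonpos hs2.le h4
      linarith
    · have := mul_neg_of_pos_of_neg hs2 h7
      have := mul_nonpos_of_nonneg_of_nonpos hs1.le h3
      linarith
  by_contra hcon
  push Not at hcon
  have := mul_nonneg hs3.le hcon
  linarith

theorem vertexSet_nonempty (hcard : 3 ≤ V.card) : (vertexSet V).Nonempty := by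
  rw [← Finset.card_pos, card_vertexSet]; omega

theorem LE.beyond {x : ℤ × ℤ} {L R : ℝ} (h : LE V a b ν) (hx : IsArc (vertexSet V) (toR x) L R)
    (h1 : L < ν) (h2 : ν < R) : detZ (b - a) (x - b) < 0 := by
  rw [h.neg_iff, toR_sub]
  exact hx.pos h1 h2 (mem_vertexSet.mpr ⟨b, h.edge.2.1, rfl⟩)

/-- lying beyond an edge as a statement on arcs -/
theorem LE.all_pos {x : ℤ × ℤ} (h : LE V a b ν) (hx : detZ (b - a) (x - b) < 0) :
    ∀ v ∈ vertexSet V, 0 < dirf ν (toR x - v) := by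
  intro v hv
  obtain ⟨z, hz, rfl⟩ := mem_vertexSet.mp hv
  have h1 := (h.neg_iff _).mp hx
  have h2 := h.vertex hz
  have e : toR x - toR z = toR (x - b) - toR (z - b) := by
    rw [← toR_sub, ← toR_sub]; congr 1; abel
  rw [e, dirf_sub]; linarith

theorem LE.exists_lift {x : ℤ × ℤ} {L R : ℝ} (h : LE V a b ν)
    (hx : IsArc (vertexSet V) (toR x) L R) (hb : detZ (b - a) (x - b) < 0) :
    ∃ k : ℤ, L + k * (2 * π) < ν ∧ ν < R + k * (2 * π) := by
  obtain ⟨k, h1, h2⟩ := (hx.iff ν).mp (h.all_pos hb)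
  exact ⟨-k, by push_cast; linarith, by push_cast; linarith⟩

theorem Cons.right (hcard : 3 ≤ V.card) (h : Cons V a b c ν ν') {x : ℤ × ℤ} {L R : ℝ}
    (hx : IsArc (vertexSet V) (toR x) L R) (h1 : ν < R) (h2 : R < ν') :
    ∃ lam : ℝ, 0 < lam ∧ toR (x - b) = (-lam) • tau R := by
  obtain ⟨b1, hb1, h0⟩ := hx.right_zero (vertexSet_nonempty hcard)
  obtain ⟨z, hz, rfl⟩ := mem_vertexSet.mp hb1
  have hzb : z = b := by
    by_contra hne
    have h3 := h.support hcard h1 h2 hz hne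
    have h4 := hx.nonneg hx.lt.le le_rfl (mem_vertexSet.mpr ⟨b, h.e.edge.2.1, rfl⟩)
    have e : toR x - toR z = (toR x - toR b) - toR (z - b) := by rw [toR_sub]; abel
    rw [e, dirf_sub] at h0
    linarith
  subst hzb
  rw [toR_sub]
  exact hx.right_eq (vertexSet_nonempty hcard) hb1 h0

theorem Cons.left (hcard : 3 ≤ V.card) (h : Cons V a b c ν ν') {x : ℤ × ℤ} {L R : ℝ}
    (hx : IsArc (vertexSet V) (toR x) L R) (h1 : ν < L) (h2 : L < ν') :
    ∃ lam : ℝ, 0 < lam ∧ toR (x - b) = lam • tau L := by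
  obtain ⟨b1, hb1, h0⟩ := hx.left_zero (vertexSet_nonempty hcard)
  obtain ⟨z, hz, rfl⟩ := mem_vertexSet.mp hb1
  have hzb : z = b := by
    by_contra hne
    have h3 := h.support hcard h1 h2 hz hne
    have h4 := hx.nonneg le_rfl hx.lt.le (mem_vertexSet.mpr ⟨b, h.e.edge.2.1, rfl⟩)
    have e : toR x - toR z = (toR x - toR b) - toR (z - b) := by rw [toR_sub]; abel
    rw [e, dirf_sub] at h0
    linarith
  subst hzb
  rw [toR_sub]
  exact hx.left_eq (vertexSet_nonempty hcard) hb1 h0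

/-- sign facts for a point whose arc ends strictly between two consecutive normals -/
theorem Cons.right_signs (hcard : 3 ≤ V.card) (h : Cons V a b c ν ν') {x : ℤ × ℤ} {L R : ℝ}
    (hx : IsArc (vertexSet V) (toR x) L R) (h1 : ν < R) (h2 : R < ν') :
    detZ (b - a) (x - b) < 0 ∧ 0 < detZ (c - b) (x - b) ∧ L < ν := by
  obtain ⟨lam, hlam, h3⟩ := h.right hcard hx h1 h2
  have hlt := h.lt
  have hlt' := h.lt'
  have hpi := Real.pi_pos
  have hA : detZ (b - a) (x - b) < 0 := by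
    rw [h.e.neg_iff, h3, dirf_smul, dirf_tau]
    have : sin (ν - R) < 0 := sin_neg_of_neg_of_neg_pi_lt (by linarith) (by linarith)
    nlinarith
  refine ⟨hA, ?_, ?_⟩
  · rw [h.e'.pos_iff, h3, dirf_smul, dirf_tau]
    have : 0 < sin (ν' - R) := sin_pos_of_pos_of_lt_pi (by linarith) (by linarith)
    nlinarith
  · exact hx.mem_of_pos (vertexSet_nonempty hcard) (h.e.all_pos hA) h1 (by linarith)

theorem Cons.left_signs (hcard : 3 ≤ V.card) (h : Cons V a b c ν ν') {x : ℤ × ℤ} {L R : ℝ}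
    (hx : IsArc (vertexSet V) (toR x) L R) (h1 : ν < L) (h2 : L < ν') :
    0 < detZ (b - a) (x - b) ∧ detZ (c - b) (x - b) < 0 ∧ ν' < R := by
  obtain ⟨lam, hlam, h3⟩ := h.left hcard hx h1 h2
  have hlt := h.lt
  have hlt' := h.lt'
  have hpi := Real.pi_pos
  have hA : detZ (c - b) (x - b) < 0 := by
    rw [h.e'.neg_iff, h3, dirf_smul, dirf_tau]
    have : 0 < sin (ν' - L) := sin_pos_of_pos_of_lt_pi (by linarith) (by linarith)
    nlinarith
  refine ⟨?_, hA, ?_⟩
  · rw [h.e.pos_iff, h3, dirf_smul, dirf_tau]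
    have : sin (ν - L) < 0 := sin_neg_of_neg_of_neg_pi_lt (by linarith) (by linarith)
    nlinarith
  · have hA' : detZ (c - b) (x - c) < 0 := by rw [detZ_base]; exact hA
    exact hx.mem_of_pos' (vertexSet_nonempty hcard) (h.e'.all_pos hA') h2 (by linarith)

theorem LE.right_on {x : ℤ × ℤ} {L R : ℝ} (hcard : 3 ≤ V.card) (h : LE V a b ν)
    (hx : IsArc (vertexSet V) (toR x) L R) (h1 : R = ν) : detZ (b - a) (x - b) = 0 := by
  subst h1
  obtain ⟨b1, hb1, h0⟩ := hx.right_zero (vertexSet_nonempty hcard)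
  obtain ⟨z, hz, rfl⟩ := mem_vertexSet.mp hb1
  have h4 := hx.nonneg hx.lt.le le_rfl (mem_vertexSet.mpr ⟨b, h.edge.2.1, rfl⟩)
  have h5 := h.vertex hz
  rw [h.zero_iff, toR_sub]
  have e : toR x - toR z = (toR x - toR b) - toR (z - b) := by rw [toR_sub]; abel
  rw [e, dirf_sub] at h0
  linarith

theorem LE.left_on {x : ℤ × ℤ} {L R : ℝ} (hcard : 3 ≤ V.card) (h : LE V a b ν)
    (hx : IsArc (vertexSet V) (toR x) L R) (h1 : L = ν) : detZ (b - a) (x - b) = 0 := by
  subst h1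
  obtain ⟨b1, hb1, h0⟩ := hx.left_zero (vertexSet_nonempty hcard)
  obtain ⟨z, hz, rfl⟩ := mem_vertexSet.mp hb1
  have h4 := hx.nonneg le_rfl hx.lt.le (mem_vertexSet.mpr ⟨b, h.edge.2.1, rfl⟩)
  have h5 := h.vertex hz
  rw [h.zero_iff, toR_sub]
  have e : toR x - toR z = (toR x - toR b) - toR (z - b) := by rw [toR_sub]; abel
  rw [e, dirf_sub] at h0
  linarith

/-- position of the right end from the signs -/
theorem Cons.right_le (h : Cons V a b c ν ν') {x : ℤ × ℤ} {L R : ℝ}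
    (hx : IsArc (vertexSet V) (toR x) L R) (h1 : L < ν) (h3 : 0 ≤ detZ (c - b) (x - b)) :
    R ≤ ν' := by
  by_contra hcon
  push Not at hcon
  have := h.e'.beyond hx (by linarith [h.lt]) hcon
  rw [detZ_base] at this
  omega

theorem Cons.right_lt (hcard : 3 ≤ V.card) (h : Cons V a b c ν ν') {x : ℤ × ℤ} {L R : ℝ}
    (hx : IsArc (vertexSet V) (toR x) L R) (h1 : L < ν)
    (h3 : 0 < detZ (c - b) (x - b)) : R < ν' := by
  rcases lt_or_eq_of_le (h.right_le hx h1 h3.le) with h4 | h4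
  · exact h4
  · have := h.e'.right_on hcard hx h4
    rw [detZ_base] at this
    omega

theorem Cons.right_eq (hcard : 3 ≤ V.card) (h : Cons V a b c ν ν') {x : ℤ × ℤ} {L R : ℝ}
    (hx : IsArc (vertexSet V) (toR x) L R) (h1 : L < ν) (h2 : ν < R)
    (h3 : detZ (c - b) (x - b) = 0) : R = ν' := by
  rcases lt_or_eq_of_le (h.right_le hx h1 h3.ge) with h4 | h4
  · have := (h.right_signs hcard hx h2 h4).2.1
    omega
  · exact h4

theorem Cons.left_gt (hcard : 3 ≤ V.card) (h : Cons V a b c ν ν') {x : ℤ × ℤ} {L R : ℝ}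
    (hx : IsArc (vertexSet V) (toR x) L R) (h2 : ν' < R)
    (h3 : 0 < detZ (b - a) (x - b)) : ν < L := by
  rcases lt_trichotomy ν L with h4 | h4 | h4
  · exact h4
  · have := h.e.left_on hcard hx h4.symm
    omega
  · have := h.e.beyond hx h4 (by linarith [h.lt])
    omega

end cons

/-- every arc ends between the normals of two consecutive edges -/
theorem exists_cons (hcard : 3 ≤ V.card) (hV : ConvexPos (vertexSet V)) {x : ℤ × ℤ} {L R : ℝ}
    (hx : IsArc (vertexSet V) (toR x) L R) :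
    ∃ a b c ν ν', Cons V a b c ν ν' ∧ L < ν ∧ ν < R ∧ R ≤ ν' := by
  classical
  have hW := vertexSet_nonempty hcard
  have hpi := Real.pi_pos
  -- boundary vertices
  set M : Finset (ℤ × ℤ) := V.filter (fun v => dirf R (toR x - toR v) = 0) with hM
  have hMne : M.Nonempty := by
    obtain ⟨b1, hb1, h0⟩ := hx.right_zero hW
    obtain ⟨z, hz, rfl⟩ := mem_vertexSet.mp hb1
    exact ⟨z, Finset.mem_filter.mpr ⟨hz, h0⟩⟩
  obtain ⟨b, hb, hmin⟩ := Finset.exists_min_image M
    (fun v => -sin R * (toR v).1 + cos R * (toR v).2) hMne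
  rw [hM, Finset.mem_filter] at hb
  have hnn : ∀ v ∈ V, 0 ≤ dirf R (toR x - toR v) := fun v hv =>
    hx.nonneg hx.lt.le le_rfl (mem_vertexSet.mpr ⟨v, hv, rfl⟩)
  have hle : ∀ v ∈ V, dirf R (toR (v - b)) ≤ 0 := by
    intro v hv
    have h1 := hnn v hv
    have e : toR (v - b) = (toR x - toR b) - (toR x - toR v) := by rw [toR_sub]; abel
    rw [e, dirf_sub, hb.2]; linarith
  obtain ⟨lam, hlam, hxb⟩ := hx.right_eq hW (mem_vertexSet.mpr ⟨b, hb.1, rfl⟩) hb.2
  -- edges at b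
  obtain ⟨a, ha⟩ := exists_prevZ hcard hV hb.1
  obtain ⟨c, hc⟩ := exists_nextZ hcard hV hb.1
  obtain ⟨ν, h1, h2, h3⟩ := exists_LE' ha R
  obtain ⟨ν'', h1'', h2'', h3''⟩ := exists_LE hc (ν)
  -- ν < R
  have hνR : ν ≠ R := by
    intro h4
    obtain ⟨μ, hμ, h5⟩ := h1.dir
    have haM : a ∈ M := by
      rw [hM, Finset.mem_filter]
      refine ⟨ha.1, ?_⟩
      have e : toR x - toR a = (toR x - toR b) + (toR b - toR a) := by abel
      rw [e, dirf_add, hb.2, h5, dirf_smul, dirf_tau, h4, sub_self, sin_zero]; ring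
    have h6 := hmin a haM
    have h7 : toR b = toR a + μ • tau R := by rw [← h4, ← h5]; abel
    rw [h7] at h6
    unfold tau at h6
    simp only [Prod.fst_add, Prod.snd_add, Prod.smul_fst, Prod.smul_snd, smul_eq_mul] at h6
    have h8 := sin_sq_add_cos_sq R
    have h9 : μ * (sin R ^ 2 + cos R ^ 2) ≤ 0 := by nlinarith
    rw [h8] at h9
    linarith
  have hνlt : ν < R := lt_of_le_of_ne h3 hνR
  have hs1 : 0 ≤ sin (R - ν) := by
    obtain ⟨μ, hμ, h5⟩ := h1.dir
    have h6 := hle a ha.1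
    have e : toR (a - b) = (-μ) • tau ν := by
      rw [toR_sub, neg_smul, ← h5]; abel
    rw [e, dirf_smul, dirf_tau] at h6
    by_contra hcon
    push Not at hcon
    have := mul_pos_of_neg_of_neg (neg_lt_zero.mpr hμ) hcon
    linarith
  have hνπ : R - ν ≤ π := by
    by_contra hcon
    push Not at hcon
    have h4 : sin (R - ν - π) = -sin (R - ν) := sin_sub_pi _
    have h5 : 0 < sin (R - ν - π) := sin_pos_of_pos_of_lt_pi (by linarith) (by linarith)
    linarith
  -- a third vertex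
  have hthird : ∃ d ∈ V, d ≠ a ∧ d ≠ b := by
    by_contra hcon
    push Not at hcon
    have : V ⊆ {a, b} := by
      intro d hd
      by_cases hda : d = a
      · simp [hda]
      · have := hcon d hd hda
        simp [this]
    have h2 := Finset.card_le_card this
    have h3 : ({a, b} : Finset (ℤ × ℤ)).card ≤ 2 := Finset.card_le_two
    omega
  have hνπ' : R - ν ≠ π := by
    intro h4
    obtain ⟨d, hd, hda, hdb⟩ := hthird
    have h5 := h1.vertex_strict hd hda hdb
    have h6 : ν = R - π := by linarith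
    rw [h6, dirf_sub_pi] at h5
    have := hle d hd
    linarith
  have hνπ'' : R < ν + π := by
    have := lt_of_le_of_ne hνπ hνπ'
    linarith
  -- next edge
  have h4 := sin_next hcard h1 h1''
  have hne2 : ν'' ≠ ν + 2 * π := by
    intro h6
    rw [h6] at h4
    have : ν + 2 * π - ν = 2 * π := by ring
    rw [this, sin_two_pi] at h4
    exact lt_irrefl _ h4
  have h6 := sin_pos_range (by
    have := lt_of_le_of_ne h3'' hne2; linarith) h4
  have hC : Cons V a b c ν ν'' := ⟨h1, h1'', h2'', by linarith⟩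
  have hRle : R ≤ ν'' := by
    by_contra hcon
    push Not at hcon
    obtain ⟨μ, hμ, h5⟩ := h1''.dir
    have h7 := hle c hc.2.1
    rw [toR_sub, h5, dirf_smul, dirf_tau] at h7
    have h8 : 0 < sin (R - ν'') := sin_pos_of_pos_of_lt_pi (by linarith) (by linarith)
    have := mul_pos hμ h8
    linarith
  have hbey : detZ (b - a) (x - b) < 0 := by
    rw [h1.neg_iff, toR_sub, hxb, dirf_smul, dirf_tau]
    have : sin (ν - R) < 0 := sin_neg_of_neg_of_neg_pi_lt (by linarith) (by linarith)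
    nlinarith
  have hLν := hx.mem_of_pos hW (h1.all_pos hbey) hνlt hνπ''
  exact ⟨a, b, c, ν, ν'', hC, hLν, hνlt, hRle⟩

end Pool.Agent.Lib.MP_2d08ba_nt
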