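import Pool.Agent.Lib.MP_2d08ba_nt.Bridge3

set_option autoImplicit false

namespace Pool.Agent.Lib.MP_2d08ba_nt

open Filter Topology

/-- A point beyond the edge `(a,b)` and strictly inside the two adjacent edges is strictly inside
all other edges. -/
theorem contig {V : Finset (ℝ × ℝ)} (hcard : 3 ≤ V.card) {a b c d x : ℝ × ℝ}
    (hca : IsEdge V c a) (hab : IsEdge V a b) (hbd : IsEdge V b d)
    (h1 : det (b - a) (x - a) < 0) (h2 : 0 < det (a - c) (x - c)) (h3 : 0 < det (d - b) (x - b)) :
    ∀ e f, IsEdge V e f → e ≠ a → 0 < det (f - e) (x - e) := by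
  intro e f hef hea
  by_contra hcon
  push Not at hcon
  set Δ := det (b - a) (x - a) with hΔ
  -- e lies in the angle
  have hA : 0 ≤ det (b - x) (e - x) := by
    obtain ⟨σ, τ, hσ, hτ, he⟩ := cone_local hcard hbd hab (vertex_nonneg hbd hef.1)
      (vertex_nonneg hab hef.1)
    have e1 : det (b - x) (e - x) = σ * (-Δ) + τ * det (d - b) (x - b) := by
      have : e = b + σ • (a - b) + τ • (d - b) := by
        rw [add_assoc, ← he]; abel
      rw [this, hΔ]; unfold det
      simp only [Prod.fst_sub, Prod.snd_sub, Prod.fst_add, Prod.snd_add, Prod.smul_fst,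
        Prod.smul_snd, smul_eq_mul]
      ring
    rw [e1]
    have := mul_nonneg hσ (by linarith : 0 ≤ -Δ)
    have := mul_nonneg hτ h3.le
    linarith
  have hB : det (a - x) (e - x) ≤ 0 := by
    obtain ⟨σ, τ, hσ, hτ, he⟩ := cone_local hcard hab hca (vertex_nonneg hab hef.1)
      (vertex_nonneg hca hef.1)
    have e1 : det (a - x) (e - x) = σ * (-det (a - c) (x - c)) + τ * Δ := by
      have : e = a + σ • (c - a) + τ • (b - a) := by
        rw [add_assoc, ← he]; abel
      rw [this, hΔ]; unfold det
      simp only [Prod.fst_sub, Prod.snd_sub, Prod.fst_add, Prod.snd_add, Prod.smul_fst,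
        Prod.smul_snd, smul_eq_mul]
      ring
    rw [e1]
    have := mul_nonneg hσ h2.le
    have := mul_nonpos_of_nonneg_of_nonpos hτ h1.le
    linarith
  have hE := vertex_nonneg hab hef.1
  set φ : ℝ × ℝ → ℝ := fun y => det (f - e) (y - e) with hφ
  have hid : φ x * det (b - a) (e - a) - det (b - x) (e - x) * φ a + det (a - x) (e - x) * φ b = 0 := by
    simp only [hφ]; unfold det
    simp only [Prod.fst_sub, Prod.snd_sub]
    ring
  have hsum : det (b - a) (e - a) - det (b - x) (e - x) + det (a - x) (e - x) = Δ := by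
    rw [hΔ]; unfold det
    simp only [Prod.fst_sub, Prod.snd_sub]
    ring
  have hφx : φ x ≤ 0 := hcon
  have hφa : 0 ≤ φ a := vertex_nonneg hef hca.2.1
  have hφb : 0 ≤ φ b := vertex_nonneg hef hab.2.1
  have t1 : φ x * det (b - a) (e - a) ≤ 0 := mul_nonpos_of_nonpos_of_nonneg hφx hE
  have t2 : 0 ≤ det (b - x) (e - x) * φ a := mul_nonneg hA hφa
  have t3 : det (a - x) (e - x) * φ b ≤ 0 := mul_nonpos_of_nonpos_of_nonneg hB hφb
  have t4 : det (b - x) (e - x) * φ a = 0 := by linarith
  have t5 : det (a - x) (e - x) * φ b = 0 := by linarith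
  -- phi a > 0
  have hφa' : 0 < φ a := by
    rcases hφa.lt_or_eq with h | h
    · exact h
    · exfalso
      by_cases hfa : f = a
      · subst hfa
        have : e = c := prev_unique hef hca
        subst this
        have : φ x = det (f - e) (x - e) := rfl
        linarith
      · have := hef.2.2.2 a hca.2.1 (fun hh => hea hh.symm) (fun hh => hfa hh.symm)
        have h' : φ a = det (f - e) (a - e) := rfl
        linarith
  have hφb' : 0 < φ b := by
    rcases hφb.lt_or_eq with h | h
    · exact h
    · exfalso
      by_cases heb : e = b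
      · subst heb
        have : f = d := next_unique hef hbd
        subst this
        have : φ x = det (f - e) (x - e) := rfl
        linarith
      · by_cases hfb : f = b
        · subst hfb
          exact hea (prev_unique hef hab)
        · have := hef.2.2.2 b hab.2.1 (fun hh => heb hh.symm) (fun hh => hfb hh.symm)
          have h' : φ b = det (f - e) (b - e) := rfl
          linarith
  have hA0 : det (b - x) (e - x) = 0 := by
    rcases mul_eq_zero.mp t4 with h | h
    · exact h
    · exact absurd h hφa'.ne'
  have hB0 : det (a - x) (e - x) = 0 := by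
    rcases mul_eq_zero.mp t5 with h | h
    · exact h
    · exact absurd h hφb'.ne'
  linarith

/-- Local analysis: no functional can separate two such points from the polygon. -/
theorem local_contra {V : Finset (ℝ × ℝ)} (hV : ConvexPos V) (hcard : 3 ≤ V.card)
    {a b a' b' x x' : ℝ × ℝ} {g g' : ℝ} (hab : IsEdge V a b) (hab' : IsEdge V a' b')
    (hne : a ≠ a')
    (hx : det (b - a) (x - a) = -g) (hx' : det (b' - a') (x' - a') = -g')
    (hxe : ∀ e f, IsEdge V e f → e ≠ a → 0 < det (f - e) (x - e))
    (hxe' : ∀ e f, IsEdge V e f → e ≠ a' → 0 < det (f - e) (x' - e))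
    (hq : g' ≤ det (b' - a') (x - a')) (hq' : g ≤ det (b - a) (x' - a))
    {c : ℝ × ℝ × ℝ} (hc : ∀ v ∈ V, 0 < aff c v) (hcx : aff c x < 0) (hcx' : aff c x' < 0) :
    False := by
  classical
  have hne' : V.Nonempty := ⟨a, hab.1⟩
  obtain ⟨v, hv, hmin⟩ := Finset.exists_min_image V (aff c) hne'
  obtain ⟨n, hn⟩ := exists_next hV (by omega) hv
  obtain ⟨p, hp⟩ := exists_prev hV (by omega) hv
  have hvpos := hc v hv
  -- a point in the cone at v has larger value
  have hcone : ∀ y, 0 ≤ det (n - v) (y - v) → 0 ≤ det (v - p) (y - p) → aff c v ≤ aff c y := by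
    intro y h1 h2
    obtain ⟨s, t, hs, ht, hy⟩ := cone_local hcard hn hp h1 h2
    have e1 : aff c y = aff c v + s * (aff c p - aff c v) + t * (aff c n - aff c v) := by
      have : y = v + s • (p - v) + t • (n - v) := by rw [add_assoc, ← hy]; abel
      rw [this]; unfold aff
      simp only [Prod.fst_sub, Prod.snd_sub, Prod.fst_add, Prod.snd_add, Prod.smul_fst,
        Prod.smul_snd, smul_eq_mul]
      ring
    have h3 := hmin p hp.1
    have h4 := hmin n hn.2.1
    have h5 := mul_nonneg hs (by linarith : 0 ≤ aff c p - aff c v)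
    have h6 := mul_nonneg ht (by linarith : 0 ≤ aff c n - aff c v)
    linarith
  have hva : v = a ∨ p = a := by
    by_contra hcon
    push Not at hcon
    have := hcone x (hxe v n hn hcon.1).le (hxe p v hp hcon.2).le
    linarith
  have hva' : v = a' ∨ p = a' := by
    by_contra hcon
    push Not at hcon
    have := hcone x' (hxe' v n hn hcon.1).le (hxe' p v hp hcon.2).le
    linarith
  have hΔ := det_pos_neighbours hcard hn hp
  -- expansion at v
  have hexp : ∀ y, det (n - v) (p - v) * (aff c y - aff c v) =
      det (n - v) (y - v) * (aff c p - aff c v) + det (v - p) (y - p) * (aff c n - aff c v) := by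
    intro y
    unfold aff det
    simp only [Prod.fst_sub, Prod.snd_sub]
    ring
  have hF1 : 0 ≤ aff c p - aff c v := by linarith [hmin p hp.1]
  have hF2 : 0 ≤ aff c n - aff c v := by linarith [hmin n hn.2.1]
  have hy1 := mul_neg_of_pos_of_neg hΔ (by linarith : aff c x - aff c v < 0)
  have hy2 := mul_neg_of_pos_of_neg hΔ (by linarith : aff c x' - aff c v < 0)
  rw [hexp] at hy1 hy2
  rcases hva with h1 | h1
  · rcases hva' with h2 | h2
    · exact hne (h1.symm.trans h2)
    · -- v = a, p = a'
      subst h1; subst h2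
      have e1 : b = n := next_unique hab hn
      have e2 : b' = v := next_unique hab' hp
      subst e1; subst e2
      rw [hx] at hy1
      rw [hx'] at hy2
      -- hy1 : -g * F1 + det(v-p)(x-p) * F2 < 0 ; hy2 : det (n-v)(x'-v) * F1 + (-g') F2 < 0
      have h3 := mul_le_mul_of_nonneg_right hq hF2
      have h4 := mul_le_mul_of_nonneg_right hq' hF1
      linarith
  · rcases hva' with h2 | h2
    · -- p = a, v = a'
      subst h1; subst h2
      have e1 : b = v := next_unique hab hp
      have e2 : b' = n := next_unique hab' hn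
      subst e1; subst e2
      rw [hx] at hy1
      rw [hx'] at hy2
      have h3 := mul_le_mul_of_nonneg_right hq hF1
      have h4 := mul_le_mul_of_nonneg_right hq' hF2
      linarith
    · exact hne (h1.symm.trans h2)

end Pool.Agent.Lib.MP_2d08ba_nt
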