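import Pool.Agent.Lib.MP_2d08ba_nt.Defs

set_option autoImplicit false

namespace Pool.Agent.Lib.MP_2d08ba_nt

/-- `(a, b)` is a (counterclockwise) edge of the polygon with vertex set `V`. -/
def IsEdge (V : Finset (ℝ × ℝ)) (a b : ℝ × ℝ) : Prop :=
  a ∈ V ∧ b ∈ V ∧ a ≠ b ∧ ∀ c ∈ V, c ≠ a → c ≠ b → 0 < det (b - a) (c - a)

theorem det_self (x : ℝ × ℝ) : det x x = 0 := by unfold det; ring

theorem det_anti (x y : ℝ × ℝ) : det x y = - det y x := by unfold det; ring

theorem det_add_right (x y z : ℝ × ℝ) : det x (y + z) = det x y + det x z := by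
  unfold det; simp only [Prod.fst_add, Prod.snd_add]; ring

theorem det_smul_right (x y : ℝ × ℝ) (c : ℝ) : det x (c • y) = c * det x y := by
  unfold det; simp only [Prod.smul_fst, Prod.smul_snd, smul_eq_mul]; ring

/-- Cramer: expansion of `y` in the basis `α, β`. -/
theorem cramer (α β y : ℝ × ℝ) (h : det β α ≠ 0) :
    y = (det β y / det β α) • α + (det y α / det β α) • β := by
  have h' : β.1 * α.2 - β.2 * α.1 ≠ 0 := h
  ext
  · simp only [Prod.fst_add, Prod.smul_fst, smul_eq_mul]
    unfold det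
    field_simp
    ring
  · simp only [Prod.snd_add, Prod.smul_snd, smul_eq_mul]
    unfold det
    field_simp
    ring

/-- A continuous linear functional on the plane in coordinates. -/
theorem clm_coord (f : (ℝ × ℝ) →L[ℝ] ℝ) (x : ℝ × ℝ) : f x = x.1 * f (1, 0) + x.2 * f (0, 1) := by
  have h : x = x.1 • ((1 : ℝ), (0 : ℝ)) + x.2 • ((0 : ℝ), (1 : ℝ)) := by
    ext <;> simp
  conv_lhs => rw [h]
  rw [map_add, map_smul, map_smul]
  simp

/-- separation of a vertex from the others -/
theorem sep_vertex {V : Finset (ℝ × ℝ)} (hV : ConvexPos V) {a : ℝ × ℝ} (ha : a ∈ V) :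
    ∃ f : (ℝ × ℝ) →L[ℝ] ℝ, ∀ v ∈ V, v ≠ a → f v < f a := by
  have h1 : Convex ℝ (convexHull ℝ ((V : Set (ℝ × ℝ)) \ {a})) := convex_convexHull ℝ _
  have hfin : ((V : Set (ℝ × ℝ)) \ {a}).Finite := V.finite_toSet.subset Set.sdiff_subset
  have h2 : IsClosed (convexHull ℝ ((V : Set (ℝ × ℝ)) \ {a})) := hfin.isClosed_convexHull ℝ
  obtain ⟨f, u, hf1, hf2⟩ := geometric_hahn_banach_closed_point h1 h2 (hV a ha)
  refine ⟨f, ?_⟩
  intro v hv hva
  have := hf1 v (subset_convexHull ℝ _ ⟨hv, hva⟩)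
  linarith

/-- collinear points on a ray from `a` cannot occur -/
theorem no_collinear {V : Finset (ℝ × ℝ)} (hV : ConvexPos V) {a b c : ℝ × ℝ} (ha : a ∈ V)
    (hb : b ∈ V) (hc : c ∈ V) (hab : b ≠ a) (hac : c ≠ a) (hbc : b ≠ c) {t : ℝ} (ht : 0 < t)
    (h : c - a = t • (b - a)) : False := by
  rcases le_or_gt t 1 with h1 | h1
  · -- c between a and b
    apply hV c hc
    have h2 : c = (1 - t) • a + t • b := by
      have : c = a + t • (b - a) := by rw [← h]; abel
      rw [this, smul_sub, sub_smul, one_smul]; abel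
    rw [h2]
    have hA : a ∈ (V : Set (ℝ × ℝ)) \ {(1 - t) • a + t • b} := by
      refine ⟨ha, ?_⟩
      rw [← h2]; exact fun hh => hac hh.symm
    have hB : b ∈ (V : Set (ℝ × ℝ)) \ {(1 - t) • a + t • b} := by
      refine ⟨hb, ?_⟩
      rw [← h2]; exact fun hh => hbc hh
    exact (convex_convexHull ℝ _) (subset_convexHull ℝ _ hA) (subset_convexHull ℝ _ hB)
      (by linarith) ht.le (by ring)
  · -- b between a and c
    apply hV b hb
    have ht0 : t ≠ 0 := ht.ne'
    have h2 : b = (1 - t⁻¹) • a + t⁻¹ • c := by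
      have : b - a = t⁻¹ • (c - a) := by rw [h, smul_smul, inv_mul_cancel₀ ht0, one_smul]
      have : b = a + t⁻¹ • (c - a) := by rw [← this]; abel
      rw [this, smul_sub, sub_smul, one_smul]; abel
    have hinv : t⁻¹ < 1 := inv_lt_one_of_one_lt₀ h1
    have hinv0 : 0 < t⁻¹ := inv_pos.mpr ht
    have hA : a ∈ (V : Set (ℝ × ℝ)) \ {b} := ⟨ha, fun hh => hab hh.symm⟩
    have hC : c ∈ (V : Set (ℝ × ℝ)) \ {b} := ⟨hc, fun hh => hbc hh.symm⟩
    have h3 := (convex_convexHull ℝ ((V : Set (ℝ × ℝ)) \ {b})) (subset_convexHull ℝ _ hA)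
      (subset_convexHull ℝ _ hC) (by linarith : 0 ≤ 1 - t⁻¹) hinv0.le (by ring)
    rw [← h2] at h3
    exact h3

/-- Existence of the next vertex. -/
theorem exists_next {V : Finset (ℝ × ℝ)} (hV : ConvexPos V) (hcard : 2 ≤ V.card) {a : ℝ × ℝ}
    (ha : a ∈ V) : ∃ b, IsEdge V a b := by
  classical
  obtain ⟨f, hf⟩ := sep_vertex hV ha
  set α := f (1, 0) with hα
  set β := f (0, 1) with hβ
  -- g = -f - linear part, positive on differences
  let g : ℝ × ℝ → ℝ := fun x => -(x.1 * α + x.2 * β)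
  let ψ : ℝ × ℝ → ℝ := fun x => x.1 * β - x.2 * α
  have hg : ∀ v ∈ V, v ≠ a → 0 < g (v - a) := by
    intro v hv hva
    have h1 := hf v hv hva
    rw [clm_coord f v, clm_coord f a] at h1
    simp only [g, Prod.fst_sub, Prod.snd_sub]
    linarith
  have hne : (V.erase a).Nonempty := by
    rw [← Finset.card_pos, Finset.card_erase_of_mem ha]; omega
  obtain ⟨b, hb, hmin⟩ := Finset.exists_min_image (V.erase a) (fun v => ψ (v - a) / g (v - a)) hne
  rw [Finset.mem_erase] at hb
  refine ⟨b, ha, hb.2, hb.1.symm, ?_⟩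
  intro c hc hca hcb
  have h1 := hmin c (Finset.mem_erase.mpr ⟨hca, hc⟩)
  have hgb := hg b hb.2 hb.1
  have hgc := hg c hc hca
  rw [div_le_div_iff₀ hgb hgc] at h1
  have hid : det (b - a) (c - a) * (α ^ 2 + β ^ 2) = ψ (c - a) * g (b - a) - ψ (b - a) * g (c - a) := by
    simp only [det, ψ, g]; ring
  have hpos : 0 < α ^ 2 + β ^ 2 := by
    rcases (by positivity : 0 ≤ α ^ 2 + β ^ 2).lt_or_eq with h | h
    · exact h
    · have h2 : α = 0 := by nlinarith [sq_nonneg α, sq_nonneg β]
      have h3 : β = 0 := by nlinarith [sq_nonneg α, sq_nonneg β]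
      simp only [g, h2, h3, mul_zero, add_zero, neg_zero] at hgb
      exact absurd hgb (lt_irrefl _)
  have h2 : 0 ≤ det (b - a) (c - a) := by
    by_contra hcon
    push Not at hcon
    have := mul_neg_of_neg_of_pos hcon hpos
    linarith
  rcases h2.lt_or_eq with h3 | h3
  · exact h3
  · exfalso
    -- collinear
    have h4 : ψ (c - a) * g (b - a) = ψ (b - a) * g (c - a) := by
      have : (0 : ℝ) * (α ^ 2 + β ^ 2) = ψ (c - a) * g (b - a) - ψ (b - a) * g (c - a) := by
        rw [h3]; exact hid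
      linarith
    have h5 : c - a = (g (c - a) / g (b - a)) • (b - a) := by
      have h6 : det (b - a) (c - a) = 0 := h3.symm
      have h7 : (b - a).1 * (c - a).2 = (b - a).2 * (c - a).1 := by unfold det at h6; linarith
      ext
      · simp only [Prod.smul_fst, smul_eq_mul]
        rw [div_mul_eq_mul_div, eq_div_iff hgb.ne']
        simp only [g]
        linear_combination β * h7
      · simp only [Prod.smul_snd, smul_eq_mul]
        rw [div_mul_eq_mul_div, eq_div_iff hgb.ne']
        simp only [g]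
        linear_combination (-α) * h7
    exact no_collinear hV ha hb.2 hc hb.1 hca (fun h => hcb h.symm) (div_pos hgc hgb) h5

/-- Existence of the previous vertex. -/
theorem exists_prev {V : Finset (ℝ × ℝ)} (hV : ConvexPos V) (hcard : 2 ≤ V.card) {a : ℝ × ℝ}
    (ha : a ∈ V) : ∃ c, IsEdge V c a := by
  classical
  obtain ⟨f, hf⟩ := sep_vertex hV ha
  set α := f (1, 0) with hα
  set β := f (0, 1) with hβ
  let g : ℝ × ℝ → ℝ := fun x => -(x.1 * α + x.2 * β)
  let ψ : ℝ × ℝ → ℝ := fun x => x.1 * β - x.2 * α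
  have hg : ∀ v ∈ V, v ≠ a → 0 < g (v - a) := by
    intro v hv hva
    have h1 := hf v hv hva
    rw [clm_coord f v, clm_coord f a] at h1
    simp only [g, Prod.fst_sub, Prod.snd_sub]
    linarith
  have hne : (V.erase a).Nonempty := by
    rw [← Finset.card_pos, Finset.card_erase_of_mem ha]; omega
  obtain ⟨b, hb, hmax⟩ := Finset.exists_max_image (V.erase a) (fun v => ψ (v - a) / g (v - a)) hne
  rw [Finset.mem_erase] at hb
  refine ⟨b, hb.2, ha, hb.1, ?_⟩
  intro c hc hcb hca
  have h1 := hmax c (Finset.mem_erase.mpr ⟨hca, hc⟩)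
  have hgb := hg b hb.2 hb.1
  have hgc := hg c hc hca
  rw [div_le_div_iff₀ hgc hgb] at h1
  have hid : det (a - b) (c - b) * (α ^ 2 + β ^ 2) = ψ (b - a) * g (c - a) - ψ (c - a) * g (b - a) := by
    simp only [det, ψ, g, Prod.fst_sub, Prod.snd_sub]; ring
  have hpos : 0 < α ^ 2 + β ^ 2 := by
    rcases (by positivity : 0 ≤ α ^ 2 + β ^ 2).lt_or_eq with h | h
    · exact h
    · have h2 : α = 0 := by nlinarith [sq_nonneg α, sq_nonneg β]
      have h3 : β = 0 := by nlinarith [sq_nonneg α, sq_nonneg β]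
      simp only [g, h2, h3, mul_zero, add_zero, neg_zero] at hgb
      exact absurd hgb (lt_irrefl _)
  have h2 : 0 ≤ det (a - b) (c - b) := by
    by_contra hcon
    push Not at hcon
    have := mul_neg_of_neg_of_pos hcon hpos
    linarith
  rcases h2.lt_or_eq with h3 | h3
  · exact h3
  · exfalso
    have h5 : c - a = (g (c - a) / g (b - a)) • (b - a) := by
      have h6 : det (a - b) (c - b) = 0 := h3.symm
      have h7 : (b - a).1 * (c - a).2 = (b - a).2 * (c - a).1 := by
        unfold det at h6; simp only [Prod.fst_sub, Prod.snd_sub] at h6 ⊢; linarith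
      ext
      · simp only [Prod.smul_fst, smul_eq_mul]
        rw [div_mul_eq_mul_div, eq_div_iff hgb.ne']
        simp only [g]
        linear_combination β * h7
      · simp only [Prod.smul_snd, smul_eq_mul]
        rw [div_mul_eq_mul_div, eq_div_iff hgb.ne']
        simp only [g]
        linear_combination (-α) * h7
    exact no_collinear hV ha hb.2 hc hb.1 hca (fun h => hcb h.symm) (div_pos hgc hgb) h5

theorem next_unique {V : Finset (ℝ × ℝ)} {a b b' : ℝ × ℝ} (h : IsEdge V a b) (h' : IsEdge V a b') :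
    b = b' := by
  by_contra hne
  have h1 := h.2.2.2 b' h'.2.1 (h'.2.2.1).symm (fun hh => hne hh.symm)
  have h2 := h'.2.2.2 b h.2.1 (h.2.2.1).symm hne
  rw [det_anti] at h2
  linarith

theorem prev_unique {V : Finset (ℝ × ℝ)} {a c c' : ℝ × ℝ} (h : IsEdge V c a) (h' : IsEdge V c' a) :
    c = c' := by
  by_contra hne
  have h1 := h.2.2.2 c' h'.1 (fun hh => hne hh.symm) h'.2.2.1
  have h2 := h'.2.2.2 c h.1 hne h.2.2.1
  unfold det at h1 h2
  simp only [Prod.fst_sub, Prod.snd_sub] at h1 h2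
  linarith

/-- with at least three vertices the two neighbours of a vertex are distinct -/
theorem prev_ne_next {V : Finset (ℝ × ℝ)} (hcard : 3 ≤ V.card) {a b c : ℝ × ℝ}
    (h : IsEdge V a b) (h' : IsEdge V c a) : c ≠ b := by
  classical
  intro hcb
  subst hcb
  have h1 : ∃ d ∈ V, d ≠ a ∧ d ≠ c := by
    by_contra hcon
    push Not at hcon
    have : V ⊆ {a, c} := by
      intro d hd
      by_cases hda : d = a
      · simp [hda]
      · have := hcon d hd hda
        simp [this]
    have h2 := Finset.card_le_card this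
    have h3 : ({a, c} : Finset (ℝ × ℝ)).card ≤ 2 := Finset.card_le_two
    omega
  obtain ⟨d, hd, hda, hdc⟩ := h1
  have h2 := h.2.2.2 d hd hda hdc
  have h3 := h'.2.2.2 d hd hdc hda
  unfold det at h2 h3
  simp only [Prod.fst_sub, Prod.snd_sub] at h2 h3
  linarith

theorem det_pos_neighbours {V : Finset (ℝ × ℝ)} (hcard : 3 ≤ V.card) {a b c : ℝ × ℝ}
    (h : IsEdge V a b) (h' : IsEdge V c a) : 0 < det (b - a) (c - a) :=
  h.2.2.2 c h'.1 h'.2.2.1 (prev_ne_next hcard h h')

/-- vertices satisfy all edge inequalities -/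
theorem vertex_nonneg {V : Finset (ℝ × ℝ)} {a b v : ℝ × ℝ} (h : IsEdge V a b) (hv : v ∈ V) :
    0 ≤ det (b - a) (v - a) := by
  by_cases h1 : v = a
  · subst h1; simp [det]
  by_cases h2 : v = b
  · subst h2; rw [det_self]
  exact (h.2.2.2 v hv h1 h2).le

/-- points of the hull satisfy all edge inequalities -/
theorem hull_nonneg {V : Finset (ℝ × ℝ)} {a b x : ℝ × ℝ} (h : IsEdge V a b)
    (hx : x ∈ convexHull ℝ (V : Set (ℝ × ℝ))) : 0 ≤ det (b - a) (x - a) := by
  have hconv : Convex ℝ {x : ℝ × ℝ | 0 ≤ det (b - a) (x - a)} := by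
    intro y hy z hz s t hs ht hst
    simp only [Set.mem_ofPred_eq] at hy hz ⊢
    have : det (b - a) (s • y + t • z - a) = s * det (b - a) (y - a) + t * det (b - a) (z - a) := by
      unfold det
      simp only [Prod.fst_sub, Prod.snd_sub, Prod.fst_add, Prod.snd_add, Prod.smul_fst,
        Prod.smul_snd, smul_eq_mul]
      have h1 : s = 1 - t := by linarith
      subst h1; ring
    rw [this]; positivity
  exact convexHull_min (fun v hv => vertex_nonneg h hv) hconv hx

/-- the local cone at a vertex -/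
theorem cone_local {V : Finset (ℝ × ℝ)} (hcard : 3 ≤ V.card) {a b c : ℝ × ℝ}
    (h : IsEdge V a b) (h' : IsEdge V c a) {x : ℝ × ℝ} (h1 : 0 ≤ det (b - a) (x - a))
    (h2 : 0 ≤ det (a - c) (x - c)) :
    ∃ s t : ℝ, 0 ≤ s ∧ 0 ≤ t ∧ x - a = s • (c - a) + t • (b - a) := by
  have hΔ := det_pos_neighbours hcard h h'
  refine ⟨det (b - a) (x - a) / det (b - a) (c - a), det (x - a) (c - a) / det (b - a) (c - a),
    div_nonneg h1 hΔ.le, div_nonneg ?_ hΔ.le, cramer _ _ _ hΔ.ne'⟩
  have : det (x - a) (c - a) = det (a - c) (x - c) := by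
    unfold det; simp only [Prod.fst_sub, Prod.snd_sub]; ring
  rw [this]; exact h2

/-- The hull is the intersection of the half-planes of its edges. -/
theorem mem_hull_iff {V : Finset (ℝ × ℝ)} (hV : ConvexPos V) (hcard : 3 ≤ V.card) (x : ℝ × ℝ) :
    x ∈ convexHull ℝ (V : Set (ℝ × ℝ)) ↔ ∀ a b, IsEdge V a b → 0 ≤ det (b - a) (x - a) := by
  constructor
  · intro hx a b h
    exact hull_nonneg h hx
  · intro h
    by_contra hx
    obtain ⟨f, u, hf1, hf2⟩ := geometric_hahn_banach_closed_point (convex_convexHull ℝ _)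
      (V.finite_toSet.isClosed_convexHull ℝ) hx
    have hne : V.Nonempty := by rw [← Finset.card_pos]; omega
    obtain ⟨a, ha, hmax⟩ := Finset.exists_max_image V f hne
    obtain ⟨b, hb⟩ := exists_next hV (by omega) ha
    obtain ⟨c, hc⟩ := exists_prev hV (by omega) ha
    obtain ⟨s, t, hs, ht, hst⟩ := cone_local hcard hb hc (h a b hb) (h c a hc)
    have h1 : f (x - a) = s * f (c - a) + t * f (b - a) := by
      rw [hst, map_add, map_smul, map_smul]; simp
    rw [map_sub, map_sub, map_sub] at h1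
    have h2 := hmax b hb.2.1
    have h3 := hmax c hc.1
    have h4 := hf1 a (subset_convexHull ℝ _ ha)
    have h5 : s * (f c - f a) ≤ 0 := mul_nonpos_of_nonneg_of_nonpos hs (by linarith)
    have h6 : t * (f b - f a) ≤ 0 := mul_nonpos_of_nonneg_of_nonpos ht (by linarith)
    linarith

end Pool.Agent.Lib.MP_2d08ba_nt
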