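import Pool.Agent.Lib.MP_2d08ba_nt.Criterion
import Pool.Agent.Lib.MP_2d08ba_nt.Arcs

set_option autoImplicit false

namespace Pool.Agent.Lib.MP_2d08ba_nt

theorem finite_int_of_bounded {C : Set (ℝ × ℝ)} (hC : Bornology.IsBounded C) :
    {x : ℤ × ℤ | toR x ∈ C}.Finite := by
  obtain ⟨B, hB⟩ := hC.exists_norm_le
  obtain ⟨M, hM⟩ := exists_nat_ge B
  apply ((Set.finite_Icc (-(M : ℤ)) M).prod (Set.finite_Icc (-(M : ℤ)) M)).subset
  intro x hx
  have h1 := hB _ hx
  rw [Prod.norm_def] at h1
  have ha := (le_max_left _ _).trans (h1.trans hM)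
  have hb := (le_max_right _ _).trans (h1.trans hM)
  rw [Real.norm_eq_abs, abs_le] at ha hb
  unfold toR at ha hb
  simp only at ha hb
  rw [Set.mem_prod, Set.mem_Icc, Set.mem_Icc]
  refine ⟨⟨?_, ?_⟩, ?_, ?_⟩
  · have := ha.1; exact_mod_cast this
  · have := ha.2; exact_mod_cast this
  · have := hb.1; exact_mod_cast this
  · have := hb.2; exact_mod_cast this

theorem hull_insert_bounded (z : ℝ × ℝ) (W : Finset (ℝ × ℝ)) :
    Bornology.IsBounded (convexHull ℝ (insert z (W : Set (ℝ × ℝ)))) :=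
  ((W.finite_toSet.insert z).isCompact_convexHull ℝ).isBounded

/-- a functional bounded below on the generators is bounded below on the hull -/
theorem det_ge_hull {S : Set (ℝ × ℝ)} {p a : ℝ × ℝ} {G : ℝ} (h : ∀ v ∈ S, G ≤ det p (v - a)) :
    ∀ x ∈ convexHull ℝ S, G ≤ det p (x - a) := by
  have hconv : Convex ℝ {x : ℝ × ℝ | G ≤ det p (x - a)} := by
    intro y hy z hz s t hs ht hst
    simp only [Set.mem_ofPred_eq] at hy hz ⊢
    have : det p (s • y + t • z - a) = s * det p (y - a) + t * det p (z - a) := by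
      unfold det
      simp only [Prod.fst_sub, Prod.snd_sub, Prod.fst_add, Prod.snd_add, Prod.smul_fst,
        Prod.smul_snd, smul_eq_mul]
      have h1 : s = 1 - t := by linarith
      subst h1; ring
    rw [this]
    have e1 : G = s * G + t * G := by rw [← add_mul, hst, one_mul]
    have e2 := mul_le_mul_of_nonneg_left hy hs
    have e3 := mul_le_mul_of_nonneg_left hz ht
    linarith
  exact fun x hx => convexHull_min h hconv hx

/-- the point given by `move_to_one` lies in the triangle -/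
theorem mem_of_comb {a b z x : ℤ × ℤ} {A B K g : ℤ} (hA : 0 ≤ A) (hB : 0 ≤ B) (hK : 0 < K)
    (hg : 0 < g)
    (hcomb : ∀ c d : ℤ × ℤ, K * detZ d (x - c) =
        g * detZ d (z - c) + A * detZ d (a - c) + B * detZ d (b - c))
    {S : Set (ℝ × ℝ)} (ha : toR a ∈ S) (hb : toR b ∈ S) (hz : toR z ∈ S) :
    toR x ∈ convexHull ℝ S := by
  -- K = g + A + B
  have h1 := hcomb 0 (0, -1)
  have h2 := hcomb 0 (1, 0)
  have h3 := hcomb (1, 0) (0, -1)
  simp only [detZ, Prod.fst_sub, Prod.snd_sub, Prod.fst_zero, Prod.snd_zero] at h1 h2 h3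
  have hsum : K = g + A + B := by linarith
  have hKr : (0 : ℝ) < K := by exact_mod_cast hK
  have hAr : (0 : ℝ) ≤ A := by exact_mod_cast hA
  have hBr : (0 : ℝ) ≤ B := by exact_mod_cast hB
  have hgr : (0 : ℝ) < g := by exact_mod_cast hg
  have hsumr : (K : ℝ) = g + A + B := by exact_mod_cast hsum
  have e1 : (K : ℝ) * x.1 = g * z.1 + A * a.1 + B * b.1 := by
    have : K * x.1 = g * z.1 + A * a.1 + B * b.1 := by linarith
    exact_mod_cast this
  have e2 : (K : ℝ) * x.2 = g * z.2 + A * a.2 + B * b.2 := by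
    have : K * x.2 = g * z.2 + A * a.2 + B * b.2 := by linarith
    exact_mod_cast this
  have hc := convex_convexHull ℝ S
  have hx : toR x = ((g : ℝ) / K) • toR z + (((A : ℝ) / K) • toR a + ((B : ℝ) / K) • toR b) := by
    unfold toR
    ext
    · simp only [Prod.fst_add, Prod.smul_fst, smul_eq_mul]
      field_simp
      linarith
    · simp only [Prod.snd_add, Prod.smul_snd, smul_eq_mul]
      field_simp
      linarith
  have hz' := subset_convexHull ℝ S hz
  have ha' := subset_convexHull ℝ S ha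
  have hb' := subset_convexHull ℝ S hb
  rcases (add_nonneg hAr hBr).lt_or_eq with hAB | hAB
  · -- combine a and b first
    set y : ℝ × ℝ := ((A : ℝ) / (A + B)) • toR a + ((B : ℝ) / (A + B)) • toR b with hy
    have hyS : y ∈ convexHull ℝ S := hc ha' hb' (by positivity) (by positivity) (by field_simp)
    have hx2 : toR x = ((g : ℝ) / K) • toR z + (((A : ℝ) + B) / K) • y := by
      rw [hx, hy, smul_add, smul_smul, smul_smul]
      congr 2
      · congr 1; field_simp
      · congr 1; field_simp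
    rw [hx2]
    exact hc hz' hyS (by positivity) (by positivity) (by rw [hsumr]; field_simp; ring)
  · have hA0 : (A : ℝ) = 0 := by linarith
    have hB0 : (B : ℝ) = 0 := by linarith
    rw [hx, hA0, hB0]
    have : (g : ℝ) / K = 1 := by rw [hsumr, hA0, hB0]; field_simp; ring
    rw [this]
    simpa using hz'

/-- Every integer point outside the polygon has a shell point in the hull of itself and the
polygon. -/
theorem exists_shell {V : Finset (ℤ × ℤ)} {z : ℤ × ℤ} (hz : toR z ∉ poly V) :
    ∃ x ∈ shell V, toR x ∈ convexHull ℝ (insert (toR z) (vertexSet V : Set (ℝ × ℝ))) := by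
  classical
  set W := vertexSet V with hW
  let cnt : ℤ × ℤ → ℕ := fun x =>
    {y : ℤ × ℤ | toR y ∈ convexHull ℝ (insert (toR x) (W : Set (ℝ × ℝ)))}.ncard
  set S : Set (ℤ × ℤ) := {x | toR x ∈ convexHull ℝ (insert (toR z) (W : Set (ℝ × ℝ))) ∧
    toR x ∉ poly V} with hS
  have hSfin : S.Finite := (finite_int_of_bounded (hull_insert_bounded (toR z) W)).subset
    (fun x hx => hx.1)
  have hzS : z ∈ S := ⟨subset_convexHull ℝ _ (Set.mem_insert _ _), hz⟩
  obtain ⟨x, hxS, hmin⟩ := hSfin.exists_minimalFor cnt S ⟨z, hzS⟩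
  have hmin' : ∀ y ∈ S, ¬ cnt y < cnt x := by
    intro y hy hlt
    have := hmin hy hlt.le
    omega
  refine ⟨x, ⟨hxS.2, ?_⟩, hxS.1⟩
  intro a b hab
  by_contra hcon
  push Not at hcon
  have hg : 0 < glen (b - a) := by
    apply glen_pos
    intro h0
    exact hab.2.2.1 (sub_eq_zero.mp h0).symm
  obtain ⟨x', hx', A, B, K, hA, hB, hK, hcomb⟩ := move_to_one (z := x) hab.2.2.1 (by linarith)
  have haW : toR a ∈ W := mem_vertexSet.mpr ⟨a, hab.1, rfl⟩
  have hbW : toR b ∈ W := mem_vertexSet.mpr ⟨b, hab.2.1, rfl⟩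
  have hx'hull : toR x' ∈ convexHull ℝ (insert (toR x) (W : Set (ℝ × ℝ))) :=
    mem_of_comb hA hB hK hg hcomb (Set.mem_insert_of_mem _ haW) (Set.mem_insert_of_mem _ hbW)
      (Set.mem_insert _ _)
  have hsub1 : convexHull ℝ (insert (toR x) (W : Set (ℝ × ℝ))) ⊆
      convexHull ℝ (insert (toR z) (W : Set (ℝ × ℝ))) := by
    apply convexHull_min _ (convex_convexHull ℝ _)
    intro y hy
    rcases hy with rfl | hy
    · exact hxS.1
    · exact subset_convexHull ℝ _ (Set.mem_insert_of_mem _ hy)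
  have habR : IsEdge W (toR a) (toR b) := edge_iff.mpr hab
  have hx'P : toR x' ∉ poly V := by
    intro hcon2
    have h1 := hull_nonneg habR hcon2
    rw [det_toR', hx'] at h1
    have h2 : (0 : ℤ) ≤ -glen (b - a) := by exact_mod_cast h1
    linarith
  apply hmin' x' ⟨hsub1 hx'hull, hx'P⟩
  apply Set.ncard_lt_ncard _ (finite_int_of_bounded (hull_insert_bounded (toR x) W))
  refine ⟨?_, ?_⟩
  · intro y hy
    simp only [Set.mem_ofPred_eq] at hy ⊢
    refine convexHull_min ?_ (convex_convexHull ℝ _) hy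
    intro v hv
    rcases hv with rfl | hv
    · exact hx'hull
    · exact subset_convexHull ℝ _ (Set.mem_insert_of_mem _ hv)
  · intro hcon2
    have h1 : toR x ∈ convexHull ℝ (insert (toR x') (W : Set (ℝ × ℝ))) :=
      hcon2 (subset_convexHull ℝ _ (Set.mem_insert _ _))
    have h2 := det_ge_hull (p := toR b - toR a) (a := toR a) (G := -((glen (b - a) : ℤ) : ℝ)) ?_
      (toR x) h1
    · rw [det_toR'] at h2
      have h3 : -glen (b - a) ≤ detZ (b - a) (x - a) := by exact_mod_cast h2
      linarith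
    · intro v hv
      rcases hv with rfl | hv
      · rw [det_toR', hx']; push_cast; linarith
      · have h3 := vertex_nonneg habR hv
        have h4 : (0 : ℝ) < (glen (b - a) : ℤ) := by exact_mod_cast hg
        linarith

/-- The shell is finite. -/
theorem shell_finite {V : Finset (ℤ × ℤ)} (hcard : 3 ≤ V.card) (hV : ConvexPos (vertexSet V)) :
    (shell V).Finite := by
  classical
  set W := vertexSet V with hW
  have hc3 : 3 ≤ W.card := by rw [hW, card_vertexSet]; exact hcard
  have hVne : V.Nonempty := by rw [← Finset.card_pos]; omega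
  -- bound of the lattice lengths
  obtain ⟨G, hG0, hG⟩ : ∃ G : ℝ, 0 ≤ G ∧ ∀ a ∈ V, ∀ b ∈ V, ((glen (b - a) : ℤ) : ℝ) ≤ G := by
    refine ⟨∑ p ∈ V ×ˢ V, |((glen (p.2 - p.1) : ℤ) : ℝ)|,
      Finset.sum_nonneg (fun _ _ => abs_nonneg _), ?_⟩
    intro a ha b hb
    refine (le_abs_self _).trans ?_
    exact Finset.single_le_sum (f := fun p : (ℤ × ℤ) × (ℤ × ℤ) => |((glen (p.2 - p.1) : ℤ) : ℝ)|)
      (fun _ _ => abs_nonneg _) (Finset.mem_product.mpr ⟨ha, hb⟩ : (a, b) ∈ V ×ˢ V)
  set n : ℝ := (V.card : ℝ) with hn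
  have hn0 : 0 < n := by rw [hn]; exact_mod_cast Finset.card_pos.mpr hVne
  -- centroid
  set o : ℝ × ℝ := (1 / n) • ∑ v ∈ V, toR v with ho
  have hdo : ∀ a b, IsEdgeZ V a b → 1 / n ≤ det (toR b - toR a) (o - toR a) := by
    intro a b hab
    have habR : IsEdge W (toR a) (toR b) := edge_iff.mpr hab
    have e1 : det (toR b - toR a) (o - toR a) =
        (1 / n) * ∑ v ∈ V, det (toR b - toR a) (toR v - toR a) := by
      have h1 : ∑ v ∈ V, det (toR b - toR a) (toR v - toR a) =
          det (toR b - toR a) (∑ v ∈ V, toR v) - n * det (toR b - toR a) (toR a) := by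
        have h2 : ∀ v : ℤ × ℤ, det (toR b - toR a) (toR v - toR a) =
            det (toR b - toR a) (toR v) - det (toR b - toR a) (toR a) := by
          intro v; unfold det; simp only [Prod.fst_sub, Prod.snd_sub]; ring
        rw [Finset.sum_congr rfl (fun v _ => h2 v), Finset.sum_sub_distrib, Finset.sum_const,
          nsmul_eq_mul]
        congr 1
        unfold det
        rw [Prod.fst_sum, Prod.snd_sum, Finset.mul_sum, Finset.mul_sum, ← Finset.sum_sub_distrib]
      rw [h1, ho]
      unfold det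
      simp only [Prod.fst_sub, Prod.snd_sub, Prod.smul_fst, Prod.smul_snd, smul_eq_mul]
      field_simp
      ring
    rw [e1]
    have h2 : (1 : ℝ) ≤ ∑ v ∈ V, det (toR b - toR a) (toR v - toR a) := by
      -- a third vertex
      obtain ⟨c, hc⟩ : ∃ c, IsEdge W c (toR a) := exists_prev hV (by omega) habR.1
      obtain ⟨c1, a1, hca, hc1, ha1⟩ := edge_lift hc
      have := toR_injective ha1; subst this
      have h3 : 0 < det (toR b - toR a1) (toR c1 - toR a1) :=
        det_pos_neighbours hc3 habR (edge_iff.mpr hca)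
      have h4 : (1 : ℝ) ≤ det (toR b - toR a1) (toR c1 - toR a1) := by
        rw [det_toR'] at h3 ⊢
        have h5 : 0 < detZ (b - a1) (c1 - a1) := by exact_mod_cast h3
        have h6 : 1 ≤ detZ (b - a1) (c1 - a1) := by omega
        exact_mod_cast h6
      refine h4.trans ?_
      exact Finset.single_le_sum (f := fun v => det (toR b - toR a1) (toR v - toR a1))
        (fun v hv => vertex_nonneg habR (mem_vertexSet.mpr ⟨v, hv, rfl⟩)) hca.1
    have h3 : 0 < 1 / n := by positivity
    nlinarith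
  -- boundedness
  have hPb : Bornology.IsBounded (convexHull ℝ (W : Set (ℝ × ℝ))) :=
    (W.finite_toSet.isCompact_convexHull ℝ).isBounded
  obtain ⟨B, hB⟩ := hPb.exists_norm_le
  set κ : ℝ := 1 / n with hκ
  have hκ0 : 0 < κ := by rw [hκ]; positivity
  set l : ℝ := κ / (κ + G) with hl
  have hl0 : 0 < l := by rw [hl]; positivity
  have hl1 : l ≤ 1 := by rw [hl, div_le_one (by linarith)]; linarith
  have hlk : l * (κ + G) = κ := by rw [hl]; field_simp
  have hbd : Bornology.IsBounded {y : ℝ × ℝ | (1 - l) • o + l • y ∈ convexHull ℝ (W : Set (ℝ × ℝ))} := by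
    rw [isBounded_iff_forall_norm_le]
    refine ⟨(B + (1 - l) * ‖o‖) / l, ?_⟩
    intro y hy
    have h1 := hB _ hy
    rw [le_div_iff₀ hl0]
    have h2 : ‖l • y‖ ≤ ‖(1 - l) • o + l • y‖ + ‖(1 - l) • o‖ := by
      have := norm_sub_le ((1 - l) • o + l • y) ((1 - l) • o)
      rwa [add_sub_cancel_left] at this
    rw [norm_smul, norm_smul, Real.norm_eq_abs, Real.norm_eq_abs, abs_of_pos hl0,
      abs_of_nonneg (by linarith : 0 ≤ 1 - l)] at h2
    linarith
  apply (finite_int_of_bounded hbd).subset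
  rintro x ⟨_, hx⟩
  show (1 - l) • o + l • toR x ∈ convexHull ℝ (W : Set (ℝ × ℝ))
  rw [mem_hull_iff hV hc3]
  intro a' b' hab'
  obtain ⟨a, b, hab, rfl, rfl⟩ := edge_lift hab'
  have h1 := hdo a b hab
  have h2 := hx a b hab
  have h3 : -((glen (b - a) : ℤ) : ℝ) ≤ det (toR b - toR a) (toR x - toR a) := by
    rw [det_toR']; exact_mod_cast h2
  have h4 := hG a hab.1 b hab.2.1
  have h5 : det (toR b - toR a) ((1 - l) • o + l • toR x - toR a) =
      (1 - l) * det (toR b - toR a) (o - toR a) + l * det (toR b - toR a) (toR x - toR a) := by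
    unfold det
    simp only [Prod.fst_sub, Prod.snd_sub, Prod.fst_add, Prod.snd_add, Prod.smul_fst,
      Prod.smul_snd, smul_eq_mul]
    ring
  rw [h5]
  have h6 : (1 - l) * κ ≤ (1 - l) * det (toR b - toR a) (o - toR a) :=
    mul_le_mul_of_nonneg_left h1 (by linarith)
  have h7 : l * (-G) ≤ l * det (toR b - toR a) (toR x - toR a) :=
    mul_le_mul_of_nonneg_left (by linarith) hl0.le
  linarith

end Pool.Agent.Lib.MP_2d08ba_nt
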