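import Pool.Agent.Lib.MP_2d08ba_nt.LiftEdge

set_option autoImplicit false

namespace Pool.Agent.Lib.MP_2d08ba_nt

open Real

variable {V : Finset (ℤ × ℤ)}

/-- `p` is the primitive vector of the edge `(a, b)` -/
structure Prim (a b p : ℤ × ℤ) : Prop where
  eq : b - a = glen (b - a) • p
  pos : 0 < glen (b - a)
  prim : ∃ s t : ℤ, p.1 * s + p.2 * t = 1

theorem exists_prim {a b : ℤ × ℤ} (h : IsEdgeZ V a b) : ∃ p, Prim a b p := by
  have hne : b - a ≠ 0 := fun h0 => h.2.2.1 (sub_eq_zero.mp h0).symm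
  have hgpos := glen_pos hne
  obtain ⟨u1, hu1⟩ : glen (b - a) ∣ (b - a).1 := Int.gcd_dvd_left _ _
  obtain ⟨u2, hu2⟩ : glen (b - a) ∣ (b - a).2 := Int.gcd_dvd_right _ _
  refine ⟨(u1, u2), ?_, hgpos, ?_⟩
  · ext
    · simpa using hu1
    · simpa using hu2
  · have h1 := Int.gcd_eq_gcd_ab (b - a).1 (b - a).2
    refine ⟨Int.gcdA (b - a).1 (b - a).2, Int.gcdB (b - a).1 (b - a).2, ?_⟩
    apply mul_left_cancel₀ hgpos.ne'
    have h3 : glen (b - a) = (b - a).1 * Int.gcdA (b - a).1 (b - a).2 +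
        (b - a).2 * Int.gcdB (b - a).1 (b - a).2 := h1
    calc glen (b - a) * (u1 * Int.gcdA (b - a).1 (b - a).2 + u2 * Int.gcdB (b - a).1 (b - a).2)
        = (glen (b - a) * u1) * Int.gcdA (b - a).1 (b - a).2 +
          (glen (b - a) * u2) * Int.gcdB (b - a).1 (b - a).2 := by ring
      _ = (b - a).1 * Int.gcdA (b - a).1 (b - a).2 +
          (b - a).2 * Int.gcdB (b - a).1 (b - a).2 := by rw [← hu1, ← hu2]
      _ = glen (b - a) * 1 := by rw [← h3]; ring

theorem detZ_smul_left (k : ℤ) (x y : ℤ × ℤ) : detZ (k • x) y = k * detZ x y := by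
  unfold detZ; simp only [Prod.smul_fst, Prod.smul_snd, smul_eq_mul]; ring

theorem detZ_smul_right (k : ℤ) (x y : ℤ × ℤ) : detZ x (k • y) = k * detZ x y := by
  unfold detZ; simp only [Prod.smul_fst, Prod.smul_snd, smul_eq_mul]; ring

theorem detZ_add_right (x y z : ℤ × ℤ) : detZ x (y + z) = detZ x y + detZ x z := by
  unfold detZ; simp only [Prod.fst_add, Prod.snd_add]; ring

theorem detZ_sub_right (x y z : ℤ × ℤ) : detZ x (y - z) = detZ x y - detZ x z := by
  unfold detZ; simp only [Prod.fst_sub, Prod.snd_sub]; ring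

theorem detZ_anti (x y : ℤ × ℤ) : detZ x y = -detZ y x := by unfold detZ; ring

theorem detZ_self (x : ℤ × ℤ) : detZ x x = 0 := by unfold detZ; ring

section prim

variable {a b p : ℤ × ℤ}

theorem Prim.det (h : Prim a b p) (w : ℤ × ℤ) : detZ (b - a) w = glen (b - a) * detZ p w := by
  conv_lhs => rw [h.eq]
  rw [detZ_smul_left]

theorem Prim.neg_iff (h : Prim a b p) (w : ℤ × ℤ) : detZ (b - a) w < 0 ↔ detZ p w < 0 := by
  rw [h.det]
  have := h.pos
  constructor
  · intro h1
    by_contra hcon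
    push Not at hcon
    have := mul_nonneg this.le hcon
    omega
  · intro h1
    exact mul_neg_of_pos_of_neg this h1

theorem Prim.pos_iff (h : Prim a b p) (w : ℤ × ℤ) : 0 < detZ (b - a) w ↔ 0 < detZ p w := by
  rw [h.det]
  exact mul_pos_iff_of_pos_left h.pos

theorem Prim.zero_iff (h : Prim a b p) (w : ℤ × ℤ) : detZ (b - a) w = 0 ↔ detZ p w = 0 := by
  rw [h.det]
  have := h.pos
  constructor
  · intro h1
    rcases mul_eq_zero.mp h1 with h2 | h2
    · omega
    · exact h2
  · intro h1; rw [h1]; ring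

theorem Prim.shell_ge (h : Prim a b p) (he : IsEdgeZ V a b) {x : ℤ × ℤ} (hx : x ∈ shell V) :
    -1 ≤ detZ p (x - b) := by
  have h1 := hx.2 a b he
  rw [← detZ_base, h.det] at h1
  have h2 := h.pos
  by_contra hcon
  push Not at hcon
  nlinarith

theorem Prim.shell_eq (h : Prim a b p) (he : IsEdgeZ V a b) {x : ℤ × ℤ} (hx : x ∈ shell V)
    (hb : detZ (b - a) (x - b) < 0) : detZ p (x - b) = -1 := by
  have h1 := h.shell_ge he hx
  have h2 := (h.neg_iff _).mp hb
  omega

theorem Prim.base (h : Prim a b p) (w : ℤ × ℤ) : detZ p (w - a) = detZ p (w - b) := by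
  have h1 : detZ p (b - a) = 0 := by rw [h.eq, detZ_smul_right, detZ_self, mul_zero]
  have e : w - a = (w - b) + (b - a) := by abel
  rw [e, detZ_add_right, h1, add_zero]

theorem Prim.multiple (h : Prim a b p) {w : ℤ × ℤ} (h0 : detZ p w = 0) : ∃ k : ℤ, w = k • p := by
  obtain ⟨s, t, hst⟩ := h.prim
  refine ⟨s * w.1 + t * w.2, ?_⟩
  unfold detZ at h0
  ext
  · simp only [Prod.smul_fst, smul_eq_mul]
    linear_combination (-w.1) * hst - t * h0
  · simp only [Prod.smul_snd, smul_eq_mul]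
    linear_combination (-w.2) * hst + s * h0

theorem toR_smul (k : ℤ) (w : ℤ × ℤ) : toR (k • w) = (k : ℝ) • toR w := by
  unfold toR; ext <;> simp

theorem Prim.toR_eq (h : Prim a b p) {ν : ℝ} (hL : LE V a b ν) :
    ∃ κ : ℝ, 0 < κ ∧ toR p = κ • tau ν := by
  obtain ⟨μ, hμ, h1⟩ := hL.dir
  have hg : (0 : ℝ) < (glen (b - a) : ℝ) := by exact_mod_cast h.pos
  refine ⟨μ / glen (b - a), div_pos hμ hg, ?_⟩
  have h2 : (glen (b - a) : ℝ) • toR p = μ • tau ν := by
    rw [← toR_smul, ← h.eq, toR_sub]; exact h1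
  rw [div_eq_inv_mul, mul_smul, ← h2, smul_smul, inv_mul_cancel₀ hg.ne', one_smul]

end prim

section order

variable {a b : ℤ × ℤ} {ν : ℝ}

theorem order_right (hcard : 3 ≤ V.card) {x y : ℤ × ℤ} {L R L' R' κ : ℝ}
    (hx : IsArc (vertexSet V) (toR x) L R) (hy : IsArc (vertexSet V) (toR y) L' R')
    (h1 : L < ν) (h2' : ν < R') (h1' : L' < ν) (hκ : 0 < κ)
    (hxy : toR y - toR x = κ • tau ν) : R < R' := by
  by_contra hcon
  push Not at hcon
  have hW := vertexSet_nonempty hcard
  obtain ⟨b1, hb1, h0⟩ := hy.right_zero hW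
  have h3 := hx.nonneg (θ := R') (by linarith) hcon hb1
  have e : toR x - b1 = (toR y - b1) - κ • tau ν := by rw [← hxy]; abel
  rw [e, dirf_sub, h0, dirf_smul, dirf_tau] at h3
  have hle := hy.le hW
  have h4 : 0 < sin (R' - ν) := sin_pos_of_pos_of_lt_pi (by linarith) (by linarith)
  have := mul_pos hκ h4
  linarith

theorem order_left (hcard : 3 ≤ V.card) {x y : ℤ × ℤ} {L R L' R' κ : ℝ}
    (hx : IsArc (vertexSet V) (toR x) L R) (hy : IsArc (vertexSet V) (toR y) L' R')
    (h1 : L < ν) (h2 : ν < R) (h2' : ν < R') (hκ : 0 < κ)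
    (hxy : toR y - toR x = κ • tau ν) : L < L' := by
  by_contra hcon
  push Not at hcon
  have hW := vertexSet_nonempty hcard
  obtain ⟨b1, hb1, h0⟩ := hx.left_zero hW
  have h3 := hy.nonneg (θ := L) hcon (by linarith) hb1
  have e : toR y - b1 = (toR x - b1) + κ • tau ν := by rw [← hxy]; abel
  rw [e, dirf_add, h0, dirf_smul, dirf_tau] at h3
  have hle := hx.le hW
  have h4 : sin (L - ν) < 0 := sin_neg_of_neg_of_neg_pi_lt (by linarith) (by linarith)
  have := mul_neg_of_pos_of_neg hκ h4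
  linarith

theorem arc_unique (hcard : 3 ≤ V.card) {x : ℝ × ℝ} {L R L' R' : ℝ}
    (hx : IsArc (vertexSet V) x L R) (hy : IsArc (vertexSet V) x L' R')
    (h1 : L < ν) (h2 : ν < R) (h1' : L' < ν) (h2' : ν < R') : R = R' := by
  have hW := vertexSet_nonempty hcard
  have key : ∀ {L R L' R' : ℝ}, IsArc (vertexSet V) x L R → IsArc (vertexSet V) x L' R' →
      L < ν → ν < R → L' < ν → ν < R' → ¬ R < R' := by
    intro L R L' R' hx hy h1 h2 h1' h2' hlt
    obtain ⟨b1, hb1, h0⟩ := hx.right_zero hW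
    have := hy.pos (θ := R) (by linarith) hlt hb1
    linarith
  rcases lt_trichotomy R R' with h | h | h
  · exact absurd h (key hx hy h1 h2 h1' h2')
  · exact h
  · exact absurd h (key hy hx h1' h2' h1 h2)

end order

/-- Two points of the shell on both sides of a vertex are blocked from each other. -/
theorem klem (hcard : 3 ≤ V.card) {a b c : ℤ × ℤ} {ν ν' : ℝ} (h : Cons V a b c ν ν')
    {u y : ℤ × ℤ} (hu : u ∈ shell V) (hy : y ∈ shell V) {L R L' R' : ℝ}
    (hua : IsArc (vertexSet V) (toR u) L R) (hya : IsArc (vertexSet V) (toR y) L' R')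
    (h1 : ν < R) (h2 : R < ν') (h3 : ν < L') : R ≤ L' := by
  by_contra hcon
  push Not at hcon
  obtain ⟨hu1, hu2, _⟩ := h.right_signs hcard hua h1 h2
  obtain ⟨hy1, hy2, _⟩ := h.left_signs hcard hya h3 (by linarith)
  have hgu := hu.2 a b h.e.edge
  rw [← detZ_base] at hgu
  have hgy := hy.2 b c h.e'.edge
  have hgy' := glen_le hy1
  have hgu' := glen_le hu2
  have hD := next_pos hcard h.e.edge h.e'.edge
  have hpl : detZ (b - a) (c - b) * detZ (y - b) (u - b) =
      detZ (b - a) (y - b) * detZ (c - b) (u - b) -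
      detZ (b - a) (u - b) * detZ (c - b) (y - b) := by
    unfold detZ; ring
  have hge : 0 ≤ detZ (y - b) (u - b) := by
    by_contra hneg
    push Not at hneg
    have h4 := mul_neg_of_pos_of_neg hD hneg
    have hg1 : 0 < glen (b - a) := glen_pos (fun h0 => h.e.edge.2.2.1 (sub_eq_zero.mp h0).symm)
    have hg2 : 0 < glen (c - b) := glen_pos (fun h0 => h.e'.edge.2.2.1 (sub_eq_zero.mp h0).symm)
    have h5 : glen (b - a) * glen (c - b) ≤ detZ (b - a) (y - b) * detZ (c - b) (u - b) :=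
      mul_le_mul hgy' hgu' hg2.le (by linarith)
    have h6 : (-detZ (b - a) (u - b)) * (-detZ (c - b) (y - b)) ≤
        glen (b - a) * glen (c - b) :=
      mul_le_mul (by linarith) (by linarith) (by linarith) (by linarith)
    nlinarith
  obtain ⟨lam, hlam, hu3⟩ := h.right hcard hua h1 h2
  obtain ⟨lam', hlam', hy3⟩ := h.left hcard hya h3 (by linarith)
  have h7 : (detZ (y - b) (u - b) : ℝ) = -(lam' * (lam * sin (R - L'))) := by
    rw [← det_toR, hy3, hu3, det_smul_left, det_smul_right, det_tau]; ring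
  have hlt' := h.lt'
  have h8 : 0 < sin (R - L') := sin_pos_of_pos_of_lt_pi (by linarith) (by linarith)
  have h9 : (0 : ℝ) ≤ (detZ (y - b) (u - b) : ℝ) := by exact_mod_cast hge
  rw [h7] at h9
  have := mul_pos hlam' (mul_pos hlam h8)
  linarith

/-- lattice points between two shell points beyond the same edge are in the shell -/
theorem shell_between {a b p x : ℤ × ℤ} (he : IsEdgeZ V a b) (hp : Prim a b p)
    (hx : x ∈ shell V) {k : ℤ} (hk : 1 ≤ k) (hy : x + k • p ∈ shell V)
    (hb : detZ (b - a) (x - b) < 0) : x + (k - 1) • p ∈ shell V := by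
  refine ⟨?_, ?_⟩
  · intro hmem
    have h1 := hull_nonneg (edge_iff.mpr he) hmem
    rw [det_toR'] at h1
    have h2 : 0 ≤ detZ (b - a) (x + (k - 1) • p - a) := by exact_mod_cast h1
    have h3 : detZ (b - a) (x + (k - 1) • p - a) = detZ (b - a) (x - b) := by
      rw [← detZ_base (b := b)]
      have e : x + (k - 1) • p - b = (x - b) + (k - 1) • p := by abel
      rw [e, detZ_add_right, detZ_smul_right, hp.det p, detZ_self]; ring
    omega
  · intro a1 b1 h1
    have h2 := hx.2 a1 b1 h1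
    have h3 := hy.2 a1 b1 h1
    have e1 : x + (k - 1) • p - a1 = (x - a1) + (k - 1) • p := by abel
    have e2 : x + k • p - a1 = (x - a1) + k • p := by abel
    rw [e1, detZ_add_right, detZ_smul_right]
    rw [e2, detZ_add_right, detZ_smul_right] at h3
    set A := detZ (b1 - a1) (x - a1)
    set B := detZ (b1 - a1) p
    rcases le_or_gt 0 B with hB | hB
    · have : 0 ≤ (k - 1) * B := mul_nonneg (by omega) hB
      linarith
    · nlinarith

end Pool.Agent.Lib.MP_2d08ba_nt
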