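import Pool.Agent.Lib.MP_2d08ba_nt.Bounded

set_option autoImplicit false

namespace Pool.Agent.Lib.MP_2d08ba_nt

open Real Filter Topology

/-- Integer scalar product. -/
def dotZ (x y : ℤ × ℤ) : ℤ := x.1 * y.1 + x.2 * y.2

/-- `x` lies beyond the line of the edge `(a, b)`, or on this line past `b` (if `s = true`),
respectively on this line before `a` (if `s = false`). -/
def Tilt (a b : ℤ × ℤ) (s : Bool) (x : ℤ × ℤ) : Prop :=
  detZ (b - a) (x - a) < 0 ∨
    (detZ (b - a) (x - a) = 0 ∧ if s then 0 < dotZ (b - a) (x - b) else dotZ (b - a) (x - a) < 0)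

variable {V : Finset (ℤ × ℤ)}

/-- every direction lies between the normals of two consecutive edges -/
theorem exists_bracket (hcard : 3 ≤ V.card) (hV : ConvexPos (vertexSet V)) (R : ℝ) :
    ∃ a b c ν ν', Cons V a b c ν ν' ∧ ν < R ∧ R ≤ ν' := by
  classical
  have hpi := Real.pi_pos
  have hVne : V.Nonempty := by rw [← Finset.card_pos]; omega
  obtain ⟨b0, hb0, hmax⟩ := Finset.exists_max_image V (fun v => dirf R (toR v)) hVne
  set M : Finset (ℤ × ℤ) := V.filter (fun v => dirf R (toR v) = dirf R (toR b0)) with hM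
  have hMne : M.Nonempty := ⟨b0, Finset.mem_filter.mpr ⟨hb0, rfl⟩⟩
  obtain ⟨b, hb, hmin⟩ := Finset.exists_min_image M
    (fun v => -sin R * (toR v).1 + cos R * (toR v).2) hMne
  rw [hM, Finset.mem_filter] at hb
  have hle : ∀ v ∈ V, dirf R (toR (v - b)) ≤ 0 := by
    intro v hv
    have h1 := hmax v hv
    rw [toR_sub, dirf_sub, hb.2]; linarith
  obtain ⟨a, ha⟩ := exists_prevZ hcard hV hb.1
  obtain ⟨c, hc⟩ := exists_nextZ hcard hV hb.1
  obtain ⟨ν, h1, h2, h3⟩ := exists_LE' ha R
  obtain ⟨ν'', h1'', h2'', h3''⟩ := exists_LE hc (ν)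
  have hνR : ν ≠ R := by
    intro h4
    obtain ⟨μ, hμ, h5⟩ := h1.dir
    have haM : a ∈ M := by
      rw [hM, Finset.mem_filter]
      refine ⟨ha.1, ?_⟩
      have e : toR a = toR b - (toR b - toR a) := by abel
      rw [e, dirf_sub, hb.2, h5, dirf_smul, dirf_tau, h4, sub_self, sin_zero]; ring
    have h6 := hmin a haM
    have h7 : toR b = toR a + μ • tau R := by rw [← h4, ← h5]; abel
    rw [h7] at h6
    unfold tau at h6
    simp only [Prod.fst_add, Prod.snd_add, Prod.smul_fst, Prod.smul_snd, smul_eq_mul] at h6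
    have h8 := sin_sq_add_cos_sq R
    have h9 : μ * (sin R ^ 2 + cos R ^ 2) ≤ 0 := by nlinarith
    rw [h8] at h9
    linarith
  have hνlt : ν < R := lt_of_le_of_ne h3 hνR
  have hs1 : 0 ≤ sin (R - ν) := by
    obtain ⟨μ, hμ, h5⟩ := h1.dir
    have h6 := hle a ha.1
    have e : toR (a - b) = (-μ) • tau ν := by
      rw [toR_sub, neg_smul, ← h5]; abel
    rw [e, dirf_smul, dirf_tau] at h6
    by_contra hcon
    push Not at hcon
    have := mul_pos_of_neg_of_neg (neg_lt_zero.mpr hμ) hcon
    linarith
  have hνπ : R - ν ≤ π := by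
    by_contra hcon
    push Not at hcon
    have h4 : sin (R - ν - π) = -sin (R - ν) := sin_sub_pi _
    have h5 : 0 < sin (R - ν - π) := sin_pos_of_pos_of_lt_pi (by linarith) (by linarith)
    linarith
  have hthird : ∃ d ∈ V, d ≠ a ∧ d ≠ b := by
    by_contra hcon
    push Not at hcon
    have : V ⊆ {a, b} := by
      intro d hd
      by_cases hda : d = a
      · simp [hda]
      · have := hcon d hd hda
        simp [this]
    have h2 := Finset.card_le_card this
    have h3 : ({a, b} : Finset (ℤ × ℤ)).card ≤ 2 := Finset.card_le_two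
    omega
  have hνπ' : R - ν ≠ π := by
    intro h4
    obtain ⟨d, hd, hda, hdb⟩ := hthird
    have h5 := h1.vertex_strict hd hda hdb
    have h6 : ν = R - π := by linarith
    rw [h6, dirf_sub_pi] at h5
    have := hle d hd
    linarith
  have hνπ'' : R < ν + π := by
    have := lt_of_le_of_ne hνπ hνπ'
    linarith
  have h4 := sin_next hcard h1 h1''
  have hne2 : ν'' ≠ ν + 2 * π := by
    intro h6
    rw [h6] at h4
    have : ν + 2 * π - ν = 2 * π := by ring
    rw [this, sin_two_pi] at h4
    exact lt_irrefl _ h4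
  have h6 := sin_pos_range (by
    have := lt_of_le_of_ne h3'' hne2; linarith) h4
  have hC : Cons V a b c ν ν'' := ⟨h1, h1'', h2'', by linarith⟩
  have hRle : R ≤ ν'' := by
    by_contra hcon
    push Not at hcon
    obtain ⟨μ, hμ, h5⟩ := h1''.dir
    have h7 := hle c hc.2.1
    rw [toR_sub, h5, dirf_smul, dirf_tau] at h7
    have h8 : 0 < sin (R - ν'') := sin_pos_of_pos_of_lt_pi (by linarith) (by linarith)
    have := mul_pos hμ h8
    linarith
  exact ⟨a, b, c, ν, ν'', hC, hνlt, hRle⟩

/-- scalar products along an edge -/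
theorem LE.dot {a b : ℤ × ℤ} {ν : ℝ} (h : LE V a b ν) {w : ℤ × ℤ} {κ : ℝ}
    (hw : toR w = κ • tau ν) : ∃ μ : ℝ, 0 < μ ∧ (dotZ (b - a) w : ℝ) = μ * κ := by
  obtain ⟨μ, hμ, h1⟩ := h.dir
  refine ⟨μ, hμ, ?_⟩
  have e1 : ((b - a).1 : ℝ) = μ * (-sin ν) := by
    have := congrArg Prod.fst h1
    simpa [toR, tau] using this
  have e2 : ((b - a).2 : ℝ) = μ * cos ν := by
    have := congrArg Prod.snd h1
    simpa [toR, tau] using this
  have e3 : (w.1 : ℝ) = κ * (-sin ν) := by
    have := congrArg Prod.fst hw
    simpa [toR, tau] using this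
  have e4 : (w.2 : ℝ) = κ * cos ν := by
    have := congrArg Prod.snd hw
    simpa [toR, tau] using this
  unfold dotZ
  push_cast
  rw [e1, e2, e3, e4]
  have := sin_sq_add_cos_sq ν
  linear_combination (μ * κ) * this

/-- The shell points separated from the polygon in a given direction lie in one of the tilted
half-planes. -/
theorem exists_tilt (hcard : 3 ≤ V.card) (hV : ConvexPos (vertexSet V)) (θ : ℝ) :
    ∃ a b s, IsEdgeZ V a b ∧ ∀ x ∈ shell V,
      (∀ v ∈ vertexSet V, 0 < dirf θ (toR x - v)) → Tilt a b s x := by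
  obtain ⟨a, b, c, ν, ν', h, h1, h2⟩ := exists_bracket hcard hV θ
  have hlt := h.lt
  have hlt' := h.lt'
  have hpi := Real.pi_pos
  have hbW : toR b ∈ vertexSet V := mem_vertexSet.mpr ⟨b, h.e.edge.2.1, rfl⟩
  rcases lt_or_eq_of_le h2 with h3 | h3
  · -- strictly between
    have hlift : ∀ x ∈ shell V, (∀ v ∈ vertexSet V, 0 < dirf θ (toR x - v)) →
        ∃ L R, IsArc (vertexSet V) (toR x) L R ∧ L < θ ∧ θ < R := by
      intro x hx hθ
      obtain ⟨L, R, harc⟩ := exists_isArc (vertexSet_nonempty hcard) hx.1
      obtain ⟨k, hk1, hk2⟩ := (harc.iff θ).mp hθ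
      refine ⟨L + (-k : ℤ) * (2 * π), R + (-k : ℤ) * (2 * π), harc.shift (-k), ?_, ?_⟩
      · push_cast; linarith
      · push_cast; linarith
    by_cases hA : ∃ y ∈ shell V, (∀ v ∈ vertexSet V, 0 < dirf θ (toR y - v)) ∧
        0 < detZ (b - a) (y - b)
    · obtain ⟨y, hy, hyθ, hyb⟩ := hA
      refine ⟨b, c, false, h.e'.edge, ?_⟩
      intro x hx hxθ
      obtain ⟨L, R, harc, hL, hR⟩ := hlift x hx hxθ
      obtain ⟨L', R', harc', hL', hR'⟩ := hlift y hy hyθ
      have hνL' : ν < L' := by
        rcases lt_trichotomy ν L' with g | g | g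
        · exact g
        · have := h.e.left_on hcard harc' g.symm
          omega
        · have := h.e.beyond harc' g (by linarith)
          omega
      have hnn : detZ (c - b) (x - b) ≤ 0 := by
        by_contra hcon
        push Not at hcon
        have hRν' : R < ν' := by
          rcases lt_trichotomy R ν' with g | g | g
          · exact g
          · have := h.e'.right_on hcard harc g
            rw [detZ_base] at this
            omega
          · have := h.e'.beyond harc (by linarith) g
            rw [detZ_base] at this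
            omega
        have := klem hcard h hx hy harc harc' (by linarith) hRν' hνL'
        linarith
      rcases lt_or_eq_of_le hnn with g | g
      · left; exact g
      · right
        refine ⟨g, ?_⟩
        simp only [Bool.false_eq_true, if_false]
        have g1 := (h.e'.zero_iff _).mp g
        have g2 := eq_tau_of_dirf_zero g1
        set κ := -sin ν' * (toR (x - b)).1 + cos ν' * (toR (x - b)).2 with hκ
        have g3 := hxθ _ hbW
        rw [← toR_sub, g2, dirf_smul, dirf_tau] at g3
        have g4 : sin (θ - ν') < 0 := sin_neg_of_neg_of_neg_pi_lt (by linarith) (by linarith)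
        have g5 : κ < 0 := by
          by_contra hcon
          push Not at hcon
          have := mul_nonpos_of_nonneg_of_nonpos hcon g4.le
          linarith
        obtain ⟨μ, hμ, g6⟩ := h.e'.dot g2
        have g7 : (dotZ (c - b) (x - b) : ℝ) < 0 := by
          rw [g6]; exact mul_neg_of_pos_of_neg hμ g5
        exact_mod_cast g7
    · push Not at hA
      refine ⟨a, b, true, h.e.edge, ?_⟩
      intro x hx hxθ
      have hnn := hA x hx hxθ
      rcases lt_or_eq_of_le hnn with g | g
      · left; rw [← detZ_base]; exact g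
      · right
        refine ⟨by rw [← detZ_base]; exact g, ?_⟩
        simp only [if_true]
        have g1 := (h.e.zero_iff _).mp g
        have g2 := eq_tau_of_dirf_zero g1
        set κ := -sin ν * (toR (x - b)).1 + cos ν * (toR (x - b)).2 with hκ
        have g3 := hxθ _ hbW
        rw [← toR_sub, g2, dirf_smul, dirf_tau] at g3
        have g4 : 0 < sin (θ - ν) := sin_pos_of_pos_of_lt_pi (by linarith) (by linarith)
        have g5 : 0 < κ := (mul_pos_iff_of_pos_right g4).mp g3
        obtain ⟨μ, hμ, g6⟩ := h.e.dot g2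
        have g7 : 0 < (dotZ (b - a) (x - b) : ℝ) := by
          rw [g6]; exact mul_pos hμ g5
        exact_mod_cast g7
  · refine ⟨b, c, true, h.e'.edge, ?_⟩
    intro x hx hxθ
    left
    rw [h.e'.neg_iff, ← h3, toR_sub]
    exact hxθ _ hbW

/-- near the normal of an edge, the points of a tilted half-plane are separated -/
theorem eventually_sep {a b : ℤ × ℤ} {ν : ℝ} (h : LE V a b ν) {x v : ℤ × ℤ} (hv : v ∈ V)
    (hx : Tilt a b true x) : ∀ᶠ θ in 𝓝[>] ν, 0 < dirf θ (toR x - toR v) := by
  have hpos : 0 < dirf ν (toR x - toR v) →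
      ∀ᶠ θ in 𝓝[>] ν, 0 < dirf θ (toR x - toR v) := by
    intro h1
    have h2 : ∀ᶠ θ in 𝓝 ν, 0 < dirf θ (toR x - toR v) :=
      (continuous_dirf (toR x - toR v)).continuousAt.eventually (lt_mem_nhds h1)
    exact h2.filter_mono nhdsWithin_le_nhds
  have hvb := h.vertex hv
  have e : toR x - toR v = toR (x - b) - toR (v - b) := by
    rw [← toR_sub, ← toR_sub]; congr 1; abel
  rcases hx with hx | ⟨hx0, hx1⟩
  · apply hpos
    rw [← detZ_base] at hx
    have h1 := (h.neg_iff _).mp hx
    rw [e, dirf_sub]; linarith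
  · simp only [if_true] at hx1
    rw [← detZ_base] at hx0
    have h1 := (h.zero_iff _).mp hx0
    rcases lt_or_eq_of_le hvb with h2 | h2
    · apply hpos
      rw [e, dirf_sub]; linarith
    · -- v is a or b
      have hvab : v = a ∨ v = b := by
        by_contra hcon
        push Not at hcon
        have := h.vertex_strict hv hcon.1 hcon.2
        linarith
      have h3 : dirf ν (toR x - toR v) = 0 := by rw [e, dirf_sub, h1, h2]; ring
      have h4 := eq_tau_of_dirf_zero h3
      set κ := -sin ν * (toR x - toR v).1 + cos ν * (toR x - toR v).2 with hκ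
      have hdot : 0 < dotZ (b - a) (x - v) := by
        rcases hvab with rfl | rfl
        · have e1 : dotZ (b - v) (x - v) = dotZ (b - v) (x - b) + dotZ (b - v) (b - v) := by
            unfold dotZ; simp only [Prod.fst_sub, Prod.snd_sub]; ring
          have e2 : 0 ≤ dotZ (b - v) (b - v) := by
            unfold dotZ
            nlinarith [mul_self_nonneg (b - v).1, mul_self_nonneg (b - v).2]
          omega
        · exact hx1
      have hκ0 : 0 < κ := by
        obtain ⟨μ, hμ, h5⟩ := h.dot (w := x - v) (κ := κ) (by rw [toR_sub]; exact h4)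
        have h6 : (0 : ℝ) < (dotZ (b - a) (x - v) : ℝ) := by exact_mod_cast hdot
        rw [h5] at h6
        exact (mul_pos_iff_of_pos_left hμ).mp h6
      have h7 : ∀ᶠ θ in 𝓝[>] ν, θ ∈ Set.Ioo ν (ν + π) :=
        Ioo_mem_nhdsGT (by linarith [Real.pi_pos])
      filter_upwards [h7] with θ hθ
      rw [h4, dirf_smul, dirf_tau]
      exact mul_pos hκ0 (sin_pos_of_pos_of_lt_pi (by linarith [hθ.1]) (by linarith [hθ.2]))

theorem eventually_sep' {a b : ℤ × ℤ} {ν : ℝ} (h : LE V a b ν) {x v : ℤ × ℤ} (hv : v ∈ V)
    (hx : Tilt a b false x) : ∀ᶠ θ in 𝓝[<] ν, 0 < dirf θ (toR x - toR v) := by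
  have hpos : 0 < dirf ν (toR x - toR v) →
      ∀ᶠ θ in 𝓝[<] ν, 0 < dirf θ (toR x - toR v) := by
    intro h1
    have h2 : ∀ᶠ θ in 𝓝 ν, 0 < dirf θ (toR x - toR v) :=
      (continuous_dirf (toR x - toR v)).continuousAt.eventually (lt_mem_nhds h1)
    exact h2.filter_mono nhdsWithin_le_nhds
  have hvb := h.vertex hv
  have e : toR x - toR v = toR (x - b) - toR (v - b) := by
    rw [← toR_sub, ← toR_sub]; congr 1; abel
  rcases hx with hx | ⟨hx0, hx1⟩
  · apply hpos
    rw [← detZ_base] at hx
    have h1 := (h.neg_iff _).mp hx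
    rw [e, dirf_sub]; linarith
  · simp only [Bool.false_eq_true, if_false] at hx1
    rw [← detZ_base] at hx0
    have h1 := (h.zero_iff _).mp hx0
    rcases lt_or_eq_of_le hvb with h2 | h2
    · apply hpos
      rw [e, dirf_sub]; linarith
    · have hvab : v = a ∨ v = b := by
        by_contra hcon
        push Not at hcon
        have := h.vertex_strict hv hcon.1 hcon.2
        linarith
      have h3 : dirf ν (toR x - toR v) = 0 := by rw [e, dirf_sub, h1, h2]; ring
      have h4 := eq_tau_of_dirf_zero h3
      set κ := -sin ν * (toR x - toR v).1 + cos ν * (toR x - toR v).2 with hκ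
      have hdot : dotZ (b - a) (x - v) < 0 := by
        rcases hvab with rfl | rfl
        · exact hx1
        · have e1 : dotZ (v - a) (x - v) = dotZ (v - a) (x - a) - dotZ (v - a) (v - a) := by
            unfold dotZ; simp only [Prod.fst_sub, Prod.snd_sub]; ring
          have e2 : 0 ≤ dotZ (v - a) (v - a) := by
            unfold dotZ
            nlinarith [mul_self_nonneg (v - a).1, mul_self_nonneg (v - a).2]
          omega
      have hκ0 : κ < 0 := by
        obtain ⟨μ, hμ, h5⟩ := h.dot (w := x - v) (κ := κ) (by rw [toR_sub]; exact h4)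
        have h6 : (dotZ (b - a) (x - v) : ℝ) < 0 := by exact_mod_cast hdot
        rw [h5] at h6
        by_contra hcon
        push Not at hcon
        have := mul_nonneg hμ.le hcon
        linarith
      have h7 : ∀ᶠ θ in 𝓝[<] ν, θ ∈ Set.Ioo (ν - π) ν :=
        Ioo_mem_nhdsLT (by linarith [Real.pi_pos])
      filter_upwards [h7] with θ hθ
      rw [h4, dirf_smul, dirf_tau]
      exact mul_pos_of_neg_of_neg hκ0
        (sin_neg_of_neg_of_neg_pi_lt (by linarith [hθ.2]) (by linarith [hθ.1]))

/-- if finitely many directions separate all shell points then the polygon is realizable -/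
theorem realizable_of_directions {m : ℕ} (hcard : 3 ≤ V.card)
    (hV : ConvexPos (vertexSet V)) (θ : Fin (m + 1) → ℝ)
    (hθ : ∀ x ∈ shell V, ∃ j, ∀ v ∈ vertexSet V, 0 < dirf (θ j) (toR x - v)) :
    Realizable m (poly V) := by
  classical
  have hW := vertexSet_nonempty hcard
  have hfin := shell_finite hcard hV
  have hsup : ∀ j : Fin (m + 1), ∃ v ∈ vertexSet V, ∀ v' ∈ vertexSet V,
      dirf (θ j) v' ≤ dirf (θ j) v := fun j => Finset.exists_max_image _ (dirf (θ j)) hW
  choose s hsW hs using hsup
  -- a uniform gap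
  obtain ⟨δ, hδ, hgap⟩ : ∃ δ > 0, ∀ x ∈ shell V, ∃ j,
      δ < dirf (θ j) (toR x) - dirf (θ j) (s j) := by
    have : Fintype (shell V) := hfin.fintype
    have h1 : ∀ x : shell V, ∃ j, 0 < dirf (θ j) (toR x.1) - dirf (θ j) (s j) := by
      intro x
      obtain ⟨j, hj⟩ := hθ x.1 x.2
      refine ⟨j, ?_⟩
      have := hj (s j) (hsW j)
      rw [dirf_sub] at this
      exact this
    choose jx hjx using h1
    rcases isEmpty_or_nonempty (shell V) with hem | hne
    · exact ⟨1, one_pos, fun x hx => (hem.false ⟨x, hx⟩).elim⟩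
    · obtain ⟨x0, hx0⟩ := Finite.exists_min
        (fun x : shell V => dirf (θ (jx x)) (toR x.1) - dirf (θ (jx x)) (s (jx x)))
      refine ⟨(dirf (θ (jx x0)) (toR x0.1) - dirf (θ (jx x0)) (s (jx x0))) / 2,
        by have := hjx x0; linarith, ?_⟩
      intro x hx
      refine ⟨jx ⟨x, hx⟩, ?_⟩
      have h2 := hx0 ⟨x, hx⟩
      have h3 := hjx x0
      simp only at h2
      linarith
  refine realizable_of_functionals (ι := Fin (m + 1)) (by simp) hW (vertexSet_lattice V)
    (fun j => (-cos (θ j), -sin (θ j), dirf (θ j) (s j) + δ)) ?_ ?_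
  · intro j v hv
    have h1 := hs j v hv
    unfold aff
    unfold dirf at h1 ⊢
    simp only
    linarith
  · rintro z ⟨z', rfl⟩ hz
    obtain ⟨x, hx, hxz⟩ := exists_shell (V := V) (z := z') hz
    obtain ⟨j, hj⟩ := hgap x hx
    refine ⟨j, ?_⟩
    by_contra hcon2
    push Not at hcon2
    have h1 : toR x ∈ {y : ℝ × ℝ | 0 ≤ aff (-cos (θ j), -sin (θ j),
        dirf (θ j) (s j) + δ) y} := by
      refine convexHull_min ?_ (aff_nonneg_convex _) hxz
      intro y hy
      rcases hy with rfl | hy
      · exact hcon2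
      · have h1 := hs j y hy
        simp only [Set.mem_ofPred_eq]
        unfold aff
        unfold dirf at h1 ⊢
        simp only
        linarith
    simp only [Set.mem_ofPred_eq] at h1
    unfold aff at h1
    unfold dirf at h1 hj
    simp only at h1
    linarith

/-- **Explicit criterion.** -/
theorem tilt_main (m : ℕ) (hm : 2 ≤ m) (hcard : 3 ≤ V.card) (hV : ConvexPos (vertexSet V)) :
    Realizable m (poly V) ↔ ∃ (a b : Fin (m + 1) → ℤ × ℤ) (s : Fin (m + 1) → Bool),
      (∀ i, IsEdgeZ V (a i) (b i)) ∧ ∀ x ∈ shell V, ∃ i, Tilt (a i) (b i) (s i) x := by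
  classical
  have hfin := shell_finite hcard hV
  constructor
  · intro hreal
    obtain ⟨f, hpos, hlat⟩ := functionals_of_realizable hm hreal
    -- the direction of each functional
    have hdir : ∀ i : Fin (m + 1), ∃ a b s, IsEdgeZ V a b ∧ ∀ x ∈ shell V,
        aff (f i) (toR x) < 0 → Tilt a b s x := by
      intro i
      set z : ℂ := ⟨-(f i).1, -(f i).2.1⟩ with hz
      obtain ⟨a, b, s, hab, h⟩ := exists_tilt hcard hV z.arg
      refine ⟨a, b, s, hab, ?_⟩
      intro x hx hneg
      apply h x hx
      intro v hv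
      have h1 := hpos i v hv
      have h2 : 0 < ‖z‖ * dirf z.arg (toR x - v) := by
        unfold dirf
        have e1 : ‖z‖ * cos z.arg = -(f i).1 := Complex.norm_mul_cos_arg z
        have e2 : ‖z‖ * sin z.arg = -(f i).2.1 := Complex.norm_mul_sin_arg z
        have e3 : ‖z‖ * (cos z.arg * (toR x - v).1 + sin z.arg * (toR x - v).2) =
            (‖z‖ * cos z.arg) * (toR x - v).1 + (‖z‖ * sin z.arg) * (toR x - v).2 := by ring
        rw [e3, e1, e2]
        unfold aff at h1 hneg
        simp only [Prod.fst_sub, Prod.snd_sub]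
        linarith
      by_contra hcon
      push Not at hcon
      have := mul_nonpos_of_nonneg_of_nonpos (norm_nonneg z) hcon
      linarith
    choose a b s hab h using hdir
    refine ⟨a, b, s, hab, ?_⟩
    intro x hx
    obtain ⟨j, hj⟩ := hlat _ ⟨x, rfl⟩ hx.1
    exact ⟨j, h j x hx hj⟩
  · rintro ⟨a, b, s, hab, hcov⟩
    have hdir : ∀ i : Fin (m + 1), ∃ θ : ℝ, ∀ x ∈ shell V, Tilt (a i) (b i) (s i) x →
        ∀ v ∈ V, 0 < dirf θ (toR x - toR v) := by
      intro i
      obtain ⟨ν, hν, _⟩ := exists_LE (hab i) 0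
      rcases hs : s i with _ | _
      · have hall : ∀ᶠ θ in 𝓝[<] ν, ∀ x ∈ shell V, Tilt (a i) (b i) false x →
            ∀ v ∈ V, 0 < dirf θ (toR x - toR v) := by
          rw [hfin.eventually_all]
          intro x _
          by_cases hx : Tilt (a i) (b i) false x
          · have : ∀ᶠ θ in 𝓝[<] ν, ∀ v ∈ V, 0 < dirf θ (toR x - toR v) := by
              rw [Finset.eventually_all]
              intro v hv
              exact eventually_sep' hν hv hx
            filter_upwards [this] with θ hθ _
            exact hθ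
          · exact Eventually.of_forall (fun θ h => absurd h hx)
        exact hall.exists
      · have hall : ∀ᶠ θ in 𝓝[>] ν, ∀ x ∈ shell V, Tilt (a i) (b i) true x →
            ∀ v ∈ V, 0 < dirf θ (toR x - toR v) := by
          rw [hfin.eventually_all]
          intro x _
          by_cases hx : Tilt (a i) (b i) true x
          · have : ∀ᶠ θ in 𝓝[>] ν, ∀ v ∈ V, 0 < dirf θ (toR x - toR v) := by
              rw [Finset.eventually_all]
              intro v hv
              exact eventually_sep hν hv hx
            filter_upwards [this] with θ hθ _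
            exact hθ
          · exact Eventually.of_forall (fun θ h => absurd h hx)
        exact hall.exists
    choose θ hθ using hdir
    apply realizable_of_directions hcard hV θ
    intro x hx
    obtain ⟨i, hi⟩ := hcov x hx
    refine ⟨i, ?_⟩
    intro v hv
    obtain ⟨v', hv', rfl⟩ := mem_vertexSet.mp hv
    exact hθ i x hx hi v' hv'

end Pool.Agent.Lib.MP_2d08ba_nt
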