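import Pool.Agent.Lib.MP_2d08ba_nt.Steps

set_option autoImplicit false

namespace Pool.Agent.Lib.MP_2d08ba_nt

open Real

variable {V : Finset (ℤ × ℤ)} [Fintype (shell V)] [Nonempty (shell V)] {l r : shell V → ℝ}

/-- the arcs of the shell points -/
def ArcSys (V : Finset (ℤ × ℤ)) (l r : shell V → ℝ) : Prop :=
  ∀ x : shell V, IsArc (vertexSet V) (toR x.1) (l x) (r x)

omit [Fintype (shell V)] [Nonempty (shell V)] in
theorem lift_arc (harc : ArcSys V l r) {x : shell V} {L R : ℝ} (h : Lift l r (2 * π) x L R) :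
    IsArc (vertexSet V) (toR x.1) L R := by
  obtain ⟨k, rfl, rfl⟩ := h
  exact (harc x).shift k

omit [Fintype (shell V)] [Nonempty (shell V)] in
theorem exists_lift_at (harc : ArcSys V l r) {a b : ℤ × ℤ} {ν : ℝ} (hLE : LE V a b ν)
    (x : shell V) (hb : detZ (b - a) (x.1 - b) < 0) :
    ∃ L R, Lift l r (2 * π) x L R ∧ L < ν ∧ ν < R := by
  obtain ⟨k, h1, h2⟩ := hLE.exists_lift (harc x) hb
  exact ⟨_, _, ⟨k, rfl, rfl⟩, h1, h2⟩

/-- First window lemma: the second iterates of the greedy map in the window of a shell point whose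
arc ends strictly between two consecutive normals. -/
theorem window_one (hcard : 3 ≤ V.card) (harc : ArcSys V l r) {z a b c p0 p : ℤ × ℤ}
    {ν0 ν ν' : ℝ} (h0 : Cons V z a b ν0 ν) (h : Cons V a b c ν ν') (hp0 : Prim z a p0)
    (hp : Prim a b p) {x : shell V} {L R : ℝ} (hx : Lift l r (2 * π) x L R) (h1 : ν < R)
    (h2 : R < ν') {e s s' : ℝ} (hs : s = Fm l r two_pi_pos s') (he : e = Fm l r two_pi_pos s)
    (hRe : R < e) (heF : e < Fm l r two_pi_pos R) :
    e = Fm l r two_pi_pos ν ∨ (∃ y : shell V, y.1 = x.1 + p ∧ (∃ L', Lift l r (2 * π) y L' e ∧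
      L' < ν) ∧ detZ p0 (x.1 - a) ≤ 0) ∨ (∃ y : shell V, y.1 = x.1 + (2 : ℤ) • p ∧ (∃ L', Lift l r (2 * π) y L' e ∧
      L' < ν) ∧ detZ p0 p = 1 ∧ detZ p0 (x.1 - a) = -1) := by
  have hxa := lift_arc harc hx
  obtain ⟨y, Ly, hy, hsy⟩ := Fm_lift (l := l) (r := r) two_pi_pos s
  rw [← he] at hy
  have hya := lift_arc harc hy
  obtain ⟨hx1, hx2, hLν⟩ := h.right_signs hcard hxa h1 h2
  have hsL : L < s := by
    by_contra hcon
    push Not at hcon
    have := Fm_le two_pi_pos hx hcon
    linarith
  have hLy : Ly ≤ ν := by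
    by_contra hcon
    push Not at hcon
    have h3 := klem hcard h x.2 y.2 hxa hya h1 h2 hcon
    have := Fm_le two_pi_pos hy h3
    linarith
  rcases lt_or_eq_of_le hLy with hLy' | hLy'
  · right
    have hye : detZ (b - a) (y.1 - b) < 0 := h.e.beyond hya hLy' (by linarith)
    have hpx := hp.shell_eq h.e.edge x.2 hx1
    have hpy := hp.shell_eq h.e.edge y.2 hye
    have hpyx : detZ p (y.1 - x.1) = 0 := by
      have e : y.1 - x.1 = (y.1 - b) - (x.1 - b) := by abel
      rw [e, detZ_sub_right, hpx, hpy]; ring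
    obtain ⟨k, hk⟩ := hp.multiple hpyx
    obtain ⟨κ, hκ, hpκ⟩ := hp.toR_eq h.e
    have hk1 : 1 ≤ k := by
      by_contra hcon
      push Not at hcon
      rcases (by omega : k = 0 ∨ k ≤ -1) with h3 | h3
      · rw [h3, zero_smul] at hk
        have h4 : y.1 = x.1 := sub_eq_zero.mp hk
        rw [h4] at hya
        have := arc_unique hcard hxa hya hLν h1 hLy' (by linarith)
        linarith
      · have h4 : toR x.1 - toR y.1 = ((-k : ℤ) * κ : ℝ) • tau ν := by
          rw [← toR_sub]
          have : x.1 - y.1 = (-k) • p := by rw [neg_smul, ← hk]; abel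
          rw [this, toR_smul, hpκ, smul_smul]
        have hk' : (0 : ℝ) < (-k : ℤ) := by exact_mod_cast (by omega : 0 < -k)
        have := order_right hcard hya hxa hLy' h1 hLν (mul_pos hk' hκ) h4
        linarith
    -- the previous point
    have hyk : y.1 = x.1 + k • p := by rw [← hk]; abel
    have hwS : x.1 + (k - 1) • p ∈ shell V :=
      shell_between h.e.edge hp x.2 hk1 (by rw [← hyk]; exact y.2) hx1
    set w : shell V := ⟨x.1 + (k - 1) • p, hwS⟩ with hw
    have hwe : detZ (b - a) (w.1 - b) < 0 := by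
      rw [hp.neg_iff]
      have e : w.1 - b = (x.1 - b) + (k - 1) • p := by simp only [hw]; abel
      rw [e, detZ_add_right, detZ_smul_right, detZ_self, hpx]; norm_num
    obtain ⟨Lw, Rw, hwl, hwL, hwR⟩ := exists_lift_at harc h.e w hwe
    have hwa := lift_arc harc hwl
    have hyw : toR y.1 - toR w.1 = κ • tau ν := by
      rw [← toR_sub, ← hpκ]
      congr 1
      simp only [hw, hyk]
      have : k • p = (k - 1) • p + p := by rw [sub_smul, one_smul]; abel
      rw [this]; abel
    have hRw : Rw < e := order_right hcard hwa hya hwL (by linarith) hLy' hκ hyw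
    have hsw : Lw < s := by
      by_contra hcon
      push Not at hcon
      have := Fm_le two_pi_pos hwl hcon
      linarith
    have hw0 : detZ (a - z) (w.1 - a) ≤ 0 := by
      by_contra hcon
      push Not at hcon
      have h3 := h0.left_gt hcard hwa hwR hcon
      obtain ⟨u, Lu, hu, _⟩ := Fm_lift (l := l) (r := r) two_pi_pos s'
      rw [← hs] at hu
      have := klem hcard h0 u.2 w.2 (lift_arc harc hu) hwa (by linarith) (by linarith) h3
      linarith
    have hw0' : detZ p0 (w.1 - a) ≤ 0 := by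
      by_contra hcon
      push Not at hcon
      have := (hp0.pos_iff _).mpr hcon
      omega
    have hx0 := hp0.shell_ge h0.e.edge x.2
    have hD : 1 ≤ detZ p0 p := by
      have h3 := next_pos hcard h0.e.edge h0.e'.edge
      rw [hp0.pos_iff, hp.eq, detZ_smul_right] at h3
      have := (mul_pos_iff_of_pos_left hp.pos).mp h3
      omega
    have hwx : detZ p0 (w.1 - a) = detZ p0 (x.1 - a) + (k - 1) * detZ p0 p := by
      have e : w.1 - a = (x.1 - a) + (k - 1) • p := by simp only [hw]; abel
      rw [e, detZ_add_right, detZ_smul_right]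
    have hk2 : k ≤ 2 := by
      by_contra hcon
      push Not at hcon
      have : 2 * 1 ≤ (k - 1) * detZ p0 p := mul_le_mul (by omega) hD (by norm_num) (by omega)
      omega
    rcases (by omega : k = 1 ∨ k = 2) with h3 | h3
    · left
      refine ⟨y, ?_, ⟨Ly, hy, hLy'⟩, ?_⟩
      · rw [hyk, h3, one_smul]
      · rw [h3] at hwx; omega
    · right
      refine ⟨y, ?_, ⟨Ly, hy, hLy'⟩, ?_, ?_⟩
      · rw [hyk, h3]
      · rw [h3] at hwx; omega
      · rw [h3] at hwx; omega
  · left
    apply le_antisymm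
    · rw [he]
      exact Fm_mono two_pi_pos (by linarith)
    · exact Fm_le two_pi_pos hy hLy'.ge

/-- Second window lemma: the window of a shell point on the line of the next edge. -/
theorem window_two (hcard : 3 ≤ V.card) (harc : ArcSys V l r) {a b c p p' : ℤ × ℤ}
    {ν ν' : ℝ} (h : Cons V a b c ν ν') (hp : Prim a b p) (hp' : Prim b c p')
    {x : shell V} {L R : ℝ} (hx : Lift l r (2 * π) x L R) (h1 : L < ν)
    (h2 : R = ν') {e s s' : ℝ} (hs : s = Fm l r two_pi_pos s') (he : e = Fm l r two_pi_pos s)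
    (hRe : R < e) (heF : e < Fm l r two_pi_pos R) :
    e = Fm l r two_pi_pos ν ∨ IsG l r (2 * π) ν e ∨ (∃ y : shell V, y.1 = x.1 + p ∧
      (∃ L', Lift l r (2 * π) y L' e ∧ L' < ν) ∧ detZ p p' = 1) := by
  have hxa := lift_arc harc hx
  obtain ⟨y, Ly, hy, hsy⟩ := Fm_lift (l := l) (r := r) two_pi_pos s
  rw [← he] at hy
  have hya := lift_arc harc hy
  have hνν' := h.lt
  have hsL : L < s := by
    by_contra hcon
    push Not at hcon
    have := Fm_le two_pi_pos hx hcon
    linarith
  have hLy : Ly < ν' := by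
    by_contra hcon
    push Not at hcon
    rw [← h2] at hcon
    have := Fm_le two_pi_pos hy hcon
    linarith
  rcases lt_trichotomy Ly ν with hLy' | hLy' | hLy'
  · right; right
    have hxe : detZ (b - a) (x.1 - b) < 0 := h.e.beyond hxa h1 (by linarith)
    have hye : detZ (b - a) (y.1 - b) < 0 := h.e.beyond hya hLy' (by linarith)
    have hye' : detZ (c - b) (y.1 - b) < 0 := by
      rw [← detZ_base]
      exact h.e'.beyond hya hLy (by linarith)
    have hxe' : detZ (c - b) (x.1 - b) = 0 := by
      rw [← detZ_base]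
      exact h.e'.right_on hcard hxa h2
    have hpx := hp.shell_eq h.e.edge x.2 hxe
    have hpy := hp.shell_eq h.e.edge y.2 hye
    have hpyx : detZ p (y.1 - x.1) = 0 := by
      have e : y.1 - x.1 = (y.1 - b) - (x.1 - b) := by abel
      rw [e, detZ_sub_right, hpx, hpy]; ring
    obtain ⟨k, hk⟩ := hp.multiple hpyx
    obtain ⟨κ, hκ, hpκ⟩ := hp.toR_eq h.e
    have hk1 : 1 ≤ k := by
      by_contra hcon
      push Not at hcon
      rcases (by omega : k = 0 ∨ k ≤ -1) with h3 | h3
      · rw [h3, zero_smul] at hk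
        have h4 : y.1 = x.1 := sub_eq_zero.mp hk
        rw [h4] at hya
        have := arc_unique hcard hxa hya h1 (by linarith) hLy' (by linarith)
        linarith
      · have h4 : toR x.1 - toR y.1 = ((-k : ℤ) * κ : ℝ) • tau ν := by
          rw [← toR_sub]
          have : x.1 - y.1 = (-k) • p := by rw [neg_smul, ← hk]; abel
          rw [this, toR_smul, hpκ, smul_smul]
        have hk' : (0 : ℝ) < (-k : ℤ) := by exact_mod_cast (by omega : 0 < -k)
        have := order_right hcard hya hxa hLy' (by linarith) h1 (mul_pos hk' hκ) h4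
        linarith
    have hyk : y.1 = x.1 + k • p := by rw [← hk]; abel
    have hpy' : -1 ≤ detZ p' (y.1 - b) := by
      rw [hp'.base]
      exact hp'.shell_ge h.e'.edge y.2
    have hpy'' : detZ p' (y.1 - b) < 0 := (hp'.neg_iff _).mp hye'
    have hpx' : detZ p' (x.1 - b) = 0 := (hp'.zero_iff _).mp hxe'
    have hD : 1 ≤ detZ p p' := by
      have h3 := next_pos hcard h.e.edge h.e'.edge
      rw [hp.pos_iff, hp'.eq, detZ_smul_right] at h3
      have := (mul_pos_iff_of_pos_left hp'.pos).mp h3
      omega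
    have h5 : detZ p' (y.1 - b) = -(k * detZ p p') := by
      have e : y.1 - b = (x.1 - b) + k • p := by rw [hyk]; abel
      rw [e, detZ_add_right, detZ_smul_right, hpx', detZ_anti p' p]; ring
    have h6 : k * detZ p p' ≤ 1 := by omega
    have h7 : k = 1 := by
      by_contra hne
      have : 2 * 1 ≤ k * detZ p p' := mul_le_mul (by omega) hD (by norm_num) (by omega)
      omega
    refine ⟨y, by rw [hyk, h7, one_smul], ⟨Ly, hy, hLy'⟩, ?_⟩
    rw [h7] at h6; omega
  · left
    apply le_antisymm
    · rw [he]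
      exact Fm_mono two_pi_pos (by linarith)
    · exact Fm_le two_pi_pos hy hLy'.ge
  · rcases le_or_gt s ν with hsν | hsν
    · left
      apply le_antisymm
      · rw [he]
        exact Fm_mono two_pi_pos hsν
      · exact Fm_le two_pi_pos hy hLy'.le
    · right; left
      refine ⟨⟨y, Ly, hy, hLy'⟩, ?_⟩
      intro y' L' R' hy' hle
      obtain ⟨u, Lu, hu, _⟩ := Fm_lift (l := l) (r := r) two_pi_pos s'
      rw [← hs] at hu
      have h3 := klem hcard h u.2 y'.2 (lift_arc harc hu) (lift_arc harc hy') hsν (by linarith) hle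
      rw [he]
      exact Fm_le two_pi_pos hy' h3

/-- three distinct values, three exclusive alternatives -/
theorem three_values {e : Fin 3 → ℝ} (he : Function.Injective e) {P : Fin 3 → ℝ → Prop}
    (h : ∀ i, ∃ j, P j (e i)) (hu : ∀ j a b, P j a → P j b → a = b) (j : Fin 3) :
    ∃ i, P j (e i) := by
  choose f hf using h
  have hinj : Function.Injective f := by
    intro i i' hii
    apply he
    apply hu (f i)
    · exact hf i
    · rw [hii]; exact hf i'
  obtain ⟨i, hi⟩ := (Finite.injective_iff_surjective.mp hinj) j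
  exact ⟨i, by rw [← hi]; exact hf i⟩

end Pool.Agent.Lib.MP_2d08ba_nt
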